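import Pool.Agent.MP_ca1109_lc.Xt.Defs

/-!
# The probabilities of the events about the random set `η`
-/

namespace Pool.Agent.MP_ca1109_lc.Xt

open Finset Pool.Agent.H66 Pool.Agent.MP_ca1109_lc.Mpg Pool.Agent.MP_ca1109_lc.Agp
open Pool.Agent.MP_ca1109_lc.Dnf (Cube ch one E mix Term one_true one_false one_not one_nonneg one_le
  one_mono)
open Pool.Agent.MP_ca1109_lc.Xp (Sp Bias xo fl Miss Hs later mq uv gq)
open Pool.Agent.MP_ca1109_lc.Xl (Tr pr Rd Fam)

variable {n : ℕ} {ι : Type}

theorem xee_insert (i : Fin n) (A η : Finset (Fin n)) :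
    one (i ∈ η ∧ Disjoint η A) = one (Disjoint η A) - one (Disjoint η (insert i A)) := by
  classical
  by_cases hA : Disjoint η A
  · by_cases hi : i ∈ η
    · rw [one_true ⟨hi, hA⟩, one_true hA, one_false, sub_zero]
      intro h
      exact disjoint_left.1 h hi (mem_insert_self i A)
    · rw [one_false (fun h => hi h.1), one_true hA, one_true, sub_self]
      exact disjoint_insert_right.2 ⟨hi, hA⟩
  · rw [one_false (fun h => hA h.2), one_false hA, one_false, sub_self]
    intro h
    exact hA (disjoint_of_subset_right (subset_insert i A) h)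

theorem xee_insert2 {i i' : Fin n} (A A' η : Finset (Fin n)) :
    one (i ∈ η ∧ Disjoint η A) * one (i' ∈ η ∧ Disjoint η A') =
      one (Disjoint η (A ∪ A')) - one (Disjoint η (insert i (A ∪ A'))) -
        one (Disjoint η (insert i' (A ∪ A'))) + one (Disjoint η (insert i (insert i' (A ∪ A')))) := by
  classical
  rw [xee_insert, xee_insert]
  by_cases hA : Disjoint η A
  · by_cases hA' : Disjoint η A'
    · have h1 : Disjoint η (A ∪ A') := disjoint_union_right.2 ⟨hA, hA'⟩
      by_cases hi : i ∈ η
      · by_cases hi' : i' ∈ η
        · rw [one_true hA, one_true hA', one_true h1,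
            one_false (p := Disjoint η (insert i A)) (fun h => (disjoint_insert_right.1 h).1 hi),
            one_false (p := Disjoint η (insert i' A')) (fun h => (disjoint_insert_right.1 h).1 hi'),
            one_false (p := Disjoint η (insert i (A ∪ A')))
              (fun h => (disjoint_insert_right.1 h).1 hi),
            one_false (p := Disjoint η (insert i' (A ∪ A')))
              (fun h => (disjoint_insert_right.1 h).1 hi'),
            one_false (p := Disjoint η (insert i (insert i' (A ∪ A'))))
              (fun h => (disjoint_insert_right.1 h).1 hi)]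
          norm_num
        · rw [one_true hA, one_true hA', one_true h1,
            one_false (p := Disjoint η (insert i A)) (fun h => (disjoint_insert_right.1 h).1 hi),
            one_true (p := Disjoint η (insert i' A')) (disjoint_insert_right.2 ⟨hi', hA'⟩),
            one_false (p := Disjoint η (insert i (A ∪ A')))
              (fun h => (disjoint_insert_right.1 h).1 hi),
            one_true (p := Disjoint η (insert i' (A ∪ A'))) (disjoint_insert_right.2 ⟨hi', h1⟩),
            one_false (p := Disjoint η (insert i (insert i' (A ∪ A'))))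
              (fun h => (disjoint_insert_right.1 h).1 hi)]
          norm_num
      · have h2 : (one (Disjoint η (insert i (A ∪ A'))) : ℝ) = 1 :=
          one_true (disjoint_insert_right.2 ⟨hi, h1⟩)
        by_cases hi' : i' ∈ η
        · rw [one_true hA, one_true hA', one_true h1, h2,
            one_true (p := Disjoint η (insert i A)) (disjoint_insert_right.2 ⟨hi, hA⟩),
            one_false (p := Disjoint η (insert i' A')) (fun h => (disjoint_insert_right.1 h).1 hi'),
            one_false (p := Disjoint η (insert i' (A ∪ A')))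
              (fun h => (disjoint_insert_right.1 h).1 hi'),
            one_false (p := Disjoint η (insert i (insert i' (A ∪ A'))))
              (fun h => (disjoint_insert_right.1 (disjoint_insert_right.1 h).2).1 hi')]
          norm_num
        · rw [one_true hA, one_true hA', one_true h1, h2,
            one_true (p := Disjoint η (insert i A)) (disjoint_insert_right.2 ⟨hi, hA⟩),
            one_true (p := Disjoint η (insert i' A')) (disjoint_insert_right.2 ⟨hi', hA'⟩),
            one_true (p := Disjoint η (insert i' (A ∪ A'))) (disjoint_insert_right.2 ⟨hi', h1⟩),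
            one_true (p := Disjoint η (insert i (insert i' (A ∪ A'))))
              (disjoint_insert_right.2 ⟨hi, disjoint_insert_right.2 ⟨hi', h1⟩⟩)]
          norm_num
    · have h1 : ¬ Disjoint η (A ∪ A') := fun h => hA' (disjoint_union_right.1 h).2
      rw [one_false hA', one_false h1,
        one_false (p := Disjoint η (insert i' A')) (fun h => hA' (disjoint_insert_right.1 h).2),
        one_false (p := Disjoint η (insert i (A ∪ A')))
          (fun h => h1 (disjoint_insert_right.1 h).2),
        one_false (p := Disjoint η (insert i' (A ∪ A')))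
          (fun h => h1 (disjoint_insert_right.1 h).2),
        one_false (p := Disjoint η (insert i (insert i' (A ∪ A'))))
          (fun h => h1 (disjoint_insert_right.1 (disjoint_insert_right.1 h).2).2)]
      ring
  · have h1 : ¬ Disjoint η (A ∪ A') := fun h => hA (disjoint_union_right.1 h).1
    rw [one_false hA, one_false h1,
      one_false (p := Disjoint η (insert i A)) (fun h => hA (disjoint_insert_right.1 h).2),
      one_false (p := Disjoint η (insert i (A ∪ A')))
        (fun h => h1 (disjoint_insert_right.1 h).2),
      one_false (p := Disjoint η (insert i' (A ∪ A')))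
        (fun h => h1 (disjoint_insert_right.1 h).2),
      one_false (p := Disjoint η (insert i (insert i' (A ∪ A'))))
        (fun h => h1 (disjoint_insert_right.1 (disjoint_insert_right.1 h).2).2)]
    ring

section EE
variable {K s : ℕ} {T : ι → Term n} {M : Finset ι} {Q : ι → Fin n → Finset (Fin n)}
  {D : ι → Finset (Fin n)} {a : ι → Fin n → Cube n}
  {Ω : Type} [Fintype Ω] [Nonempty Ω] {η : Ω → Finset (Fin n)} {p δ : ℝ}

theorem xee_card (S B : Finset (Fin n)) (i : Fin n) :
    (later S i ∪ (B \ S)).card = (later S i).card + (B \ S).card := by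
  classical
  refine card_union_of_disjoint (disjoint_left.2 fun u hu hu' => ?_)
  unfold later at hu
  exact (mem_sdiff.1 hu').2 (mem_filter.1 hu).1

theorem xee_not_mem {S B : Finset (Fin n)} {i : Fin n} (hi : i ∈ S) :
    i ∉ later S i ∪ (B \ S) := by
  classical
  intro h
  rcases mem_union.1 h with h | h
  · unfold later at h
    exact lt_irrefl i (mem_filter.1 h).2
  · exact (mem_sdiff.1 h).2 hi

theorem xee_later_card {m : Finset (Fin n)} {i : Fin n} (hi : i ∈ m) :
    (later m i).card + 1 ≤ m.card := by
  classical
  have h1 : later m i ⊆ m.erase i := by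
    intro u hu
    unfold later at hu
    obtain ⟨h1, h2⟩ := mem_filter.1 hu
    exact mem_erase.2 ⟨ne_of_gt h2, h1⟩
  have h2 := card_le_card h1
  have h3 := card_erase_add_one hi
  omega

theorem xee_sub {S B : Finset (Fin n)} {i : Fin n} (hi : i ∈ S) (hSB : S ⊆ B) :
    insert i (later S i ∪ (B \ S)) ⊆ B := by
  classical
  intro u hu
  rcases mem_insert.1 hu with rfl | hu
  · exact hSB hi
  · rcases mem_union.1 hu with hu | hu
    · unfold later at hu
      exact hSB (mem_filter.1 hu).1
    · exact (mem_sdiff.1 hu).1

theorem pe_avg (hQ : Pat K T M Q D) (hη : Miss s p δ η) {m : ι} (hm : m ∈ M)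
    {i : Fin n} (hi : i ∈ (T m).S) (hs : (T m).S.card + K ≤ s) :
    |(avg fun ω => one (PE T Q m i (η ω))) -
      p * (1 - p) ^ ((later (T m).S i).card + (Q m i \ (T m).S).card)| ≤ 2 * δ := by
  classical
  set A := later (T m).S i ∪ (Q m i \ (T m).S) with hA
  have hr := hQ.ext m hm i hi
  have hc : A.card = (later (T m).S i).card + (Q m i \ (T m).S).card := xee_card _ _ _
  have hi' : i ∉ A := xee_not_mem hi
  have hl := xee_later_card hi
  have hci : (insert i A).card = A.card + 1 := card_insert_of_notMem hi'
  have h1 := hη A (by omega)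
  have h2 := hη (insert i A) (by omega)
  have h3 : (avg fun ω => one (PE T Q m i (η ω))) =
      (avg fun ω => one (Disjoint (η ω) A)) - avg fun ω => one (Disjoint (η ω) (insert i A)) := by
    rw [← avg_sub]
    congr 1
    funext ω
    exact xee_insert i A (η ω)
  rw [h3, ← hc]
  rw [hci, pow_succ] at h2
  rw [abs_le] at h1 h2 ⊢
  constructor <;> linarith [h1.1, h1.2, h2.1, h2.2]

theorem pe_far (hQ : Pat K T M Q D) (hη : Miss s p δ η) {m m' : ι} (hm : m ∈ M)
    (hm' : m' ∈ M) {i i' : Fin n} (hi : i ∈ (T m).S) (hi' : i' ∈ (T m').S)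
    (hs : (T m).S.card + (T m').S.card + 2 * K ≤ s) (hd : Disjoint (D m) (D m')) :
    |(avg fun ω => one (PE T Q m i (η ω)) * one (PE T Q m' i' (η ω))) -
      (p * (1 - p) ^ ((later (T m).S i).card + (Q m i \ (T m).S).card)) *
      (p * (1 - p) ^ ((later (T m').S i').card + (Q m' i' \ (T m').S).card))| ≤ 4 * δ := by
  classical
  set A := later (T m).S i ∪ (Q m i \ (T m).S) with hA
  set A' := later (T m').S i' ∪ (Q m' i' \ (T m').S) with hA'
  have hr := hQ.ext m hm i hi
  have hr' := hQ.ext m' hm' i' hi'
  have hc : A.card = (later (T m).S i).card + (Q m i \ (T m).S).card := xee_card _ _ _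
  have hc' : A'.card = (later (T m').S i').card + (Q m' i' \ (T m').S).card := xee_card _ _ _
  have hl := xee_later_card hi
  have hl' := xee_later_card hi'
  have hsub : insert i A ⊆ D m :=
    (xee_sub hi (hQ.sub m hm i hi)).trans (hQ.dom m hm i hi)
  have hsub' : insert i' A' ⊆ D m' :=
    (xee_sub hi' (hQ.sub m' hm' i' hi')).trans (hQ.dom m' hm' i' hi')
  have hdd : Disjoint (insert i A) (insert i' A') :=
    disjoint_of_subset_left hsub (disjoint_of_subset_right hsub' hd)
  have hAA : Disjoint A A' := disjoint_of_subset_left (subset_insert _ _)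
    (disjoint_of_subset_right (subset_insert _ _) hdd)
  have hiA : i ∉ A := xee_not_mem hi
  have hiA' : i' ∉ A' := xee_not_mem hi'
  have h1 : i ∉ A ∪ A' := by
    intro h
    rcases mem_union.1 h with h | h
    · exact hiA h
    · exact disjoint_left.1 hdd (mem_insert_self _ _) (mem_insert_of_mem h)
  have h2 : i' ∉ A ∪ A' := by
    intro h
    rcases mem_union.1 h with h | h
    · exact disjoint_left.1 hdd (mem_insert_of_mem h) (mem_insert_self _ _)
    · exact hiA' h
  have h3 : i ≠ i' := by
    intro h
    exact disjoint_left.1 hdd (mem_insert_self i A) (h ▸ mem_insert_self i' A')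
  have h4 : i ∉ insert i' (A ∪ A') := by
    intro h
    rcases mem_insert.1 h with h | h
    · exact h3 h
    · exact h1 h
  have c0 : (A ∪ A').card = A.card + A'.card := card_union_of_disjoint hAA
  have c1 : (insert i (A ∪ A')).card = A.card + A'.card + 1 := by
    rw [card_insert_of_notMem h1, c0]
  have c2 : (insert i' (A ∪ A')).card = A.card + A'.card + 1 := by
    rw [card_insert_of_notMem h2, c0]
  have c3 : (insert i (insert i' (A ∪ A'))).card = A.card + A'.card + 2 := by
    rw [card_insert_of_notMem h4, c2]
  have e0 := hη (A ∪ A') (by omega)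
  have e1 := hη (insert i (A ∪ A')) (by omega)
  have e2 := hη (insert i' (A ∪ A')) (by omega)
  have e3 := hη (insert i (insert i' (A ∪ A'))) (by omega)
  have h5 : (avg fun ω => one (PE T Q m i (η ω)) * one (PE T Q m' i' (η ω))) =
      (avg fun ω => one (Disjoint (η ω) (A ∪ A'))) -
      (avg fun ω => one (Disjoint (η ω) (insert i (A ∪ A')))) -
      (avg fun ω => one (Disjoint (η ω) (insert i' (A ∪ A')))) +
      avg fun ω => one (Disjoint (η ω) (insert i (insert i' (A ∪ A')))) := by
    rw [← avg_sub, ← avg_sub, ← avg_add]
    congr 1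
    funext ω
    exact xee_insert2 A A' (η ω)
  rw [h5, ← hc, ← hc']
  rw [c0, pow_add] at e0
  rw [c1, pow_succ, pow_add] at e1
  rw [c2, pow_succ, pow_add] at e2
  rw [c3, pow_add, pow_add] at e3
  rw [abs_le] at e0 e1 e2 e3 ⊢
  set a := (1 - p) ^ A.card
  set a' := (1 - p) ^ A'.card
  have h6 : p * a * (p * a') = a * a' - a * a' * (1 - p) - a * a' * (1 - p) +
      a * a' * (1 - p) ^ 2 := by ring
  rw [h6]
  constructor <;> linarith [e0.1, e0.2, e1.1, e1.2, e2.1, e2.2, e3.1, e3.2]

theorem pe_sum {m : ι} (η : Finset (Fin n)) :
    ∑ i ∈ (T m).S, one (PE T Q m i η) ≤ one (¬ Disjoint (T m).S η) := by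
  classical
  by_cases h : ∃ i ∈ (T m).S, PE T Q m i η
  · obtain ⟨i, hi, hP⟩ := h
    rw [sum_eq_single_of_mem i hi]
    · refine one_mono fun _ => not_disjoint_iff.2 ⟨i, hi, hP.1⟩
    · intro j hj hji
      refine one_false fun hQ => ?_
      rcases lt_or_gt_of_ne hji with hlt | hlt
      · refine disjoint_left.1 hQ.2 hP.1 (mem_union_left _ ?_)
        unfold later
        exact mem_filter.2 ⟨hi, hlt⟩
      · refine disjoint_left.1 hP.2 hQ.1 (mem_union_left _ ?_)
        unfold later
        exact mem_filter.2 ⟨hj, hlt⟩
  · rw [sum_eq_zero]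
    · exact one_nonneg _
    · intro i hi
      exact one_false fun hP => h ⟨i, hi, hP⟩

end EE

end Pool.Agent.MP_ca1109_lc.Xt
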