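import Pool.Agent.MP_ca1109_lc.Xt.EX
import Pool.Agent.MP_ca1109_lc.Xt.EE

/-!
# The probabilities of the patterns
-/

namespace Pool.Agent.MP_ca1109_lc.Xt

open Finset Pool.Agent.H66 Pool.Agent.MP_ca1109_lc.Mpg Pool.Agent.MP_ca1109_lc.Agp
open Pool.Agent.MP_ca1109_lc.Dnf (Cube ch one E mix Term)
open Pool.Agent.MP_ca1109_lc.Xp (Sp Bias xo fl Miss Hs later mq uv gq)
open Pool.Agent.MP_ca1109_lc.Xl (Tr pr Rd Fam)

variable {n : ℕ} {ι : Type} [DecidableEq ι]

/-! ## Auxiliary facts -/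

private theorem xpr_later_insert {s : Finset (Fin n)} {a : Fin n} (h : ∀ x ∈ s, a < x) :
    later (insert a s) a = s := by
  unfold later
  ext j
  simp only [mem_filter, mem_insert]
  constructor
  · rintro ⟨rfl | hj, hlt⟩
    · exact absurd hlt (lt_irrefl _)
    · exact hj
  · intro hj
    exact ⟨Or.inr hj, h j hj⟩

private theorem xpr_later_insert' {s : Finset (Fin n)} {a i : Fin n} (h : ∀ x ∈ s, a < x)
    (hi : i ∈ s) : later (insert a s) i = later s i := by
  unfold later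
  ext j
  simp only [mem_filter, mem_insert]
  constructor
  · rintro ⟨rfl | hj, hlt⟩
    · exact absurd hlt (not_lt.mpr (h i hi).le)
    · exact ⟨hj, hlt⟩
  · rintro ⟨hj, hlt⟩
    exact ⟨Or.inr hj, hlt⟩

/-- The position of the last success. -/
private theorem xpr_geom (p : ℝ) (m : Finset (Fin n)) :
    ∑ i ∈ m, p * (1 - p) ^ (later m i).card = 1 - (1 - p) ^ m.card := by
  induction m using Finset.induction_on_min with
  | empty => simp
  | insert a s h ih =>
    have ha : a ∉ s := fun hh => lt_irrefl a (h a hh)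
    rw [sum_insert ha, xpr_later_insert h, card_insert_of_notMem ha]
    have : ∑ i ∈ s, p * (1 - p) ^ (later (insert a s) i).card =
        ∑ i ∈ s, p * (1 - p) ^ (later s i).card :=
      sum_congr rfl fun i hi => by rw [xpr_later_insert' h hi]
    rw [this, ih]
    ring

section PR
variable {K s : ℕ} {T : ι → Term n} {M : Finset ι} {Q : ι → Fin n → Finset (Fin n)}
  {D : ι → Finset (Fin n)} {a : ι → Fin n → Cube n}
  {Ω : Type} [Fintype Ω] [Nonempty Ω] {η : Ω → Finset (Fin n)} {p δ : ℝ}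

private theorem xpr_unique {m : ι} {η : Finset (Fin n)} {i j : Fin n} (hi : i ∈ (T m).S)
    (hj : j ∈ (T m).S) (h : PE T Q m i η) (h' : PE T Q m j η) : i = j := by
  have aux : ∀ u v : Fin n, v ∈ (T m).S → PE T Q m u η → PE T Q m v η → ¬ u < v := by
    intro u v hb ha hb' hlt
    exact disjoint_left.1 ha.2 hb'.1 (mem_union_left _ (mem_filter.2 ⟨hb, hlt⟩))
  exact le_antisymm (not_lt.1 (aux j i hi h' h)) (not_lt.1 (aux i j hj h h'))

theorem pv_eq (m : ι) (η : Finset (Fin n)) (x : Cube n) :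
    one (Pv T Q a m η x) = ∑ i ∈ (T m).S, one (PE T Q m i η) * one (PX Q a m i x) := by
  classical
  by_cases h : Pv T Q a m η x
  · obtain ⟨i, hi, h1, h2⟩ := h
    rw [Dnf.one_true ⟨i, hi, h1, h2⟩, sum_eq_single_of_mem i hi, Dnf.one_true h1, Dnf.one_true h2,
      one_mul]
    intro j hj hji
    rw [Dnf.one_false (fun h3 => hji (xpr_unique hj hi h3 h1)), zero_mul]
  · rw [Dnf.one_false h]
    symm
    refine sum_eq_zero fun i hi => ?_
    by_cases h1 : PE T Q m i η
    · rw [Dnf.one_false (p := PX Q a m i x) (fun h2 => h ⟨i, hi, h1, h2⟩), mul_zero]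
    · rw [Dnf.one_false h1, zero_mul]

private theorem xpr_E_pv (m : ι) (η : Finset (Fin n)) :
    (E fun x => one (Pv T Q a m η x)) =
      ∑ i ∈ (T m).S, one (PE T Q m i η) * E fun x => one (PX Q a m i x) := by
  have h : (fun x => one (Pv T Q a m η x)) =
      fun x => ∑ i ∈ (T m).S, one (PE T Q m i η) * one (PX Q a m i x) := funext fun x => pv_eq m η x
  rw [h, Dnf.E_sum]
  exact sum_congr rfl fun i _ => Dnf.E_smul _ _

private theorem xpr_E_pv2 (m m' : ι) (η : Finset (Fin n)) :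
    (E fun x => one (Pv T Q a m η x) * one (Pv T Q a m' η x)) =
      ∑ i ∈ (T m).S, ∑ j ∈ (T m').S, (one (PE T Q m i η) * one (PE T Q m' j η)) *
        E fun x => one (PX Q a m i x) * one (PX Q a m' j x) := by
  have h : (fun x => one (Pv T Q a m η x) * one (Pv T Q a m' η x)) =
      fun x => ∑ i ∈ (T m).S, ∑ j ∈ (T m').S, (one (PE T Q m i η) * one (PE T Q m' j η)) *
        (one (PX Q a m i x) * one (PX Q a m' j x)) := by
    funext x
    rw [pv_eq, pv_eq, sum_mul_sum]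
    exact sum_congr rfl fun i _ => sum_congr rfl fun j _ => by ring
  rw [h, Dnf.E_sum]
  refine sum_congr rfl fun i _ => ?_
  rw [Dnf.E_sum]
  exact sum_congr rfl fun j _ => Dnf.E_smul _ _

theorem pv_one (hQ : Pat K T M Q D) (hη : Miss s p δ η) {m : ι}
    (hm : m ∈ M) (hs : (T m).S.card + K ≤ s) :
    |(avg fun ω => E fun x => one (Pv T Q a m (η ω) x)) - aw p T Q m| ≤ 2 * δ * (T m).S.card := by
  have h1 : (avg fun ω => E fun x => one (Pv T Q a m (η ω) x)) =
      ∑ i ∈ (T m).S, (avg fun ω => one (PE T Q m i (η ω))) *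
        (1 / 2) ^ ((T m).S.card - 1 + (Q m i \ (T m).S).card) := by
    simp_rw [xpr_E_pv]
    rw [avg_sum]
    refine sum_congr rfl fun i hi => ?_
    rw [px_E hQ hm hi]
    have : (fun ω => one (PE T Q m i (η ω)) * (1 / 2 : ℝ) ^ ((T m).S.card - 1 + (Q m i \ (T m).S).card)) =
        fun ω => (1 / 2 : ℝ) ^ ((T m).S.card - 1 + (Q m i \ (T m).S).card) * one (PE T Q m i (η ω)) :=
      funext fun ω => mul_comm _ _
    rw [this, avg_mul_left, mul_comm]
  rw [h1, aw, ← sum_sub_distrib]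
  refine (abs_sum_le_sum_abs _ _).trans ?_
  have h2 : ∀ i ∈ (T m).S, |(avg fun ω => one (PE T Q m i (η ω))) *
      (1 / 2) ^ ((T m).S.card - 1 + (Q m i \ (T m).S).card) -
      p * (1 - p) ^ ((later (T m).S i).card + (Q m i \ (T m).S).card) *
        (1 / 2) ^ ((T m).S.card - 1 + (Q m i \ (T m).S).card)| ≤ 2 * δ := by
    intro i hi
    rw [← sub_mul, abs_mul]
    have h3 := pe_avg hQ hη hm hi hs
    have h4 : |(1 / 2 : ℝ) ^ ((T m).S.card - 1 + (Q m i \ (T m).S).card)| ≤ 1 := by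
      rw [abs_of_nonneg (by positivity)]
      exact pow_le_one₀ (by norm_num) (by norm_num)
    calc _ ≤ 2 * δ * 1 := mul_le_mul h3 h4 (abs_nonneg _) ((abs_nonneg _).trans h3)
      _ = 2 * δ := mul_one _
  calc _ ≤ ∑ i ∈ (T m).S, 2 * δ := sum_le_sum h2
    _ = 2 * δ * (T m).S.card := by rw [sum_const, nsmul_eq_mul, mul_comm]

theorem pv_far (hQ : Pat K T M Q D) (hη : Miss s p δ η) {m m' : ι} (hm : m ∈ M) (hm' : m' ∈ M)
    (hs : (T m).S.card + (T m').S.card + 2 * K ≤ s)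
    (hd : Disjoint (D m) (D m')) :
    (avg fun ω => E fun x => one (Pv T Q a m (η ω) x) * one (Pv T Q a m' (η ω) x)) ≤
      aw p T Q m * aw p T Q m' + 4 * δ * ((T m).S.card * (T m').S.card) := by
  have h1 : (avg fun ω => E fun x => one (Pv T Q a m (η ω) x) * one (Pv T Q a m' (η ω) x)) =
      ∑ i ∈ (T m).S, ∑ j ∈ (T m').S, (avg fun ω => one (PE T Q m i (η ω)) * one (PE T Q m' j (η ω))) *
        ((1 / 2) ^ ((T m).S.card - 1 + (Q m i \ (T m).S).card) *
          (1 / 2) ^ ((T m').S.card - 1 + (Q m' j \ (T m').S).card)) := by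
    simp_rw [xpr_E_pv2]
    rw [avg_sum]
    refine sum_congr rfl fun i hi => ?_
    rw [avg_sum]
    refine sum_congr rfl fun j hj => ?_
    rw [px_far hQ hm hm' hi hj hd]
    have : (fun ω => one (PE T Q m i (η ω)) * one (PE T Q m' j (η ω)) *
        ((1 / 2 : ℝ) ^ ((T m).S.card - 1 + (Q m i \ (T m).S).card) *
          (1 / 2) ^ ((T m').S.card - 1 + (Q m' j \ (T m').S).card))) =
        fun ω => ((1 / 2 : ℝ) ^ ((T m).S.card - 1 + (Q m i \ (T m).S).card) *
          (1 / 2) ^ ((T m').S.card - 1 + (Q m' j \ (T m').S).card)) *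
          (one (PE T Q m i (η ω)) * one (PE T Q m' j (η ω))) :=
      funext fun ω => mul_comm _ _
    rw [this, avg_mul_left, mul_comm]
  have h2 : ∀ i ∈ (T m).S, ∀ j ∈ (T m').S,
      (avg fun ω => one (PE T Q m i (η ω)) * one (PE T Q m' j (η ω))) *
        ((1 / 2 : ℝ) ^ ((T m).S.card - 1 + (Q m i \ (T m).S).card) *
          (1 / 2) ^ ((T m').S.card - 1 + (Q m' j \ (T m').S).card)) ≤
      (p * (1 - p) ^ ((later (T m).S i).card + (Q m i \ (T m).S).card) *
        (1 / 2) ^ ((T m).S.card - 1 + (Q m i \ (T m).S).card)) *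
      (p * (1 - p) ^ ((later (T m').S j).card + (Q m' j \ (T m').S).card) *
        (1 / 2) ^ ((T m').S.card - 1 + (Q m' j \ (T m').S).card)) + 4 * δ := by
    intro i hi j hj
    have h3 := pe_far hQ hη hm hm' hi hj hs hd
    have h4 := (abs_le.1 h3).2
    have hδ : 0 ≤ 4 * δ := (abs_nonneg _).trans h3
    have hc0 : (0 : ℝ) ≤ (1 / 2 : ℝ) ^ ((T m).S.card - 1 + (Q m i \ (T m).S).card) *
        (1 / 2) ^ ((T m').S.card - 1 + (Q m' j \ (T m').S).card) := by positivity
    have hc1 : (1 / 2 : ℝ) ^ ((T m).S.card - 1 + (Q m i \ (T m).S).card) *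
        (1 / 2) ^ ((T m').S.card - 1 + (Q m' j \ (T m').S).card) ≤ 1 :=
      mul_le_one₀ (pow_le_one₀ (by norm_num) (by norm_num)) (by positivity)
        (pow_le_one₀ (by norm_num) (by norm_num))
    calc _ ≤ ((p * (1 - p) ^ ((later (T m).S i).card + (Q m i \ (T m).S).card)) *
          (p * (1 - p) ^ ((later (T m').S j).card + (Q m' j \ (T m').S).card)) + 4 * δ) *
          ((1 / 2 : ℝ) ^ ((T m).S.card - 1 + (Q m i \ (T m).S).card) *
            (1 / 2) ^ ((T m').S.card - 1 + (Q m' j \ (T m').S).card)) :=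
          mul_le_mul_of_nonneg_right (by linarith) hc0
      _ = (p * (1 - p) ^ ((later (T m).S i).card + (Q m i \ (T m).S).card) *
        (1 / 2) ^ ((T m).S.card - 1 + (Q m i \ (T m).S).card)) *
      (p * (1 - p) ^ ((later (T m').S j).card + (Q m' j \ (T m').S).card) *
        (1 / 2) ^ ((T m').S.card - 1 + (Q m' j \ (T m').S).card)) +
          4 * δ * ((1 / 2 : ℝ) ^ ((T m).S.card - 1 + (Q m i \ (T m).S).card) *
            (1 / 2) ^ ((T m').S.card - 1 + (Q m' j \ (T m').S).card)) := by ring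
      _ ≤ _ := by
          have := mul_le_mul_of_nonneg_left hc1 hδ
          rw [mul_one] at this
          linarith
  rw [h1]
  calc _ ≤ ∑ i ∈ (T m).S, ∑ j ∈ (T m').S,
      ((p * (1 - p) ^ ((later (T m).S i).card + (Q m i \ (T m).S).card) *
        (1 / 2) ^ ((T m).S.card - 1 + (Q m i \ (T m).S).card)) *
      (p * (1 - p) ^ ((later (T m').S j).card + (Q m' j \ (T m').S).card) *
        (1 / 2) ^ ((T m').S.card - 1 + (Q m' j \ (T m').S).card)) + 4 * δ) :=
        sum_le_sum fun i hi => sum_le_sum fun j hj => h2 i hi j hj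
    _ = aw p T Q m * aw p T Q m' + 4 * δ * ((T m).S.card * (T m').S.card) := by
        simp_rw [sum_add_distrib, sum_const, nsmul_eq_mul]
        rw [aw, aw, sum_mul_sum]
        ring

private theorem xpr_pe_sum_le_one {m : ι} (η : Finset (Fin n)) :
    ∑ i ∈ (T m).S, one (PE T Q m i η) ≤ 1 := (pe_sum η).trans (Dnf.one_le _)

theorem pv_near (hQ : Pat K T M Q D) (hη : Miss s p δ η) {m m' : ι} (hm : m ∈ M) (hm' : m' ∈ M)
    (hs : (T m).S.card ≤ s) :
    (avg fun ω => E fun x => one (Pv T Q a m (η ω) x) * one (Pv T Q a m' (η ω) x)) ≤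
      4 * (1 / 2) ^ ((T m).S ∪ (T m').S).card * (1 - (1 - p) ^ (T m).S.card + δ) := by
  have h1 : ∀ ω, (E fun x => one (Pv T Q a m (η ω) x) * one (Pv T Q a m' (η ω) x)) ≤
      (4 * (1 / 2) ^ ((T m).S ∪ (T m').S).card) * (1 - one (Disjoint (η ω) (T m).S)) := by
    intro ω
    rw [xpr_E_pv2]
    have hc : (0 : ℝ) ≤ 4 * (1 / 2) ^ ((T m).S ∪ (T m').S).card := by positivity
    have hs0 : 0 ≤ ∑ i ∈ (T m).S, one (PE T Q m i (η ω)) := sum_nonneg fun i _ => Dnf.one_nonneg _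
    calc _ ≤ ∑ i ∈ (T m).S, ∑ j ∈ (T m').S, (one (PE T Q m i (η ω)) * one (PE T Q m' j (η ω))) *
          (4 * (1 / 2) ^ ((T m).S ∪ (T m').S).card) :=
          sum_le_sum fun i hi => sum_le_sum fun j hj => mul_le_mul_of_nonneg_left
            (px_near hQ hm hm' hi hj) (mul_nonneg (Dnf.one_nonneg _) (Dnf.one_nonneg _))
      _ = (4 * (1 / 2) ^ ((T m).S ∪ (T m').S).card) * ((∑ i ∈ (T m).S, one (PE T Q m i (η ω))) *
          ∑ j ∈ (T m').S, one (PE T Q m' j (η ω))) := by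
          rw [sum_mul_sum, mul_sum]
          refine sum_congr rfl fun i _ => ?_
          rw [mul_sum]
          exact sum_congr rfl fun j _ => mul_comm _ _
      _ ≤ (4 * (1 / 2) ^ ((T m).S ∪ (T m').S).card) * ((∑ i ∈ (T m).S, one (PE T Q m i (η ω))) * 1) :=
          mul_le_mul_of_nonneg_left (mul_le_mul_of_nonneg_left (xpr_pe_sum_le_one _) hs0) hc
      _ ≤ (4 * (1 / 2) ^ ((T m).S ∪ (T m').S).card) * (1 - one (Disjoint (η ω) (T m).S)) := by
          refine mul_le_mul_of_nonneg_left ?_ hc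
          rw [mul_one, ← Dnf.one_not]
          refine (pe_sum (η ω)).trans (Dnf.one_mono fun h => ?_)
          rwa [disjoint_comm]
  refine (avg_mono h1).trans ?_
  rw [avg_mul_left, avg_sub, avg_const]
  refine mul_le_mul_of_nonneg_left ?_ (by positivity)
  have := (abs_le.1 (hη (T m).S hs)).1
  linarith

theorem aw_lower (hQ : Pat K T M Q D) {m : ι} (hm : m ∈ M) (hp : 0 ≤ p) (hp1 : p ≤ 1 / 2) :
    (1 / 4) ^ K * ((1 / 2) ^ (T m).S.card * (1 - (1 - p) ^ (T m).S.card)) ≤ aw p T Q m := by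
  rw [← xpr_geom, aw, mul_sum, mul_sum]
  refine sum_le_sum fun i hi => ?_
  have hk := hQ.ext m hm i hi
  have hq : (1 / 2 : ℝ) ≤ 1 - p := by linarith
  have hq0 : (0 : ℝ) ≤ 1 - p := by linarith
  have h1 : (1 / 4 : ℝ) ^ K ≤ (1 / 4) ^ (Q m i \ (T m).S).card :=
    pow_le_pow_of_le_one (by norm_num) (by norm_num) (by omega)
  have h2 : (1 / 2 : ℝ) ^ (T m).S.card ≤ (1 / 2) ^ ((T m).S.card - 1) :=
    pow_le_pow_of_le_one (by norm_num) (by norm_num) (Nat.sub_le _ _)
  have h3 : (1 / 2 : ℝ) ^ (Q m i \ (T m).S).card ≤ (1 - p) ^ (Q m i \ (T m).S).card :=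
    pow_le_pow_left₀ (by norm_num) hq _
  have h4 : (1 / 4 : ℝ) ^ (Q m i \ (T m).S).card =
      (1 / 2) ^ (Q m i \ (T m).S).card * (1 / 2) ^ (Q m i \ (T m).S).card := by
    rw [← mul_pow]; norm_num
  calc (1 / 4 : ℝ) ^ K * ((1 / 2) ^ (T m).S.card * (p * (1 - p) ^ (later (T m).S i).card))
      ≤ (1 / 4) ^ (Q m i \ (T m).S).card * ((1 / 2) ^ ((T m).S.card - 1) * (p * (1 - p) ^ (later (T m).S i).card)) :=
        mul_le_mul h1 (mul_le_mul_of_nonneg_right h2 (by positivity)) (by positivity)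
          (by positivity)
    _ = (p * (1 - p) ^ (later (T m).S i).card * (1 / 2) ^ ((T m).S.card - 1) * (1 / 2) ^ (Q m i \ (T m).S).card) *
        (1 / 2) ^ (Q m i \ (T m).S).card := by rw [h4]; ring
    _ ≤ (p * (1 - p) ^ (later (T m).S i).card * (1 / 2) ^ ((T m).S.card - 1) * (1 / 2) ^ (Q m i \ (T m).S).card) *
        (1 - p) ^ (Q m i \ (T m).S).card := mul_le_mul_of_nonneg_left h3 (by positivity)
    _ = _ := by rw [pow_add, pow_add]; ring

theorem aw_upper {m : ι} (hp : 0 ≤ p) (hp1 : p ≤ 1 / 2) :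
    aw p T Q m ≤ 2 * ((1 / 2) ^ (T m).S.card * (1 - (1 - p) ^ (T m).S.card)) := by
  rw [← xpr_geom, aw, mul_sum, mul_sum]
  refine sum_le_sum fun i hi => ?_
  have hq0 : (0 : ℝ) ≤ 1 - p := by linarith
  have hq1 : 1 - p ≤ 1 := by linarith
  have hm0 : 0 < (T m).S.card := card_pos.2 ⟨i, hi⟩
  have h1 : (1 - p) ^ (Q m i \ (T m).S).card ≤ 1 := pow_le_one₀ hq0 hq1
  have h2 : (1 / 2 : ℝ) ^ (Q m i \ (T m).S).card ≤ 1 := pow_le_one₀ (by norm_num) (by norm_num)
  have h3 : (1 / 2 : ℝ) ^ ((T m).S.card - 1) = 2 * (1 / 2) ^ (T m).S.card := by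
    obtain ⟨k, hk⟩ : ∃ k, (T m).S.card = k + 1 := ⟨(T m).S.card - 1, by omega⟩
    rw [hk, Nat.add_sub_cancel, pow_succ]
    ring
  have h0 : 0 ≤ p * (1 - p) ^ (later (T m).S i).card * (1 / 2) ^ ((T m).S.card - 1) := by positivity
  calc p * (1 - p) ^ ((later (T m).S i).card + (Q m i \ (T m).S).card) *
        (1 / 2) ^ ((T m).S.card - 1 + (Q m i \ (T m).S).card)
      = (p * (1 - p) ^ (later (T m).S i).card * (1 / 2) ^ ((T m).S.card - 1)) *
        ((1 - p) ^ (Q m i \ (T m).S).card * (1 / 2) ^ (Q m i \ (T m).S).card) := by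
        rw [pow_add, pow_add]; ring
    _ ≤ (p * (1 - p) ^ (later (T m).S i).card * (1 / 2) ^ ((T m).S.card - 1)) * 1 :=
        mul_le_mul_of_nonneg_left (mul_le_one₀ h1 (by positivity) h2) h0
    _ = _ := by rw [h3]; ring

end PR

end Pool.Agent.MP_ca1109_lc.Xt
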