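import Pool.Agent.MP_ca1109_lc.Xt.OS
import Pool.Agent.MP_ca1109_lc.Xt.PV
import Pool.Agent.MP_ca1109_lc.Xt.HT
import Pool.Agent.MP_ca1109_lc.Dnf.B2

/-!
# The uniform distribution: the averages of products of large weight are small
-/

namespace Pool.Agent.MP_ca1109_lc.Xt

open Finset Pool.Agent.H66 Pool.Agent.MP_ca1109_lc.Mpg Pool.Agent.MP_ca1109_lc.Agp
open Pool.Agent.MP_ca1109_lc.Dnf (Cube ch one E mix Term)
open Pool.Agent.MP_ca1109_lc.Xp (Sp Bias xo fl Miss Hs later mq uv gq)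
open Pool.Agent.MP_ca1109_lc.Xl (Tr pr Rd Fam)

variable {n : ℕ} {ι : Type} [DecidableEq ι]

theorem xsm_av (F : Cube n → ℂ) : av F = (∑ x, F x) / 2 ^ n := by
  unfold av
  have : (Fintype.card (Cube n) : ℂ) = 2 ^ n := by simp
  rw [this]

theorem xsm_E_comm (F : Cube n → Cube n → ℝ) :
    E (fun x => E fun y => F x y) = E fun y => E fun x => F x y := by
  unfold E
  rw [← Finset.sum_div, ← Finset.sum_div, Finset.sum_comm]

/-- A uniformly random set has density `1 / 2`. -/
theorem xsm_miss (n s : ℕ) : Miss s (1 / 2) 0 (fun η : Finset (Fin n) => η) := by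
  classical
  intro A _
  have h1 : (avg fun η : Finset (Fin n) => one (Disjoint η A)) = (1 - 1 / 2) ^ A.card := by
    unfold avg
    have e1 : ∑ η : Finset (Fin n), one (Disjoint η A) = (2 : ℝ) ^ (n - A.card) := by
      have e2 : ∑ η : Finset (Fin n), one (Disjoint η A) = ∑ η ∈ (Aᶜ).powerset, (1 : ℝ) := by
        rw [← Finset.sum_filter_add_sum_filter_not univ (fun η : Finset (Fin n) => Disjoint η A)]
        rw [Finset.sum_congr rfl fun η hη => Dnf.one_true (Finset.mem_filter.1 hη).2,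
          Finset.sum_congr rfl fun η hη => Dnf.one_false (Finset.mem_filter.1 hη).2,
          Finset.sum_const_zero, add_zero]
        refine Finset.sum_congr ?_ fun _ _ => rfl
        ext η
        rw [Finset.mem_filter, Finset.mem_powerset]
        constructor
        · rintro ⟨-, h⟩ i hi
          exact Finset.mem_compl.2 (Finset.disjoint_left.1 h hi)
        · intro h
          exact ⟨Finset.mem_univ _, Finset.disjoint_left.2 fun i hi => Finset.mem_compl.1 (h hi)⟩
      rw [e2, Finset.sum_const, Finset.card_powerset, Finset.card_compl, Fintype.card_fin, nsmul_eq_mul,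
        mul_one]
      push_cast
      rfl
    have hA : A.card ≤ n := by
      have := Finset.card_le_univ A
      rwa [Fintype.card_fin] at this
    rw [e1, Fintype.card_finset, Fintype.card_fin]
    push_cast
    have h2 : (2 : ℝ) ^ n = 2 ^ (n - A.card) * 2 ^ A.card := by
      rw [← pow_add, Nat.sub_add_cancel hA]
    rw [h2]
    have h3 : (0 : ℝ) < 2 ^ (n - A.card) := by positivity
    have h4 : (0 : ℝ) < 2 ^ A.card := by positivity
    have h5 : ((1 : ℝ) - 1 / 2) ^ A.card = 1 / 2 ^ A.card := by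
      rw [show ((1 : ℝ) - 1 / 2) = 1 / 2 by norm_num, one_div_pow]
    rw [h5]
    field_simp
  rw [h1, sub_self, abs_zero]

theorem xsm_av_le (F : Cube n → ℂ) (η : Finset (Fin n)) :
    ‖av F‖ ≤ E fun z => ‖av fun x : Cube n => F (mix η x z)‖ := by
  classical
  have h1 : ∀ f : Cube n → ℝ, E (fun z => E fun x => f (mix η x z)) = E f := fun f =>
    (xsm_E_comm fun z x => f (mix η x z)).trans (Dnf.E_mix η f)
  have e1 : av F = (∑ z, av fun x : Cube n => F (mix η x z)) / 2 ^ n := by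
    have hre : ∀ G : Cube n → ℂ, (av G).re = E fun x => (G x).re := by
      intro G
      rw [xsm_av]
      unfold E
      have : ((2 : ℂ) ^ n) = ((2 ^ n : ℝ) : ℂ) := by push_cast; rfl
      rw [this, Complex.div_ofReal_re, Complex.re_sum]
    have him : ∀ G : Cube n → ℂ, (av G).im = E fun x => (G x).im := by
      intro G
      rw [xsm_av]
      unfold E
      have : ((2 : ℂ) ^ n) = ((2 ^ n : ℝ) : ℂ) := by push_cast; rfl
      rw [this, Complex.div_ofReal_im, Complex.im_sum]
    rw [← xsm_av (fun z => av fun x : Cube n => F (mix η x z))]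
    apply Complex.ext
    · rw [hre, hre]
      simp only [hre]
      exact (h1 fun x => (F x).re).symm
    · rw [him, him]
      simp only [him]
      exact (h1 fun x => (F x).im).symm
  rw [e1, norm_div]
  unfold E
  have : ‖(2 : ℂ) ^ n‖ = 2 ^ n := by simp
  rw [this]
  exact div_le_div_of_nonneg_right (norm_sum_le _ _) (by positivity)

/-- The uniform average, for every set `η`. -/
theorem xsm_bound {r : ℕ} {T : ι → Term n} {ζ : ι → ℂ} {A M : Finset ι} {c : ι → ℝ}
    {Q : ι → Fin n → Finset (Fin n)} {a : ι → Fin n → Cube n} (hA : Rd r T A) (hMA : M ⊆ A)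
    (hζ : ∀ m ∈ A, ‖ζ m‖ = 1) (hp : Piv r T ζ A M c Q a) (hc : ∀ m ∈ M, 0 ≤ c m) :
    ‖av (pr T ζ A)‖ ≤
      avg fun η : Finset (Fin n) => E fun x => Real.exp (-(cw c T M Q a η x) / 2) := by
  classical
  have h1 : ∀ η : Finset (Fin n), ‖av (pr T ζ A)‖ ≤
      E fun x => Real.exp (-(cw c T M Q a η x) / 2) := by
    intro η
    refine (xsm_av_le (pr T ζ A) η).trans
      ((Dnf.E_mono fun z => oneshot hA hMA hζ hp hc η z).trans (le_of_eq ?_))
    exact (xsm_E_comm fun z x => Real.exp (-(cw c T M Q a η (mix η x z)) / 2)).trans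
      (Dnf.E_mix η fun x => Real.exp (-(cw c T M Q a η x) / 2))
  unfold avg
  rw [le_div_iff₀ (by exact_mod_cast Fintype.card_pos)]
  calc ‖av (pr T ζ A)‖ * (Fintype.card (Finset (Fin n)) : ℝ) =
        ∑ _η : Finset (Fin n), ‖av (pr T ζ A)‖ := by
        rw [Finset.sum_const, Finset.card_univ, nsmul_eq_mul, mul_comm]
    _ ≤ _ := Finset.sum_le_sum fun η _ => h1 η

/-- SM: the uniform distribution, large mass. -/
theorem small_av (r K : ℕ) (hrK : r ≤ K) {ε : ℝ} (hε : 0 < ε) : ∃ V₀ : ℝ, ∀ (n : ℕ) {ι : Type}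
    [DecidableEq ι] (T : ι → Term n) (ζ : ι → ℂ) (A M : Finset ι) (c : ι → ℝ)
      (Q : ι → Fin n → Finset (Fin n)) (D : ι → Finset (Fin n)) (a : ι → Fin n → Cube n),
      Rd r T A → M ⊆ A → (∀ m ∈ A, (T m).S ≠ ∅) → (∀ m ∈ A, ‖ζ m‖ = 1) → Pat K T M Q D →
      Piv r T ζ A M c Q a → (∀ m ∈ M, 0 ≤ c m) → (∀ m ∈ M, c m ≤ 1) →
      V₀ ≤ ∑ m ∈ M, c m * (1 / 2 : ℝ) ^ (T m).S.card → ‖av (pr T ζ A)‖ ≤ ε := by
  classical
  obtain ⟨t, ht, hpv⟩ := pv r K hrK hε
  refine ⟨2 * t, fun n ι _ T ζ A M c Q D a hA hMA h0 hζ hQ hp hc hc1 hV => ?_⟩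
  have h2 := sum_le_mw (T := T) (M := M) (c := c) (fun m hm => h0 m (hMA hm)) hc
  have h4 : t ≤ mw (1 / 2) c T M := by linarith
  have hFam : Fam r n T M := ⟨fun m hm => h0 m (hMA hm), fun i =>
    (Finset.card_le_card (Finset.filter_subset_filter _ hMA)).trans (hA i), fun m _ => by
    have := Finset.card_le_univ (T m).S
    rwa [Fintype.card_fin] at this⟩
  refine (xsm_bound hA hMA hζ hp hc).trans ?_
  exact hpv n n T M Q D a c hFam hQ hc hc1 (1 / 2) 0
    (by norm_num) le_rfl le_rfl h4 (by simp) (fun η : Finset (Fin n) => η) (xsm_miss n _)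

end Pool.Agent.MP_ca1109_lc.Xt
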