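import Pool.Agent.MP_ca1109_lc.Xt.KI
import Pool.Agent.MP_ca1109_lc.Xt.SM

/-!
# The characteristic function of a reduced integer statistic of terms with bounded read
-/

namespace Pool.Agent.MP_ca1109_lc.Xt

open Finset Pool.Agent.H66 Pool.Agent.MP_ca1109_lc.Mpg Pool.Agent.MP_ca1109_lc.Agp
open Pool.Agent.MP_ca1109_lc.Dnf (Cube ch one E mix Term)
open Pool.Agent.MP_ca1109_lc.Xp (Sp Bias xo fl Miss Hs later mq uv gq)
open Pool.Agent.MP_ca1109_lc.Xl (Tr pr Rd Fam)

/-- The character of the statistic is a product over the terms. -/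
theorem cf_pr {n : ℕ} {ι : Type} (T : ι → Term n) (w : ι → ℤ) (R : Finset ι) (t : ℝ) (x : Cube n) :
    pr T (fun m => Complex.exp (Complex.I * t * (w m : ℝ))) R x =
      Complex.exp (Complex.I * t * ((st T w R x : ℤ) : ℝ)) := by
  classical
  have h1 : (Complex.I * t * ((st T w R x : ℤ) : ℝ) : ℂ) =
      ∑ m ∈ R, if Tr (T m).S (T m).a x then Complex.I * t * (w m : ℝ) else 0 := by
    unfold st
    push_cast
    rw [Finset.mul_sum]
    refine Finset.sum_congr rfl fun m _ => ?_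
    split_ifs <;> simp
  rw [h1, Complex.exp_sum]
  unfold pr
  refine Finset.prod_congr rfl fun m _ => ?_
  split_ifs <;> simp

/-- The statistic changes by at most the sum of the weights. -/
theorem cf_diff {n : ℕ} {ι : Type} (T : ι → Term n) (w : ι → ℤ) (R : Finset ι) (B r : ℕ)
    (hw : ∀ m ∈ R, |w m| ≤ B) (hR : R.card ≤ r) (x y : Cube n) :
    |st T w R x - st T w R y| ≤ (r * B : ℕ) := by
  classical
  unfold st
  rw [← Finset.sum_sub_distrib]
  refine (Finset.abs_sum_le_sum_abs _ _).trans ?_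
  have h1 : ∀ m ∈ R, |(if Tr (T m).S (T m).a x then w m else 0) -
      (if Tr (T m).S (T m).a y then w m else 0)| ≤ (B : ℤ) := by
    intro m hm
    have h := hw m hm
    have h0 : (0 : ℤ) ≤ B := le_trans (abs_nonneg _) h
    split_ifs
    · simp
    · simpa using h
    · simpa using h
    · simp
  refine (Finset.sum_le_card_nsmul _ _ _ h1).trans ?_
  rw [nsmul_eq_mul]
  push_cast
  have : (R.card : ℤ) ≤ r := by exact_mod_cast hR
  exact mul_le_mul_of_nonneg_right this (Int.natCast_nonneg B)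

/-- The distance of two values of the character. -/
theorem cf_gap {t : ℝ} (ht : 0 ≤ t) {N : ℕ} (htN : t * N ≤ 1) {a b : ℤ} (hab : a ≠ b)
    (hN : |a - b| ≤ N) :
    t / 2 ≤ ‖Complex.exp (Complex.I * t * ((a : ℤ) : ℝ)) -
      Complex.exp (Complex.I * t * ((b : ℤ) : ℝ))‖ := by
  have h1 : Complex.exp (Complex.I * t * ((a : ℤ) : ℝ)) -
      Complex.exp (Complex.I * t * ((b : ℤ) : ℝ)) =
      Complex.exp (Complex.I * ((t * b : ℝ) : ℂ)) *
        (Complex.exp (Complex.I * ((t * (a - b) : ℝ) : ℂ)) - 1) := by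
    rw [mul_sub, mul_one, ← Complex.exp_add]
    congr 2
    · push_cast
      ring
    · push_cast
      ring
  have h2 : ‖Complex.exp (Complex.I * ((t * b : ℝ) : ℂ))‖ = 1 :=
    Complex.norm_exp_I_mul_ofReal _
  rw [h1, norm_mul, h2, one_mul, Complex.norm_exp_I_mul_ofReal_sub_one, Real.norm_eq_abs, abs_mul]
  have hd1 : (1 : ℝ) ≤ |(a : ℝ) - b| := by
    have : (1 : ℤ) ≤ |a - b| := Int.one_le_abs (sub_ne_zero.mpr hab)
    have h3 : ((1 : ℤ) : ℝ) ≤ ((|a - b| : ℤ) : ℝ) := by exact_mod_cast this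
    simpa using h3
  have hd2 : |(a : ℝ) - b| ≤ N := by
    have h3 : ((|a - b| : ℤ) : ℝ) ≤ ((N : ℤ) : ℝ) := by exact_mod_cast hN
    simpa using h3
  have hy : |t * ((a : ℝ) - b) / 2| ≤ 1 / 2 := by
    rw [abs_div, abs_mul, abs_of_nonneg ht, abs_two]
    have : t * |(a : ℝ) - b| ≤ t * N := mul_le_mul_of_nonneg_left hd2 ht
    linarith
  have hpi := Real.pi_gt_three
  have hpi4 := Real.pi_le_four
  have hs := Real.mul_abs_le_abs_sin (x := t * ((a : ℝ) - b) / 2) (by linarith)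
  have hc : (1 : ℝ) / 2 ≤ 2 / Real.pi := by
    rw [div_le_div_iff₀ (by norm_num) (by linarith)]
    linarith
  have hx : t / 2 ≤ |t * ((a : ℝ) - b) / 2| := by
    rw [abs_div, abs_mul, abs_of_nonneg ht, abs_two]
    have : t * 1 ≤ t * |(a : ℝ) - b| := mul_le_mul_of_nonneg_left hd1 ht
    linarith
  have h4 : (1 / 2 : ℝ) * (t / 2) ≤ 2 / Real.pi * |t * ((a : ℝ) - b) / 2| :=
    mul_le_mul hc hx (by linarith) (by positivity)
  rw [abs_two]
  linarith

/-- The products have gap `t / 2`. -/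
theorem cf_Gap {n : ℕ} {ι : Type} [DecidableEq ι] {r B : ℕ} {T : ι → Term n} {w : ι → ℤ}
    {M : Finset ι} {t : ℝ} (hM : Rd r T M) (hw : ∀ m ∈ M, |w m| ≤ B) (hred : RedZ T w M)
    (ht : 0 ≤ t) (htB : t * (r * B) ≤ 1) :
    Gap (t / 2) T (fun m => Complex.exp (Complex.I * t * (w m : ℝ))) M := by
  intro i R hR hne hi
  obtain ⟨x, hx⟩ := hred i R hR hne hi
  refine ⟨x, ?_⟩
  rw [cf_pr, cf_pr]
  have hcard : R.card ≤ r := by
    refine le_trans (Finset.card_le_card ?_) (hM i)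
    intro m hm
    exact Finset.mem_filter.mpr ⟨hR hm, hi m hm⟩
  refine cf_gap ht (N := r * B) (by push_cast; exact htB) hx ?_
  exact cf_diff T w R B r (fun m hm => hw m (hR hm)) hcard _ _

/-- SMT: the characteristic function of a reduced integer statistic with large variance. -/
theorem small_cf (r B : ℕ) {ε : ℝ} (hε : 0 < ε) : ∃ V₀ : ℝ, ∀ (n : ℕ) {ι : Type}
    [DecidableEq ι] (T : ι → Term n) (w : ι → ℤ) (M : Finset ι) (t : ℝ), Rd r T M →
      (∀ m ∈ M, (T m).S ≠ ∅) → (∀ m ∈ M, |w m| ≤ B) → RedZ T w M → 0 ≤ t → t * (r * B) ≤ 1 →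
      V₀ ≤ t ^ 2 * ∑ m ∈ M, (1 / 2 : ℝ) ^ (T m).S.card →
      ‖av fun x : Cube n => Complex.exp (Complex.I * t * (st T w M x : ℝ))‖ ≤ ε := by
  obtain ⟨K, hrK, hpat⟩ := patterns r
  obtain ⟨V₁, hV₁⟩ := small_av r K hrK hε
  refine ⟨max 1 (64 * r * V₁), ?_⟩
  intro n ι _ T w M t hM hne hw hred ht htB hV
  have hζ : ∀ m ∈ M, ‖(fun m => Complex.exp (Complex.I * t * (w m : ℝ))) m‖ = 1 := by
    intro m _
    have h := Complex.norm_exp_I_mul_ofReal (t * (w m : ℝ))
    push_cast at h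
    simpa [mul_assoc] using h
  -- the family is not empty
  have hV1 : 1 ≤ t ^ 2 * ∑ m ∈ M, (1 / 2 : ℝ) ^ (T m).S.card := le_trans (le_max_left _ _) hV
  have hV2 : 64 * r * V₁ ≤ t ^ 2 * ∑ m ∈ M, (1 / 2 : ℝ) ^ (T m).S.card :=
    le_trans (le_max_right _ _) hV
  have hMne : M.Nonempty := by
    rw [Finset.nonempty_iff_ne_empty]
    intro h
    rw [h] at hV1
    simp at hV1
    linarith
  obtain ⟨m₀, hm₀⟩ := hMne
  obtain ⟨i₀, hi₀⟩ := Finset.nonempty_iff_ne_empty.mpr (hne m₀ hm₀)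
  have hr1 : 1 ≤ r := by
    refine le_trans (Finset.card_pos.mpr ?_) (hM i₀)
    exact ⟨m₀, Finset.mem_filter.mpr ⟨hm₀, hi₀⟩⟩
  have hB1 : 1 ≤ B := by
    by_contra hB
    have hB0 : B = 0 := by omega
    obtain ⟨x, hx⟩ := hred i₀ {m₀} (by simpa using hm₀) (by simp)
      (by intro m hm; rw [Finset.mem_singleton.mp hm]; exact hi₀)
    have h := cf_diff T w {m₀} B 1 (by intro m hm; rw [Finset.mem_singleton.mp hm]; exact hw m₀ hm₀)
      (by simp) (fl i₀ x) x
    rw [hB0] at h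
    simp only [mul_zero, Nat.cast_zero] at h
    have h2 := abs_nonpos_iff.mp h
    exact hx (sub_eq_zero.mp h2)
  have hrR : (1 : ℝ) ≤ r := by exact_mod_cast hr1
  have hBR : (1 : ℝ) ≤ B := by exact_mod_cast hB1
  have ht1 : t ≤ 1 := by
    have h1 : (1 : ℝ) ≤ r * B := by nlinarith
    have h2 : t * 1 ≤ t * (r * B) := mul_le_mul_of_nonneg_left h1 ht
    linarith
  obtain ⟨Q, D, a, hP, hPiv⟩ := hpat T (fun m => Complex.exp (Complex.I * t * (w m : ℝ))) M M
    (t / 2) hM (Finset.Subset.refl _) hζ (by linarith) (cf_Gap hM hw hred ht htB) (by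
      intro i
      simp only [Finset.sdiff_self, Finset.filter_empty, Finset.sum_empty]
      linarith)
  have hc : ((t / 2) ^ 2 / (16 * r) : ℝ) = t ^ 2 / (64 * r) := by
    field_simp
    ring
  have hres := hV₁ n T (fun m => Complex.exp (Complex.I * t * (w m : ℝ))) M M
    (fun _ => (t / 2) ^ 2 / (16 * r)) Q D a hM (Finset.Subset.refl _) hne hζ hP hPiv
    (fun m _ => by positivity)
    (fun m _ => by
      simp only [hc]
      rw [div_le_one (by positivity)]
      nlinarith)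
    (by
      rw [← Finset.mul_sum, hc]
      rw [div_mul_eq_mul_div, le_div_iff₀ (by positivity)]
      linarith)
  have hfun : (fun x : Cube n => Complex.exp (Complex.I * t * (st T w M x : ℝ))) =
      pr T (fun m => Complex.exp (Complex.I * t * (w m : ℝ))) M := by
    funext x
    rw [cf_pr]
  rw [hfun]
  exact hres

end Pool.Agent.MP_ca1109_lc.Xt
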