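import Pool.Agent.MP_ca1109_lc.Xt.Defs
import Pool.Agent.MP_ca1109_lc.Xl.NF

/-! ## NZ: the reduced form of an integer statistic -/

namespace Pool.Agent.MP_ca1109_lc.Xt

open Finset Pool.Agent.H66 Pool.Agent.MP_ca1109_lc.Mpg Pool.Agent.MP_ca1109_lc.Agp
open Pool.Agent.MP_ca1109_lc.Dnf (Cube ch one E mix Term)
open Pool.Agent.MP_ca1109_lc.Xp (Sp Bias xo fl Miss Hs later mq uv gq)
open Pool.Agent.MP_ca1109_lc.Xl (Tr pr Rd Fam)

variable {n : ℕ} {ι : Type} [DecidableEq ι]

open Classical in
/-- The new weight. -/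
noncomputable def nzw (T : ι → Term n) (w : ι → ℤ) (R : Finset ι) (i : Fin n) (m : ι) : ℤ :=
  if m ∈ R ∧ (T m).a i = true then 0 else w m

/-- One step of the reduction. -/
theorem nz_step {T : ι → Term n} {w : ι → ℤ} {M R : Finset ι} {i : Fin n} (hR : R ⊆ M)
    (hRi : ∀ m ∈ R, i ∈ (T m).S) (h : ∀ x, st T w R (fl i x) = st T w R x) (x : Cube n) :
    st (Xl.nfT T R i) (nzw T w R i) M x = st T w M x := by
  have h0 : st T w R (Function.update x i false) = st T w R x := by
    rcases hx : x i with _ | _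
    · rw [show Function.update x i false = x by rw [← hx]; exact Function.update_eq_self i x]
    · have h1 := h x
      unfold fl at h1
      rwa [hx] at h1
  have h2 : st (Xl.nfT T R i) (nzw T w R i) R x = st T w R (Function.update x i false) := by
    unfold st
    refine sum_congr rfl fun m hm => ?_
    have h3 := Xl.nf_update (a := (T m).a) (hRi m hm) x
    rcases ha : (T m).a i with _ | _
    · have h4 : (Xl.nfT T R i m).S = (T m).S.erase i := by
        unfold Xl.nfT
        simp [hm, ha]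
      have h5 : (Xl.nfT T R i m).a = (T m).a := rfl
      have h6 : nzw T w R i m = w m := by
        unfold nzw
        simp [ha]
      rw [h4, h5, h6]
      have h7 : Tr (T m).S (T m).a (Function.update x i false) ↔ Tr ((T m).S.erase i) (T m).a x := by
        rw [h3, ha]
        exact ⟨fun h => h.2, fun h => ⟨rfl, h⟩⟩
      rcases Classical.em (Tr ((T m).S.erase i) (T m).a x) with hT | hT
      · rw [if_pos hT, if_pos (h7.2 hT)]
      · rw [if_neg hT, if_neg fun h => hT (h7.1 h)]
    · have h6 : nzw T w R i m = 0 := by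
        unfold nzw
        simp [hm, ha]
      have h7 : ¬ Tr (T m).S (T m).a (Function.update x i false) := by
        rw [h3, ha]
        exact fun h => absurd h.1 (by simp)
      rw [h6, if_neg h7, ite_self]
  have h8 : st (Xl.nfT T R i) (nzw T w R i) (M \ R) x = st T w (M \ R) x := by
    unfold st
    refine sum_congr rfl fun m hm => ?_
    have hm' : m ∉ R := (mem_sdiff.1 hm).2
    have h4 : Xl.nfT T R i m = T m := by
      unfold Xl.nfT
      simp [hm']
    have h6 : nzw T w R i m = w m := by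
      unfold nzw
      simp [hm']
    rw [h4, h6]
  have h9 : ∀ (T' : ι → Term n) (w' : ι → ℤ), st T' w' M x =
      st T' w' (M \ R) x + st T' w' R x := by
    intro T' w'
    unfold st
    rw [sum_sdiff hR]
  rw [h9, h9 T w, h8, h2, h0]

/-- The reduced form, empty terms allowed. -/
theorem nz_red {B : ℤ} (M : Finset ι) : ∀ (N : ℕ) (T : ι → Term n) (w : ι → ℤ),
    ∑ m ∈ M, (T m).S.card ≤ N → (∀ m ∈ M, |w m| ≤ B) →
      ∃ (T' : ι → Term n) (w' : ι → ℤ), (∀ m, (T' m).S ⊆ (T m).S) ∧ (∀ m ∈ M, |w' m| ≤ B) ∧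
        (∀ x, st T' w' M x = st T w M x) ∧ RedZ T' w' M := by
  intro N
  induction N with
  | zero =>
    intro T w hT hw
    refine ⟨T, w, fun m => Subset.rfl, hw, fun x => rfl, fun i R hR hne hRi => ?_⟩
    exfalso
    obtain ⟨m, hm⟩ := hne
    have h1 : (T m).S.card ≤ ∑ m ∈ M, (T m).S.card :=
      single_le_sum (f := fun m => (T m).S.card) (fun _ _ => Nat.zero_le _) (hR hm)
    have h2 : 0 < (T m).S.card := card_pos.2 ⟨i, hRi m hm⟩
    omega
  | succ N ih =>
    intro T w hT hw
    by_cases hred : RedZ T w M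
    · exact ⟨T, w, fun m => Subset.rfl, hw, fun x => rfl, hred⟩
    · unfold RedZ at hred
      push Not at hred
      obtain ⟨i, R, hR, hne, hRi, h⟩ := hred
      have hlt : ∑ m ∈ M, (Xl.nfT T R i m).S.card < ∑ m ∈ M, (T m).S.card := by
        obtain ⟨m, hm⟩ := hne
        refine sum_lt_sum (fun m _ => card_le_card (Xl.nfT_sub T R i m)) ⟨m, hR hm, ?_⟩
        refine card_lt_card ((ssubset_iff_of_subset (Xl.nfT_sub T R i m)).2 ⟨i, hRi m hm, ?_⟩)
        unfold Xl.nfT
        dsimp only
        rw [if_pos hm]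
        split_ifs
        · exact notMem_empty _
        · exact notMem_erase _ _
      obtain ⟨T', w', h1, h2, h3, h4⟩ := ih (Xl.nfT T R i) (nzw T w R i) (by omega)
        (fun m hm => by
          unfold nzw
          split_ifs
          · rw [abs_zero]
            exact (abs_nonneg _).trans (hw m hm)
          · exact hw m hm)
      exact ⟨T', w', fun m => (h1 m).trans (Xl.nfT_sub T R i m), h2,
        fun x => (h3 x).trans (nz_step hR hRi h x), h4⟩

theorem reduceZ {r : ℕ} {B : ℤ} (T : ι → Term n) (w : ι → ℤ) (M : Finset ι) (hM : Rd r T M)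
    (hw : ∀ m ∈ M, |w m| ≤ B) :
    ∃ (T' : ι → Term n) (w' : ι → ℤ) (M' : Finset ι) (κ : ℤ), M' ⊆ M ∧
      (∀ m ∈ M', (T' m).S ≠ ∅) ∧ Rd r T' M' ∧ (∀ m ∈ M', |w' m| ≤ B) ∧ (∀ m ∈ M', w' m ≠ 0) ∧
      RedZ T' w' M' ∧ ∀ x, st T w M x = κ + st T' w' M' x := by
  obtain ⟨T', w', h1, h2, h3, h4⟩ := nz_red M _ T w le_rfl hw
  have hsub : M.filter (fun m => (T' m).S ≠ ∅) ⊆ M := filter_subset _ _
  refine ⟨T', w', M.filter fun m => (T' m).S ≠ ∅, ∑ m ∈ M \ M.filter fun m => (T' m).S ≠ ∅, w' m,
    hsub, fun m hm => (mem_filter.1 hm).2, fun i => ?_, fun m hm => h2 m (hsub hm),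
    fun m hm h0 => ?_, fun i R hR hne hRi => h4 i R (hR.trans hsub) hne hRi, fun x => ?_⟩
  · refine (card_le_card ?_).trans (hM i)
    intro m hm
    rw [mem_filter] at hm
    exact mem_filter.2 ⟨hsub hm.1, h1 m hm.2⟩
  · obtain ⟨i, hi⟩ := nonempty_iff_ne_empty.2 (mem_filter.1 hm).2
    obtain ⟨x, hx⟩ := h4 i {m} (singleton_subset_iff.2 (hsub hm)) (singleton_nonempty m)
      (fun m' hm' => by rwa [mem_singleton.1 hm'])
    apply hx
    unfold st
    rw [sum_singleton, sum_singleton, h0, ite_self, ite_self]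
  · rw [← h3 x]
    unfold st
    rw [← sum_sdiff hsub]
    congr 1
    refine sum_congr rfl fun m hm => ?_
    rw [mem_sdiff, mem_filter, not_and, not_not] at hm
    have h5 : (T' m).S = ∅ := hm.2 hm.1
    refine if_pos fun j hj => ?_
    rw [h5] at hj
    exact absurd hj (notMem_empty _)

end Pool.Agent.MP_ca1109_lc.Xt
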