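import Pool.Agent.MP_ca1109_lc.Xl.ST
import Pool.Agent.MP_ca1109_lc.Xh.CN

/-!
# Variance and tails of a statistic of terms with real weights

`rs T u M x = ∑ m ∈ M, u m * [T m is true at x]`, `rv T u M = ∑ m ∈ M, u m ^ 2 * 2^-|m|`.
-/

namespace Pool.Agent.MP_ca1109_lc.Xt

open Finset Pool.Agent.MP_ca1109_lc.Mpg Pool.Agent.MP_ca1109_lc.Agp
open Pool.Agent.MP_ca1109_lc.Dnf (Cube ch one Term)
open Pool.Agent.MP_ca1109_lc.Xp (Sp Bias)
open Pool.Agent.MP_ca1109_lc.Xl (Tr tm pr Rd)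

variable {n : ℕ} {ι : Type}

/-- The statistic. -/
noncomputable def rs (T : ι → Term n) (u : ι → ℝ) (M : Finset ι) (x : Cube n) : ℝ :=
  ∑ m ∈ M, u m * tm (T m).S (T m).a x

/-- The variance proxy. -/
noncomputable def rv (T : ι → Term n) (u : ι → ℝ) (M : Finset ι) : ℝ :=
  ∑ m ∈ M, u m ^ 2 * (1 / 2) ^ (T m).S.card

/-- The phases. -/
noncomputable def ph (t : ℝ) (u : ι → ℝ) (m : ι) : ℂ := Complex.exp (Complex.I * (t * u m))

theorem norm_ph (t : ℝ) (u : ι → ℝ) (m : ι) : ‖ph t u m‖ = 1 := by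
  unfold ph
  rw [show Complex.I * ((t : ℂ) * (u m : ℂ)) = ((t * u m : ℝ) : ℂ) * Complex.I by push_cast; ring]
  exact Complex.norm_exp_ofReal_mul_I _

/-- The product of the phases. -/
theorem pr_ph (T : ι → Term n) (u : ι → ℝ) (M : Finset ι) (t : ℝ) (x : Cube n) :
    pr T (ph t u) M x = Complex.exp (Complex.I * ((t * rs T u M x : ℝ) : ℂ)) := by
  classical
  unfold pr ph rs
  rw [Finset.mul_sum, Complex.ofReal_sum, Finset.mul_sum, Complex.exp_sum]
  refine Finset.prod_congr rfl fun m _ => ?_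
  by_cases h : Tr (T m).S (T m).a x
  · rw [if_pos h, show tm (T m).S (T m).a x = 1 from Dnf.one_true h]
    push_cast
    ring_nf
  · rw [if_neg h, show tm (T m).S (T m).a x = 0 from Dnf.one_false h]
    simp

/-- The coefficients at the sets through a variable on which the function does not depend. -/
theorem fc_zero {f : Cube n → ℝ} {l : Fin n} {S : Finset (Fin n)} (hl : l ∈ S)
    (hf : ∀ x y : Cube n, (∀ j, j ≠ l → x j = y j) → f x = f y) : Dnf.fc f S = 0 := by
  classical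
  have hi : Function.Involutive fun x : Cube n => Function.update x l (!x l) := by
    intro x
    dsimp only
    rw [Function.update_idem, Function.update_self, Bool.not_not, Function.update_eq_self]
  have hch : ∀ x : Cube n, ch S (Function.update x l (!x l)) = -ch S x := by
    intro x
    unfold ch
    rw [← Finset.mul_prod_erase S _ hl, ← Finset.mul_prod_erase S (fun i => Dnf.sg (x i)) hl]
    have h1 : ∏ i ∈ S.erase l, Dnf.sg (Function.update x l (!x l) i) =
        ∏ i ∈ S.erase l, Dnf.sg (x i) := by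
      refine Finset.prod_congr rfl fun i hi => ?_
      rw [Function.update_of_ne (Finset.ne_of_mem_erase hi)]
    rw [h1, Function.update_self]
    cases x l <;> simp [Dnf.sg]
  have h1 : ∑ x : Cube n, f (Function.update x l (!x l)) * ch S (Function.update x l (!x l)) =
      ∑ x : Cube n, f x * ch S x := Equiv.sum_comp (hi.toPerm _) fun x => f x * ch S x
  have h2 : ∀ x : Cube n, f (Function.update x l (!x l)) * ch S (Function.update x l (!x l)) =
      -(f x * ch S x) := by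
    intro x
    rw [hch, hf (Function.update x l (!x l)) x fun j hj => Function.update_of_ne hj _ _]
    ring
  rw [Finset.sum_congr rfl fun x _ => h2 x, Finset.sum_neg_distrib] at h1
  have h3 : ∑ x : Cube n, f x * ch S x = 0 := by linarith
  unfold Dnf.fc Dnf.E
  rw [h3, zero_div]

/-- The variance of a sum of functions `f m` which depend only on `A m`, if every variable is in at
most `r` of the sets `A m`. -/
theorem var_le {r : ℕ} (M : Finset ι) (A : ι → Finset (Fin n)) (f : ι → Cube n → ℝ)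
    (hA : ∀ i, (M.filter fun m => i ∈ A m).card ≤ r)
    (hf : ∀ m ∈ M, Dnf.On (A m) (f m)) :
    (avg fun x => ((∑ m ∈ M, f m x) - avg fun y => ∑ m ∈ M, f m y) ^ 2) ≤
      r * ∑ m ∈ M, avg fun x => f m x ^ 2 := by
  classical
  rw [Xp.spb_avg_E, Xp.spb_avg_E]
  set μ := Dnf.E (fun y : Cube n => ∑ m ∈ M, f m y) with hμ
  have hconst : ∀ S : Finset (Fin n), S ≠ ∅ → Dnf.fc (fun _ : Cube n => μ) S = 0 := by
    intro S hS
    have h1 := Dnf.fc_smul μ (fun x : Cube n => ch (∅ : Finset (Fin n)) x) S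
    rw [Dnf.fc_ch, if_neg (Ne.symm hS), mul_zero] at h1
    simpa [Dnf.ch_empty] using h1
  have h0 : Dnf.fc (fun x => (∑ m ∈ M, f m x) - μ) ∅ = 0 := by
    rw [Dnf.fc_empty, Dnf.E_sub, Dnf.E_const, hμ, sub_self]
  have hS : ∀ S : Finset (Fin n), S ≠ ∅ →
      Dnf.fc (fun x => (∑ m ∈ M, f m x) - μ) S ^ 2 ≤ r * ∑ m ∈ M, Dnf.fc (f m) S ^ 2 := by
    intro S hS
    rw [Dnf.fc_sub, hconst S hS, sub_zero, Dnf.fc_sum]
    obtain ⟨l, hl⟩ := Finset.nonempty_iff_ne_empty.2 hS
    have h1 : ∑ m ∈ M, Dnf.fc (f m) S = ∑ m ∈ M.filter (fun m => l ∈ A m), Dnf.fc (f m) S := by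
      refine (Finset.sum_subset (Finset.filter_subset _ _) fun m hm hm' => ?_).symm
      have hlm : l ∉ A m := fun h => hm' (Finset.mem_filter.2 ⟨hm, h⟩)
      refine fc_zero hl fun x y hxy => hf m hm x y fun i hi => hxy i ?_
      rintro rfl
      exact hlm hi
    rw [h1]
    refine (sq_sum_le_card_mul_sum_sq).trans ?_
    refine mul_le_mul (by exact_mod_cast hA l) ?_ (Finset.sum_nonneg fun i _ => sq_nonneg _)
      (Nat.cast_nonneg _)
    exact Finset.sum_le_sum_of_subset_of_nonneg (Finset.filter_subset _ _) fun i _ _ => sq_nonneg _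
  rw [Dnf.parseval, ← Finset.add_sum_erase univ _ (Finset.mem_univ ∅), h0]
  calc (0 : ℝ) ^ 2 + ∑ S ∈ univ.erase (∅ : Finset (Fin n)),
        Dnf.fc (fun x => (∑ m ∈ M, f m x) - μ) S ^ 2
      ≤ ∑ S ∈ univ.erase (∅ : Finset (Fin n)), r * ∑ m ∈ M, Dnf.fc (f m) S ^ 2 := by
        rw [zero_pow two_ne_zero, zero_add]
        exact Finset.sum_le_sum fun S hS' => hS S (Finset.ne_of_mem_erase hS')
    _ ≤ ∑ S : Finset (Fin n), r * ∑ m ∈ M, Dnf.fc (f m) S ^ 2 :=
        Finset.sum_le_sum_of_subset_of_nonneg (Finset.erase_subset _ _) fun S _ _ =>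
          mul_nonneg (Nat.cast_nonneg _) (Finset.sum_nonneg fun i _ => sq_nonneg _)
    _ = r * ∑ m ∈ M, ∑ S : Finset (Fin n), Dnf.fc (f m) S ^ 2 := by
        rw [← Finset.mul_sum, Finset.sum_comm]
    _ = r * ∑ m ∈ M, avg fun x => f m x ^ 2 := by
        congr 1
        refine Finset.sum_congr rfl fun m _ => ?_
        rw [← Dnf.parseval, Xp.spb_avg_E]

theorem on_tm (t : Term n) : Dnf.On t.S (tm t.S t.a) := by
  intro x y h
  have : Tr t.S t.a x ↔ Tr t.S t.a y := forall₂_congr fun i hi => by rw [h i hi]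
  unfold tm
  by_cases hx : Tr t.S t.a x
  · rw [Dnf.one_true hx, Dnf.one_true (this.1 hx)]
  · rw [Dnf.one_false hx, Dnf.one_false fun hy => hx (this.2 hy)]

/-- The variance of the statistic. -/
theorem rs_var {r : ℕ} {T : ι → Term n} {M : Finset ι} (hM : Rd r T M) (u : ι → ℝ) :
    (avg fun x => (rs T u M x - avg (rs T u M)) ^ 2) ≤ r * rv T u M := by
  have h := var_le (r := r) M (fun m => (T m).S) (fun m x => u m * tm (T m).S (T m).a x) hM
    (fun m _ x y hxy => by simp only [on_tm (T m) x y hxy])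
  refine h.trans (le_of_eq ?_)
  congr 1
  unfold rv
  refine Finset.sum_congr rfl fun m _ => ?_
  have h1 : (fun x : Cube n => (u m * tm (T m).S (T m).a x) ^ 2) =
      fun x => u m ^ 2 * tm (T m).S (T m).a x := by
    funext x
    rw [mul_pow]
    congr 1
    unfold tm
    by_cases hx : Tr (T m).S (T m).a x
    · rw [Dnf.one_true hx, one_pow]
    · rw [Dnf.one_false hx]
      norm_num
  rw [h1, Xp.spb_avg_E, Dnf.E_smul]
  congr 1
  exact Dnf.E_term (T m)

/-- Tails from the characteristic functions. -/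
theorem tail_abs {A B : Type} [Fintype A] [Nonempty A] [Fintype B] [Nonempty B] (X : A → ℝ)
    (X' : B → ℝ) {s C ε₀ R : ℝ} (hs : 0 < s) (hR : 7 ≤ R)
    (hC : (avg fun b => X' b ^ 2) ≤ C)
    (h : ∀ t : ℝ, |t| * s ≤ 1 → ‖(av fun a => Complex.exp (Complex.I * ((t * X a : ℝ) : ℂ))) -
      av fun b => Complex.exp (Complex.I * ((t * X' b : ℝ) : ℂ))‖ ≤ ε₀) :
    (avg fun a => one (R * s ≤ |X a|)) ≤ 49 * C / (R * s) ^ 2 + 2 * ε₀ := by
  have hR0 : 0 < R := by linarith
  set bd : ℝ := ∑ a, |X a| with hbd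
  have hbd0 : 0 ≤ bd := Finset.sum_nonneg fun a _ => abs_nonneg _
  have hX : ∀ a, |X a| ≤ bd := fun a =>
    Finset.single_le_sum (f := fun a => |X a|) (fun a _ => abs_nonneg _) (Finset.mem_univ a)
  set τ : ℝ := 1 / (bd + R * s) with hτ
  have hRs : 0 < R * s := by positivity
  have hτ0 : 0 < τ := by positivity
  have hτx : ∀ a, |τ * X a| ≤ 1 := by
    intro a
    rw [abs_mul, abs_of_pos hτ0, hτ, div_mul_eq_mul_div, one_mul, div_le_one (by positivity)]
    linarith [hX a]
  have hτR : τ * (R * s) ≤ 1 := by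
    rw [hτ, div_mul_eq_mul_div, one_mul, div_le_one (by positivity)]
    linarith
  have hτR0 : 0 < τ * (R * s) := by positivity
  set L : ℕ := ⌈6 / (τ * (R * s))⌉₊ with hL
  have hL1 : 6 ≤ L * (τ * (R * s)) := by
    have := Nat.le_ceil (6 / (τ * (R * s)))
    rwa [div_le_iff₀ hτR0] at this
  have hL2 : L * (τ * (R * s)) ≤ 7 := by
    have h1 := Nat.ceil_lt_add_one (a := 6 / (τ * (R * s))) (by positivity)
    have h2 : (L : ℝ) * (τ * (R * s)) ≤ (6 / (τ * (R * s)) + 1) * (τ * (R * s)) :=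
      mul_le_mul_of_nonneg_right h1.le hτR0.le
    have h3 : (6 / (τ * (R * s)) + 1) * (τ * (R * s)) = 6 + τ * (R * s) := by
      field_simp
    linarith
  have hLpos : 0 < L := by
    rw [hL]
    exact Nat.ceil_pos.2 (by positivity)
  have hLp : (0 : ℝ) < L := by exact_mod_cast hLpos
  have hLτ : (L : ℝ) * τ * s ≤ 1 := by
    have h3 : (L : ℝ) * τ * s * R ≤ 7 := by
      calc (L : ℝ) * τ * s * R = L * (τ * (R * s)) := by ring
        _ ≤ 7 := hL2
    by_contra hc
    have h4 := not_le.1 hc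
    have h5 : 1 * R < (L : ℝ) * τ * s * R := mul_lt_mul_of_pos_right h4 hR0
    linarith
  -- the kernel
  have key : ∀ {D : Type} [Fintype D] (Z : D → ℝ),
      (((avg fun d => Xh.cnK L (τ * Z d)) : ℝ) : ℂ) =
        (∑ l ∈ range L, ∑ l' ∈ range L,
          av fun d => Complex.exp (Complex.I * ((((l : ℝ) - l') * τ * Z d : ℝ) : ℂ))) /
            (L : ℂ) ^ 2 := by
    intro D _ Z
    rw [← Xp.spb_avg_ofReal]
    have h1 : (fun d => ((Xh.cnK L (τ * Z d) : ℝ) : ℂ)) = fun d =>
        (1 / (L : ℂ) ^ 2) * ∑ l ∈ range L, ∑ l' ∈ range L,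
          Complex.exp (Complex.I * ((((l : ℝ) - l') * τ * Z d : ℝ) : ℂ)) := by
      funext d
      rw [Xh.cn_sq, one_div, div_eq_inv_mul]
      congr 1
      refine Finset.sum_congr rfl fun l _ => Finset.sum_congr rfl fun l' _ => ?_
      rw [mul_assoc ((l : ℝ) - l') τ (Z d)]
    rw [h1, Xp.spb_av_mul, Xp.spb_av_sum, one_div, div_eq_inv_mul]
    congr 1
    refine Finset.sum_congr rfl fun l _ => ?_
    rw [Xp.spb_av_sum]
  have hclose : (avg fun b => Xh.cnK L (τ * X' b)) - ε₀ ≤ avg fun a => Xh.cnK L (τ * X a) := by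
    have h3 : ‖((((avg fun a => Xh.cnK L (τ * X a)) : ℝ) : ℂ) -
        (((avg fun b => Xh.cnK L (τ * X' b)) : ℝ) : ℂ))‖ ≤ ε₀ := by
      rw [key X, key X', ← sub_div, norm_div, norm_pow, Complex.norm_natCast,
        div_le_iff₀ (by positivity), ← Finset.sum_sub_distrib]
      refine (norm_sum_le _ _).trans ?_
      have h4 : ∀ l ∈ range L, ‖(∑ l' ∈ range L,
            av fun a => Complex.exp (Complex.I * ((((l : ℝ) - l') * τ * X a : ℝ) : ℂ))) -
          ∑ l' ∈ range L,
            av fun b => Complex.exp (Complex.I * ((((l : ℝ) - l') * τ * X' b : ℝ) : ℂ))‖ ≤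
          L * ε₀ := by
        intro l hl
        rw [← Finset.sum_sub_distrib]
        refine (norm_sum_le _ _).trans ?_
        calc ∑ l' ∈ range L,
              ‖(av fun a => Complex.exp (Complex.I * ((((l : ℝ) - l') * τ * X a : ℝ) : ℂ))) -
                av fun b => Complex.exp (Complex.I * ((((l : ℝ) - l') * τ * X' b : ℝ) : ℂ))‖
            ≤ ∑ _l' ∈ range L, ε₀ := by
              refine Finset.sum_le_sum fun l' hl' => ?_
              refine h _ ?_
              have hl1 : (l : ℝ) ≤ L := by exact_mod_cast (Finset.mem_range.1 hl).le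
              have hl2 : (l' : ℝ) ≤ L := by exact_mod_cast (Finset.mem_range.1 hl').le
              have hl3 : (0 : ℝ) ≤ l := Nat.cast_nonneg _
              have hl4 : (0 : ℝ) ≤ l' := Nat.cast_nonneg _
              rw [abs_mul, abs_of_pos hτ0]
              have h5 : |(l : ℝ) - l'| ≤ L := by
                rw [abs_le]
                constructor <;> linarith
              calc |(l : ℝ) - l'| * τ * s ≤ L * τ * s :=
                    mul_le_mul_of_nonneg_right (mul_le_mul_of_nonneg_right h5 hτ0.le) hs.le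
                _ ≤ 1 := hLτ
          _ = L * ε₀ := by rw [Finset.sum_const, Finset.card_range, nsmul_eq_mul]
      calc ∑ l ∈ range L, _ ≤ ∑ _l ∈ range L, (L : ℝ) * ε₀ := Finset.sum_le_sum h4
        _ = ε₀ * (L : ℝ) ^ 2 := by
            rw [Finset.sum_const, Finset.card_range, nsmul_eq_mul]
            ring
    rw [← Complex.ofReal_sub, Complex.norm_real, Real.norm_eq_abs] at h3
    have := (abs_le.1 h3).1
    linarith
  -- pointwise
  have hK1 : ∀ θ : ℝ, Xh.cnK L θ ≤ 1 := by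
    intro θ
    unfold Xh.cnK
    refine pow_le_one₀ (norm_nonneg _) ?_
    rw [norm_div, Complex.norm_natCast, div_le_one hLp]
    refine (norm_sum_le _ _).trans ?_
    have h3 : ∀ l ∈ range L, ‖Complex.exp (Complex.I * ((l * θ : ℝ) : ℂ))‖ = 1 := by
      intro l _
      rw [mul_comm]
      exact Complex.norm_exp_ofReal_mul_I _
    rw [Finset.sum_congr rfl h3, Finset.sum_const, Finset.card_range, nsmul_eq_mul, mul_one]
  have h1 : ∀ a, one (R * s ≤ |X a|) ≤ 2 * (1 - Xh.cnK L (τ * X a)) := by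
    intro a
    by_cases hx : R * s ≤ |X a|
    · rw [Dnf.one_true hx]
      have h2 := Xh.cn_far (L := L) (hτx a) (by
        rw [abs_mul, abs_of_pos hτ0]
        refine hL1.trans ?_
        have : τ * (R * s) ≤ τ * |X a| := mul_le_mul_of_nonneg_left hx hτ0.le
        exact mul_le_mul_of_nonneg_left this (Nat.cast_nonneg _))
      linarith
    · rw [Dnf.one_false hx]
      have := hK1 (τ * X a)
      linarith
  have h2 : (avg fun a => one (R * s ≤ |X a|)) ≤ avg fun a => 2 * (1 - Xh.cnK L (τ * X a)) := by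
    unfold avg
    exact div_le_div_of_nonneg_right (Finset.sum_le_sum fun ω _ => h1 ω) (Nat.cast_nonneg _)
  have hav : ∀ {D : Type} [Fintype D] [Nonempty D] (f : D → ℝ),
      (avg fun ω => 2 * (1 - f ω)) = 2 * (1 - avg f) := by
    intro D _ _ f
    unfold avg
    have hc : (0 : ℝ) < Fintype.card D := by exact_mod_cast Fintype.card_pos
    rw [← Finset.mul_sum, Finset.sum_sub_distrib, Finset.sum_const, Finset.card_univ,
      nsmul_eq_mul, mul_one]
    field_simp
  rw [hav] at h2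
  have h4 : 2 * (1 - avg fun b => Xh.cnK L (τ * X' b)) ≤ 49 * C / (R * s) ^ 2 := by
    rw [← hav]
    have h5 : ∀ b, 2 * (1 - Xh.cnK L (τ * X' b)) ≤ (L * τ) ^ 2 * X' b ^ 2 := by
      intro b
      have := Xh.cn_near hLpos (τ * X' b)
      have h6 : (L * (τ * X' b)) ^ 2 = (L * τ) ^ 2 * X' b ^ 2 := by ring
      rw [h6] at this
      linarith
    have h6 : (avg fun b => 2 * (1 - Xh.cnK L (τ * X' b))) ≤
        (L * τ) ^ 2 * avg fun b => X' b ^ 2 := by
      unfold avg
      rw [← mul_div_assoc, Finset.mul_sum]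
      exact div_le_div_of_nonneg_right (Finset.sum_le_sum fun x _ => h5 x) (Nat.cast_nonneg _)
    refine h6.trans ?_
    have h8 : ((L : ℝ) * τ) ^ 2 * (R * s) ^ 2 ≤ 49 := by
      have h9 : 0 ≤ (L : ℝ) * (τ * (R * s)) := by positivity
      calc ((L : ℝ) * τ) ^ 2 * (R * s) ^ 2 = (L * (τ * (R * s))) ^ 2 := by ring
        _ ≤ 7 ^ 2 := pow_le_pow_left₀ h9 hL2 2
        _ = 49 := by norm_num
    have hC0 : 0 ≤ C := by
      refine le_trans ?_ hC
      unfold avg
      exact div_nonneg (Finset.sum_nonneg fun b _ => sq_nonneg _) (Nat.cast_nonneg _)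
    rw [le_div_iff₀ (by positivity)]
    calc ((L : ℝ) * τ) ^ 2 * avg (fun b => X' b ^ 2) * (R * s) ^ 2
        ≤ ((L : ℝ) * τ) ^ 2 * C * (R * s) ^ 2 :=
          mul_le_mul_of_nonneg_right (mul_le_mul_of_nonneg_left hC (by positivity)) (by positivity)
      _ = ((L : ℝ) * τ) ^ 2 * (R * s) ^ 2 * C := by ring
      _ ≤ 49 * C := mul_le_mul_of_nonneg_right h8 hC0
  linarith

/-- Concentration of the statistic, from the phases `|t| ≤ 1 / D`. -/
theorem tconc (r : ℕ) (K : ℝ) {ε : ℝ} (hε : 0 < ε) : ∃ R : ℝ, 0 < R ∧ ∀ (n : ℕ) {ι : Type}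
    (T : ι → Term n) (M : Finset ι) (u : ι → ℝ) (D : ℝ), Rd r T M → 0 < D →
      rv T u M ≤ K * D ^ 2 →
      ∀ {Ω : Type} [Fintype Ω] [Nonempty Ω] (Y : Ω → Cube n) (ε₀ : ℝ),
        (∀ t : ℝ, |t| * D ≤ 1 →
          ‖(av fun ω => pr T (ph t u) M (Y ω)) - av (pr T (ph t u) M)‖ ≤ ε₀) →
        (avg fun ω => one (R * D ≤ |rs T u M (Y ω) - avg (rs T u M)|)) ≤ ε + 2 * ε₀ := by
  set B : ℝ := 49 * (r * |K|) with hB
  have hB0 : 0 ≤ B := by positivity
  refine ⟨Real.sqrt (B / ε) + 7, by positivity, ?_⟩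
  set R : ℝ := Real.sqrt (B / ε) + 7 with hR
  have hR0 : 0 < R := by positivity
  have hR7 : 7 ≤ R := by
    have := Real.sqrt_nonneg (B / ε)
    linarith
  have hR2 : B / ε ≤ R ^ 2 := by
    calc B / ε = Real.sqrt (B / ε) ^ 2 := (Real.sq_sqrt (by positivity)).symm
      _ ≤ R ^ 2 := pow_le_pow_left₀ (Real.sqrt_nonneg _) (by rw [hR]; linarith) 2
  intro n ι T M u D hM hD hv Ω _ _ Y ε₀ h
  set a : ℝ := avg (rs T u M) with ha
  have hC : (avg fun x : Cube n => (rs T u M x - a) ^ 2) ≤ r * |K| * D ^ 2 := by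
    refine (rs_var hM u).trans ?_
    calc (r : ℝ) * rv T u M ≤ r * (K * D ^ 2) := mul_le_mul_of_nonneg_left hv (Nat.cast_nonneg _)
      _ ≤ r * (|K| * D ^ 2) := mul_le_mul_of_nonneg_left
          (mul_le_mul_of_nonneg_right (le_abs_self K) (by positivity)) (Nat.cast_nonneg _)
      _ = r * |K| * D ^ 2 := by ring
  have hch : ∀ t : ℝ, |t| * D ≤ 1 →
      ‖(av fun ω => Complex.exp (Complex.I * ((t * (rs T u M (Y ω) - a) : ℝ) : ℂ))) -
        av fun x : Cube n => Complex.exp (Complex.I * ((t * (rs T u M x - a) : ℝ) : ℂ))‖ ≤ ε₀ := by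
    intro t ht
    have h1 : ∀ x : Cube n, Complex.exp (Complex.I * ((t * (rs T u M x - a) : ℝ) : ℂ)) =
        Complex.exp (((-(t * a) : ℝ) : ℂ) * Complex.I) * pr T (ph t u) M x := by
      intro x
      rw [pr_ph, ← Complex.exp_add]
      congr 1
      push_cast
      ring
    simp only [h1]
    rw [Xp.spb_av_mul, Xp.spb_av_mul, ← mul_sub, norm_mul, Complex.norm_exp_ofReal_mul_I, one_mul]
    exact h t ht
  have hfin := tail_abs (fun ω => rs T u M (Y ω) - a) (fun x : Cube n => rs T u M x - a) hD hR7 hC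
    hch
  refine hfin.trans (add_le_add_left ?_ _)
  rw [div_le_iff₀ (by positivity)]
  have h5 : B ≤ ε * R ^ 2 := by rwa [div_le_iff₀ hε, mul_comm] at hR2
  calc 49 * (r * |K| * D ^ 2) = B * D ^ 2 := by rw [hB]; ring
    _ ≤ ε * R ^ 2 * D ^ 2 := mul_le_mul_of_nonneg_right h5 (by positivity)
    _ = ε * (R * D) ^ 2 := by ring

end Pool.Agent.MP_ca1109_lc.Xt
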