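import Pool.Agent.MP_ca1109_lc.Xt.BP
import Pool.Agent.MP_ca1109_lc.Xt.TC
import Pool.Agent.MP_ca1109_lc.Xt.CF
import Pool.Agent.MP_ca1109_lc.Xt.NZ
import Pool.Agent.MP_ca1109_lc.Xh.RA
import Pool.Agent.MP_ca1109_lc.Xg.FJ

/-!
# Thresholds of integer statistics of terms are approximable
-/

namespace Pool.Agent.MP_ca1109_lc.Xt

open Finset Pool.Agent.H66 Pool.Agent.MP_ca1109_lc.Mpg Pool.Agent.MP_ca1109_lc.Agp
open Pool.Agent.MP_ca1109_lc.Dnf (Cube ch one one_le one_nonneg one_true one_false Term)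
open Pool.Agent.MP_ca1109_lc.Xl (Tr tm pr Rd)

variable {n : ℕ} {U : Submonoid (Cube n → ℂ)} {ι : Type} [DecidableEq ι]

/-! ## Phases -/

theorem xtl_phase (θ : ℝ) : ‖1 - Complex.exp (Complex.I * (θ : ℂ))‖ ≤ |θ| := by
  rw [norm_sub_rev]
  exact Real.norm_exp_I_mul_ofReal_sub_one_le

omit [DecidableEq ι] in
theorem xtl_energy (T : ι → Term n) (u : ι → ℝ) (M : Finset ι) (t : ℝ) :
    ∑ m ∈ M, (1 / 2 : ℝ) ^ (T m).S.card * ‖1 - ph t u m‖ ^ 2 ≤ t ^ 2 * rv T u M := by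
  unfold rv
  rw [mul_sum]
  refine sum_le_sum fun m _ => ?_
  have h1 : ‖1 - ph t u m‖ ≤ |t * u m| := by
    unfold ph
    rw [← Complex.ofReal_mul]
    exact xtl_phase _
  have h2 : ‖1 - ph t u m‖ ^ 2 ≤ (t * u m) ^ 2 := by
    rw [← sq_abs (t * u m)]
    exact pow_le_pow_left₀ (norm_nonneg _) h1 2
  calc (1 / 2 : ℝ) ^ (T m).S.card * ‖1 - ph t u m‖ ^ 2 ≤
        (1 / 2 : ℝ) ^ (T m).S.card * (t * u m) ^ 2 := mul_le_mul_of_nonneg_left h2 (by positivity)
    _ = t ^ 2 * (u m ^ 2 * (1 / 2) ^ (T m).S.card) := by ring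

theorem xtl_bp {r q : ℕ} {V : ℝ} {T : ι → Term n} {M : Finset ι} {u : ι → ℝ} (hM : Rd r T M)
    (h0 : ∀ m ∈ M, (T m).S ≠ ∅) {t : ℝ} (hV : t ^ 2 * rv T u M ≤ V) :
    BP U r q V (pr T (ph t u) M) :=
  BP.energy hM h0 (fun m _ => norm_ph t u m) ((xtl_energy T u M t).trans hV)

omit [DecidableEq ι] in
theorem xtl_rv {B : ℕ} {T : ι → Term n} {M : Finset ι} {w : ι → ℤ} (hw : ∀ m ∈ M, |w m| ≤ B) :
    rv T (fun m => (w m : ℝ)) M ≤ (B : ℝ) ^ 2 * ∑ m ∈ M, (1 / 2 : ℝ) ^ (T m).S.card := by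
  unfold rv
  rw [mul_sum]
  refine sum_le_sum fun m hm => mul_le_mul_of_nonneg_right ?_ (by positivity)
  have h1 : |(w m : ℝ)| ≤ B := by exact_mod_cast hw m hm
  rw [← sq_abs (w m : ℝ)]
  exact pow_le_pow_left₀ (abs_nonneg _) h1 2

omit [DecidableEq ι] in
theorem xtl_st (T : ι → Term n) (w : ι → ℤ) (M : Finset ι) (x : Cube n) :
    (st T w M x : ℝ) = rs T (fun m => (w m : ℝ)) M x := by
  classical
  unfold st rs
  push_cast
  refine sum_congr rfl fun m _ => ?_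
  by_cases h : Tr (T m).S (T m).a x
  · rw [if_pos h, show tm (T m).S (T m).a x = 1 from one_true h, mul_one]
  · rw [if_neg h, show tm (T m).S (T m).a x = 0 from one_false h, mul_zero]

/-! ## Small mass -/

/-- The threshold is a function of the residue in a window. -/
theorem xtl_window (Q : ℕ) (lo θ : ℤ) : ∃ A : Finset (ZMod Q), A.card ≤ Q ∧
    ∀ z : ℤ, lo ≤ z → z < lo + Q → ((z : ZMod Q) ∈ A ↔ θ ≤ z) := by
  classical
  refine ⟨((Finset.Ico lo (lo + Q)).filter fun z => θ ≤ z).image fun z : ℤ => (z : ZMod Q), ?_, ?_⟩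
  · refine Finset.card_image_le.trans ((Finset.card_filter_le _ _).trans ?_)
    rw [Int.card_Ico]
    simp
  · intro z h1 h2
    constructor
    · intro h
      obtain ⟨y, hy, hyz⟩ := Finset.mem_image.1 h
      obtain ⟨hy1, hy2⟩ := Finset.mem_filter.1 hy
      rw [Finset.mem_Ico] at hy1
      have h3 : (Q : ℤ) ∣ z - y := (ZMod.intCast_eq_intCast_iff_dvd_sub y z Q).1 hyz
      have h4 : z - y = 0 := by
        refine Int.eq_zero_of_abs_lt_dvd h3 ?_
        rw [abs_lt]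
        constructor <;> omega
      have h5 : z = y := by omega
      rw [h5]
      exact hy2
    · intro h
      exact Finset.mem_image.2 ⟨z, Finset.mem_filter.2 ⟨Finset.mem_Ico.2 ⟨h1, h2⟩, h⟩, rfl⟩

omit [DecidableEq ι] in
theorem xtl_vl (Q : ℕ) (T : ι → Term n) (w : ι → ℤ) (M : Finset ι) (x : Cube n) :
    vl T (fun m => (w m : ZMod Q)) M x = (st T w M x : ZMod Q) := by
  classical
  unfold vl st
  push_cast
  refine sum_congr rfl fun m _ => ?_
  split_ifs <;> simp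

theorem xtl_small {r Q : ℕ} (hQ : 0 < Q) {V ε ε₀ R : ℝ} (hV0 : 0 ≤ V)
    {T : ι → Term n} {M : Finset ι} {w : ι → ℤ} (hM : Rd r T M)
    (h0 : ∀ m ∈ M, (T m).S ≠ ∅) (hV : rv T (fun m => (w m : ℝ)) M ≤ V)
    (hQR : 2 * R + 1 ≤ Q)
    (hc : ∀ {Ω : Type} [Fintype Ω] [Nonempty Ω] (Y : Ω → Cube n),
        (∀ t : ℝ, |t| * 1 ≤ 1 →
          ‖(av fun ω => pr T (ph t fun m => (w m : ℝ)) M (Y ω)) -
            av (pr T (ph t fun m => (w m : ℝ)) M)‖ ≤ ε₀) →
        (avg fun ω => one (R * 1 ≤ |rs T (fun m => (w m : ℝ)) M (Y ω) -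
          avg (rs T (fun m => (w m : ℝ)) M)|)) ≤ ε) (θ : ℤ) :
    ∃ f : Cube n → ℂ, BC U r Q V Q f ∧ (∀ x, ‖f x‖ ≤ 2) ∧
      ∀ {Ω : Type} [Fintype Ω] [Nonempty Ω] (X : Ω → Cube n), FB U r Q V ε₀ X →
        (avg fun ω => ‖((one (θ ≤ st T w M (X ω)) : ℝ) : ℂ) - f (X ω)‖) ≤ ε := by
  classical
  have : NeZero Q := ⟨hQ.ne'⟩
  obtain ⟨a, ha⟩ : ∃ a, a = avg (rs T (fun m => (w m : ℝ)) M) := ⟨_, rfl⟩
  obtain ⟨A, hA, hA2⟩ := xtl_window Q ⌈a - R⌉ θ
  refine ⟨fun x => ((one (vl T (fun m => (w m : ZMod Q)) M x ∈ A) : ℝ) : ℂ),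
    (bc_abl hV0 (fun y => ?_) _ hM h0 A).mono le_rfl dvd_rfl le_rfl (by exact_mod_cast hA),
    fun x => ?_, fun X hX => ?_⟩
  · rw [nsmul_eq_mul]
    simp
  · rw [Complex.norm_real, Real.norm_of_nonneg (one_nonneg _)]
    linarith [one_le (vl T (fun m => (w m : ZMod Q)) M x ∈ A)]
  · refine le_trans (avg_mono fun ω => ?_) (hc X fun t ht => ?_)
    · rw [← ha, mul_one, ← xtl_st]
      by_cases h : R ≤ |(st T w M (X ω) : ℝ) - a|
      · rw [one_true h, ← Complex.ofReal_sub, Complex.norm_real, Real.norm_eq_abs, abs_le]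
        have h1 := one_nonneg (θ ≤ st T w M (X ω))
        have h2 := one_le (θ ≤ st T w M (X ω))
        have h3 := one_nonneg (vl T (fun m => (w m : ZMod Q)) M (X ω) ∈ A)
        have h4 := one_le (vl T (fun m => (w m : ZMod Q)) M (X ω) ∈ A)
        constructor <;> linarith
      · have h1 := abs_lt.1 (not_le.1 h)
        have h2 : ⌈a - R⌉ ≤ st T w M (X ω) := Int.ceil_le.2 (by linarith)
        have h3 : st T w M (X ω) < ⌈a - R⌉ + Q := by
          have h4 : (st T w M (X ω) : ℝ) < (⌈a - R⌉ : ℝ) + Q := by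
            have := Int.le_ceil (a - R)
            linarith
          exact_mod_cast h4
        have h5 := hA2 _ h2 h3
        show ‖((one (θ ≤ st T w M (X ω)) : ℝ) : ℂ) -
          ((one (vl T (fun m => (w m : ZMod Q)) M (X ω) ∈ A) : ℝ) : ℂ)‖ ≤ _
        rw [xtl_vl, propext h5, sub_self, norm_zero]
        exact one_nonneg _
    · refine hX _ (xtl_bp hM h0 (le_trans ?_ hV))
      have h1 : t ^ 2 ≤ 1 := by
        rw [← sq_abs]
        rw [mul_one] at ht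
        exact pow_le_one₀ (abs_nonneg _) ht
      have h2 : 0 ≤ rv T (fun m => (w m : ℝ)) M := sum_nonneg fun m _ => by positivity
      nlinarith

/-! ## Large mass -/

/-- The ramp and the threshold, pointwise. -/
theorem xtl_ramp {J s θ : ℝ} (hJ : 0 < J) :
    |one (θ ≤ s) - max 0 (min 1 ((s - θ) / J + 1))| ≤ one (|s - θ| ≤ J) := by
  by_cases h : θ ≤ s
  · rw [one_true h]
    have h1 : 1 ≤ (s - θ) / J + 1 := by
      have : 0 ≤ (s - θ) / J := div_nonneg (by linarith) hJ.le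
      linarith
    rw [min_eq_left h1, max_eq_right zero_le_one, sub_self, abs_zero]
    exact one_nonneg _
  · rw [one_false h]
    have h := not_le.1 h
    by_cases h2 : |s - θ| ≤ J
    · rw [one_true h2, zero_sub, abs_neg, abs_of_nonneg (le_max_left _ _)]
      exact max_le zero_le_one (min_le_left _ _)
    · rw [one_false h2]
      have h3 : s - θ < -J := by
        rw [abs_of_neg (by linarith)] at h2
        linarith [not_le.1 h2]
      have h4 : (s - θ) / J + 1 ≤ 0 := by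
        have : (s - θ) / J ≤ -1 := by
          rw [div_le_iff₀ hJ]
          linarith
        linarith
      rw [max_eq_left ((min_le_right _ _).trans h4), sub_self, abs_zero]

theorem xtl_large {r q : ℕ} {V ε ε₀ ε₁ ε₂ ε₃ J R P a₁ : ℝ} {L N : ℕ} (hL : 0 < L)
    {φ : Fin N → ℂ} {b : Fin N → ℤ} (hV0 : 0 ≤ V) (hε₂ : 0 ≤ ε₂) (hε0 : 0 ≤ ε₀) (hε1 : ε ≤ 1)
    {T : ι → Term n} {M : Finset ι} {u : ι → ℝ} (hM : Rd r T M) (h0 : ∀ m ∈ M, (T m).S ≠ ∅)
    (hJ : 0 < J) (hP : 0 < P) (hR : 0 < R)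
    (hramp1 : ∀ v c : ℝ, |c| ≤ R + 1 →
      ‖∑ j, φ j * Complex.exp (Complex.I * (2 * Real.pi * b j * (c + v) / P))‖ ≤ 1 + ε)
    (hramp2 : ∀ v c : ℝ, |v| ≤ R → |c| ≤ R + 1 →
        ‖∑ j, φ j * Complex.exp (Complex.I * (2 * Real.pi * b j * (c + v) / P)) -
          ((max 0 (min 1 (c + v)) : ℝ) : ℂ)‖ ≤ ε) (hε : 0 ≤ ε)
    (hVr : ∀ j, (2 * Real.pi * b j / (P * J)) ^ 2 * rv T u M ≤ V)
    (hVl : ∀ l : ℕ, 1 ≤ l → l < L → ((l : ℝ) / (L * J)) ^ 2 * rv T u M ≤ V)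
    (hcf : ∀ l : ℕ, 1 ≤ l → l < L → ‖av (pr T (ph ((l : ℝ) / (L * J)) u) M)‖ ≤ ε₂)
    (htail : ∀ {Ω : Type} [Fintype Ω] [Nonempty Ω] (Y : Ω → Cube n), FB U r q V ε₀ Y →
        (avg fun ω => one (R * J ≤ |rs T u M (Y ω) - a₁|)) ≤ ε₁) (θ : ℝ)
    (hfin : ε + 3 * ε₁ + 4 * (1 / L + (ε₂ + ε₀)) ≤ ε₃) :
    ∃ f : Cube n → ℂ, BC U r q V (1 + ∑ j, ‖φ j‖) f ∧ (∀ x, ‖f x‖ ≤ 2) ∧
      ∀ {Ω : Type} [Fintype Ω] [Nonempty Ω] (X : Ω → Cube n), FB U r q V ε₀ X →
        (avg fun ω => ‖((one (θ ≤ rs T u M (X ω)) : ℝ) : ℂ) - f (X ω)‖) ≤ ε₃ := by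
  classical
  have hL' : (0 : ℝ) < L := by exact_mod_cast hL
  have hφ0 : 0 ≤ ∑ j, ‖φ j‖ := sum_nonneg fun _ _ => norm_nonneg _
  have hRJ : 0 < R * J := by positivity
  obtain ⟨c, hc⟩ : ∃ c : ℝ, c = (a₁ - θ) / J + 1 := ⟨_, rfl⟩
  have hcv : ∀ s : ℝ, c + (s - a₁) / J = (s - θ) / J + 1 := by
    intro s
    rw [hc]
    field_simp
    ring
  -- anticoncentration
  have hanti : ∀ {Ω : Type} [Fintype Ω] [Nonempty Ω] (Y : Ω → Cube n), FB U r q V ε₀ Y →
      (avg fun ω => one (|rs T u M (Y ω) - θ| ≤ J)) ≤ 4 * (1 / L + (ε₂ + ε₀)) := by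
    intro Ω _ _ Y hY
    refine Xg.fejer (fun ω => rs T u M (Y ω)) θ hJ hL (by positivity) fun l hl1 hl2 => ?_
    have h1 := hY _ (xtl_bp (U := U) (q := q) hM h0 (hVl l hl1 hl2))
    have h2 := hcf l hl1 hl2
    have h3 : (fun ω => Complex.exp (((l : ℝ) / (L * J) * rs T u M (Y ω) : ℝ) * Complex.I)) =
        fun ω => pr T (ph ((l : ℝ) / (L * J)) u) M (Y ω) := by
      funext ω
      rw [pr_ph, mul_comm Complex.I]
    rw [h3]
    calc ‖av fun ω => pr T (ph ((l : ℝ) / (L * J)) u) M (Y ω)‖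
        = ‖((av fun ω => pr T (ph ((l : ℝ) / (L * J)) u) M (Y ω)) -
            av (pr T (ph ((l : ℝ) / (L * J)) u) M)) +
            av (pr T (ph ((l : ℝ) / (L * J)) u) M)‖ := by rw [sub_add_cancel]
      _ ≤ ε₀ + ε₂ := (norm_add_le _ _).trans (add_le_add h1 h2)
      _ = ε₂ + ε₀ := add_comm _ _
  -- the pointwise bound implies the theorem
  have key : ∀ f : Cube n → ℂ, (∀ x, ‖((one (θ ≤ rs T u M x) : ℝ) : ℂ) - f x‖ ≤
      ε + 3 * one (R * J ≤ |rs T u M x - a₁|) + one (|rs T u M x - θ| ≤ J)) →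
      ∀ {Ω : Type} [Fintype Ω] [Nonempty Ω] (X : Ω → Cube n), FB U r q V ε₀ X →
        (avg fun ω => ‖((one (θ ≤ rs T u M (X ω)) : ℝ) : ℂ) - f (X ω)‖) ≤ ε₃ := by
    intro f hf Ω _ _ X hX
    refine (avg_mono fun ω => hf (X ω)).trans ?_
    rw [avg_add, avg_add, avg_const, avg_mul_left]
    have h1 := htail X hX
    have h2 := hanti X hX
    linarith
  rcases le_or_gt |c| (R + 1) with hcR | hcR
  · -- the ramp is in the window
    obtain ⟨f, hf⟩ : ∃ f : Cube n → ℂ, ∀ x, f x = ∑ j, φ j * Complex.exp (Complex.I *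
      (2 * Real.pi * b j * (c + ((rs T u M x - a₁) / J : ℝ)) / P)) := ⟨_, fun _ => rfl⟩
    have hf1 : ∀ x, ‖f x‖ ≤ 1 + ε := by
      intro x
      rw [hf]
      exact hramp1 ((rs T u M x - a₁) / J) c hcR
    have hbc : BC U r q V (1 + ∑ j, ‖φ j‖) f := by
      have h1 : ∀ x : Cube n, f x =
          ∑ j, (φ j * Complex.exp (((2 * Real.pi * b j * (c - a₁ / J) / P : ℝ) : ℂ) * Complex.I)) *
            pr T (ph (2 * Real.pi * b j / (P * J)) u) M x := by
        intro x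
        rw [hf]
        refine sum_congr rfl fun j _ => ?_
        rw [pr_ph, mul_assoc (φ j), ← Complex.exp_add]
        congr 2
        push_cast
        have hJc : (J : ℂ) ≠ 0 := by exact_mod_cast hJ.ne'
        have hPc : (P : ℂ) ≠ 0 := by exact_mod_cast hP.ne'
        field_simp
        ring
      have h2 : ∑ j, ‖φ j * Complex.exp (((2 * Real.pi * b j * (c - a₁ / J) / P : ℝ) : ℂ) *
          Complex.I)‖ ≤ 1 + ∑ j, ‖φ j‖ := by
        have h3 : ∀ j, ‖φ j * Complex.exp (((2 * Real.pi * b j * (c - a₁ / J) / P : ℝ) : ℂ) *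
            Complex.I)‖ = ‖φ j‖ := by
          intro j
          rw [norm_mul, Complex.norm_exp_ofReal_mul_I, mul_one]
        simp only [h3]
        linarith
      exact ⟨Fin N, inferInstance, fun j => φ j * Complex.exp
        (((2 * Real.pi * b j * (c - a₁ / J) / P : ℝ) : ℂ) * Complex.I),
        fun j => pr T (ph (2 * Real.pi * b j / (P * J)) u) M,
        fun j => xtl_bp hM h0 (hVr j), h2, h1⟩
    refine ⟨f, hbc, fun x => (hf1 x).trans (by linarith), key f fun x => ?_⟩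
    by_cases hv : R * J ≤ |rs T u M x - a₁|
    · rw [one_true hv]
      have h1 := hf1 x
      have h2 : ‖((one (θ ≤ rs T u M x) : ℝ) : ℂ)‖ ≤ 1 := by
        rw [Complex.norm_real, Real.norm_of_nonneg (one_nonneg _)]
        exact one_le _
      have h3 := one_nonneg (|rs T u M x - θ| ≤ J)
      have h4 := norm_sub_le ((one (θ ≤ rs T u M x) : ℝ) : ℂ) (f x)
      linarith
    · rw [one_false hv]
      have hv' : |(rs T u M x - a₁) / J| ≤ R := by
        rw [abs_div, abs_of_pos hJ, div_le_iff₀ hJ]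
        exact (not_le.1 hv).le
      have h1 := hramp2 ((rs T u M x - a₁) / J) c hv' hcR
      rw [← hf] at h1
      have h2 := xtl_ramp (s := rs T u M x) (θ := θ) hJ
      rw [← hcv, ← Real.norm_eq_abs, ← Complex.norm_real, Complex.ofReal_sub] at h2
      have h4 := norm_sub_le (((one (θ ≤ rs T u M x) : ℝ) : ℂ) -
        ((max 0 (min 1 (c + (rs T u M x - a₁) / J)) : ℝ) : ℂ))
        (f x - ((max 0 (min 1 (c + (rs T u M x - a₁) / J)) : ℝ) : ℂ))
      rw [sub_sub_sub_cancel_right] at h4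
      linarith
  · -- the test is constant in the window
    rcases lt_or_ge c 0 with hc0 | hc0
    · rw [abs_of_neg hc0] at hcR
      refine ⟨fun _ => 0, (BC.const r q hV0 0).mono le_rfl dvd_rfl le_rfl (by simp; linarith),
        fun x => by simp, key (fun _ => 0) fun x => ?_⟩
      rw [sub_zero, Complex.norm_real, Real.norm_of_nonneg (one_nonneg _)]
      by_cases hv : R * J ≤ |rs T u M x - a₁|
      · rw [one_true hv]
        linarith [one_le (θ ≤ rs T u M x), one_nonneg (|rs T u M x - θ| ≤ J)]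
      · have h1 := (abs_lt.1 (not_le.1 hv)).2
        have h2 : ¬ θ ≤ rs T u M x := by
          intro h
          have h3 := hcv (rs T u M x)
          have h4 : 0 ≤ (rs T u M x - θ) / J := div_nonneg (by linarith) hJ.le
          have h5 : (rs T u M x - a₁) / J ≤ R := by
            rw [div_le_iff₀ hJ]
            exact h1.le
          linarith
        rw [one_false h2]
        have h3 := one_nonneg (R * J ≤ |rs T u M x - a₁|)
        have h4 := one_nonneg (|rs T u M x - θ| ≤ J)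
        linarith
    · rw [abs_of_nonneg hc0] at hcR
      refine ⟨fun _ => 1, (BC.const r q hV0 1).mono le_rfl dvd_rfl le_rfl (by simpa using hφ0),
        fun x => by simp, key (fun _ => 1) fun x => ?_⟩
      by_cases hv : R * J ≤ |rs T u M x - a₁|
      · rw [one_true hv, ← Complex.ofReal_one, ← Complex.ofReal_sub, Complex.norm_real,
          Real.norm_eq_abs, abs_le]
        have h1 := one_le (θ ≤ rs T u M x)
        have h2 := one_nonneg (θ ≤ rs T u M x)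
        have h3 := one_nonneg (|rs T u M x - θ| ≤ J)
        constructor <;> linarith
      · have h1 := (abs_lt.1 (not_le.1 hv)).1
        have h2 : θ ≤ rs T u M x := by
          have h3 := hcv (rs T u M x)
          have h5 : -R ≤ (rs T u M x - a₁) / J := by
            rw [le_div_iff₀ hJ]
            linarith
          have h6 : 0 ≤ (rs T u M x - θ) / J := by linarith
          have h7 := mul_nonneg h6 hJ.le
          rw [div_mul_cancel₀ _ hJ.ne'] at h7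
          linarith
        rw [one_true h2, Complex.ofReal_one, sub_self, norm_zero]
        have h3 := one_nonneg (R * J ≤ |rs T u M x - a₁|)
        have h4 := one_nonneg (|rs T u M x - θ| ≤ J)
        linarith

/-! ## All thresholds -/

omit [DecidableEq ι] in
theorem xtl_rv_nonneg (T : ι → Term n) (u : ι → ℝ) (M : Finset ι) : 0 ≤ rv T u M :=
  sum_nonneg fun m _ => by positivity

theorem xtl_thr (r B : ℕ) {ε₁ : ℝ} (h1 : 0 < ε₁) : ∃ (Q : ℕ) (V C ε₀ : ℝ), 0 < Q ∧ 0 ≤ V ∧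
    0 ≤ C ∧ 0 < ε₀ ∧ ∀ (n : ℕ) (U : Submonoid (Cube n → ℂ)) {ι : Type} [DecidableEq ι]
      (T : ι → Term n) (M : Finset ι) (w : ι → ℤ) (θ : ℤ), Rd r T M → (∀ m ∈ M, |w m| ≤ B) →
      ∃ f : Cube n → ℂ, BC U r Q V C f ∧ (∀ x, ‖f x‖ ≤ 2) ∧
        ∀ {Ω : Type} [Fintype Ω] [Nonempty Ω] (X : Ω → Cube n), FB U r Q V ε₀ X →
          (avg fun ω => ‖((one (θ ≤ st T w M (X ω)) : ℝ) : ℂ) - f (X ω)‖) ≤ ε₁ := by
  classical
  -- the constants for large mass
  obtain ⟨R₂, hR₂, hconc⟩ := tconc r ((B : ℝ) ^ 2) (show 0 < ε₁ / 24 by positivity)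
  obtain ⟨L, hL⟩ := exists_nat_gt (96 / ε₁)
  have hLr : (0 : ℝ) < L := lt_trans (by positivity) hL
  have hL0 : 0 < L := by exact_mod_cast hLr
  obtain ⟨V₀, hcf⟩ := small_cf r B (show 0 < ε₁ / 96 by positivity)
  obtain ⟨V₁, hV₁⟩ : ∃ V₁ : ℝ, V₁ = max 1 V₀ := ⟨_, rfl⟩
  have hV₁1 : 1 ≤ V₁ := by rw [hV₁]; exact le_max_left _ _
  have hV₁0 : V₀ ≤ V₁ := by rw [hV₁]; exact le_max_right _ _
  have hV₁p : 0 < V₁ := by linarith
  obtain ⟨dl, hdl⟩ : ∃ dl : ℝ, dl = 1 / (L * V₁) := ⟨_, rfl⟩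
  have hdl0 : 0 < dl := by rw [hdl]; positivity
  obtain ⟨εr, hεr⟩ : ∃ εr : ℝ, εr = min (ε₁ / 8) 1 := ⟨_, rfl⟩
  have hεr0 : 0 < εr := by rw [hεr]; positivity
  have hεr1 : εr ≤ 1 := by rw [hεr]; exact min_le_right _ _
  have hεr2 : εr ≤ ε₁ / 8 := by rw [hεr]; exact min_le_left _ _
  obtain ⟨N, P, φ, b, hP, hr1, hr2⟩ := Xh.ramp (R₂ / dl) (by positivity) hεr0
  obtain ⟨L0, hL0'⟩ : ∃ L0 : ℝ, L0 = max 1 ((r * B / dl) ^ 2) := ⟨_, rfl⟩
  have hL01 : 1 ≤ L0 := by rw [hL0']; exact le_max_left _ _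
  have hL02 : (r * B / dl) ^ 2 ≤ L0 := by rw [hL0']; exact le_max_right _ _
  -- the constants for small mass
  obtain ⟨R₀, hR₀, hconc0⟩ := tconc r ((B : ℝ) ^ 2 * L0) (show 0 < ε₁ / 2 by positivity)
  obtain ⟨Q, hQ⟩ := exists_nat_ge (2 * R₀ + 1)
  have hQ0 : 0 < Q := by
    have : (0 : ℝ) < Q := by linarith
    exact_mod_cast this
  have hφ0 : 0 ≤ ∑ j, ‖φ j‖ := sum_nonneg fun _ _ => norm_nonneg _
  obtain ⟨V, hV⟩ : ∃ V : ℝ, V = (B : ℝ) ^ 2 * L0 +
    ∑ j, (2 * Real.pi * b j / (P * dl)) ^ 2 * (B : ℝ) ^ 2 + (B : ℝ) ^ 2 / dl ^ 2 := ⟨_, rfl⟩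
  have g1 : 0 ≤ (B : ℝ) ^ 2 * L0 := by positivity
  have g2 : 0 ≤ ∑ j, (2 * Real.pi * b j / (P * dl)) ^ 2 * (B : ℝ) ^ 2 :=
    sum_nonneg fun _ _ => by positivity
  have g3 : 0 ≤ (B : ℝ) ^ 2 / dl ^ 2 := by positivity
  have hV0 : 0 ≤ V := by rw [hV]; linarith
  refine ⟨Q, V, max Q (1 + ∑ j, ‖φ j‖), ε₁ / 20, hQ0, hV0, le_max_of_le_right (by linarith),
    by positivity, fun n U ι _ T M w θ hM hw => ?_⟩
  obtain ⟨T', w', M', κ, -, hne, hM', hw', -, hred, hst⟩ := reduceZ (B := (B : ℤ)) T w M hM hw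
  have hI : ∀ x, one (θ ≤ st T w M x) = one (θ - κ ≤ st T' w' M' x) := by
    intro x
    rw [hst]
    congr 1
    rw [eq_iff_iff]
    constructor <;> intro h <;> omega
  obtain ⟨mass, hmass⟩ : ∃ mass : ℝ, mass = ∑ m ∈ M', (1 / 2 : ℝ) ^ (T' m).S.card := ⟨_, rfl⟩
  have hrv : rv T' (fun m => (w' m : ℝ)) M' ≤ (B : ℝ) ^ 2 * mass := by
    rw [hmass]
    exact xtl_rv hw'
  rcases le_or_gt mass L0 with hm | hm
  · have hrv' : rv T' (fun m => (w' m : ℝ)) M' ≤ (B : ℝ) ^ 2 * L0 :=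
      hrv.trans (mul_le_mul_of_nonneg_left hm (by positivity))
    obtain ⟨f, hf1, hf2, hf3⟩ := xtl_small (U := U) (ε := ε₁) (ε₀ := ε₁ / 20) hQ0 hV0 hM' hne
      (show rv T' (fun m => (w' m : ℝ)) M' ≤ V by rw [hV]; linarith) hQ
      (fun Y hY => (hconc0 n T' M' _ 1 hM' one_pos (by rw [one_pow, mul_one]; exact hrv') Y
        (ε₁ / 20) hY).trans (by linarith)) (θ - κ)
    refine ⟨f, hf1.mono le_rfl dvd_rfl le_rfl (le_max_left _ _), hf2, fun X hX => ?_⟩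
    simp only [hI]
    exact hf3 X hX
  · -- large mass
    have hmass0 : 0 < mass := by linarith
    obtain ⟨D, hD⟩ : ∃ D : ℝ, D = Real.sqrt mass := ⟨_, rfl⟩
    have hD0 : 0 < D := by rw [hD]; exact Real.sqrt_pos.2 hmass0
    have hD2 : D ^ 2 = mass := by rw [hD]; exact Real.sq_sqrt hmass0.le
    have hDr : r * B / dl ≤ D := by
      refine le_of_sq_le_sq ?_ hD0.le
      rw [hD2]
      linarith
    rw [← hD2] at hrv
    have hrv0 := xtl_rv_nonneg T' (fun m => (w' m : ℝ)) M'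
    have hB1 : (B : ℝ) ^ 2 ≤ V := by
      have : (B : ℝ) ^ 2 * 1 ≤ (B : ℝ) ^ 2 * L0 := mul_le_mul_of_nonneg_left hL01 (by positivity)
      rw [hV]
      linarith
    have hRJ : R₂ / dl * (dl * D) = R₂ * D := by
      field_simp
    have q1 : ∀ j, (2 * Real.pi * b j / (P * (dl * D))) ^ 2 * rv T' (fun m => (w' m : ℝ)) M' ≤ V := by
      intro j
      have h2 : (2 * Real.pi * b j / (P * (dl * D))) ^ 2 * rv T' (fun m => (w' m : ℝ)) M' ≤
          (2 * Real.pi * b j / (P * dl)) ^ 2 * (B : ℝ) ^ 2 := by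
        calc (2 * Real.pi * b j / (P * (dl * D))) ^ 2 * rv T' (fun m => (w' m : ℝ)) M' ≤
              (2 * Real.pi * b j / (P * (dl * D))) ^ 2 * ((B : ℝ) ^ 2 * D ^ 2) :=
              mul_le_mul_of_nonneg_left hrv (by positivity)
          _ = (2 * Real.pi * b j / (P * dl)) ^ 2 * (B : ℝ) ^ 2 := by
              field_simp
      have h3 := Finset.single_le_sum (f := fun j => (2 * Real.pi * b j / (P * dl)) ^ 2 * (B : ℝ) ^ 2)
        (fun j _ => by positivity) (Finset.mem_univ j)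
      rw [hV]
      linarith
    have q2 : ∀ l : ℕ, 1 ≤ l → l < L →
        ((l : ℝ) / (L * (dl * D))) ^ 2 * rv T' (fun m => (w' m : ℝ)) M' ≤ V := by
      intro l hl1 hl2
      have hl : (l : ℝ) ≤ L := by exact_mod_cast hl2.le
      have h2 : ((l : ℝ) / (L * (dl * D))) ^ 2 ≤ (1 / (dl * D)) ^ 2 := by
        refine pow_le_pow_left₀ (by positivity) ?_ 2
        rw [div_le_div_iff₀ (by positivity) (by positivity)]
        have : (l : ℝ) * (dl * D) ≤ L * (dl * D) := mul_le_mul_of_nonneg_right hl (by positivity)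
        linarith
      calc ((l : ℝ) / (L * (dl * D))) ^ 2 * rv T' (fun m => (w' m : ℝ)) M' ≤
            (1 / (dl * D)) ^ 2 * ((B : ℝ) ^ 2 * D ^ 2) := mul_le_mul h2 hrv hrv0 (by positivity)
        _ = (B : ℝ) ^ 2 / dl ^ 2 := by field_simp
        _ ≤ V := by rw [hV]; linarith
    have q3 : ∀ l : ℕ, 1 ≤ l → l < L →
        ‖av (pr T' (ph ((l : ℝ) / (L * (dl * D))) fun m => (w' m : ℝ)) M')‖ ≤ ε₁ / 96 := by
      intro l hl1 hl2
      have hl : (l : ℝ) ≤ L := by exact_mod_cast hl2.le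
      have hl' : (1 : ℝ) ≤ l := by exact_mod_cast hl1
      have ht0 : (0 : ℝ) ≤ (l : ℝ) / (L * (dl * D)) := by positivity
      have ht1 : (l : ℝ) / (L * (dl * D)) * (r * B) ≤ 1 := by
        have h2 : (r : ℝ) * B ≤ dl * D := by
          rw [div_le_iff₀ hdl0] at hDr
          linarith
        rw [div_mul_eq_mul_div, div_le_one (by positivity)]
        exact mul_le_mul hl h2 (by positivity) (by positivity)
      have ht2 : V₀ ≤ ((l : ℝ) / (L * (dl * D))) ^ 2 * ∑ m ∈ M', (1 / 2 : ℝ) ^ (T' m).S.card := by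
        rw [← hmass, ← hD2]
        have h2 : (1 / (L * (dl * D))) ^ 2 ≤ ((l : ℝ) / (L * (dl * D))) ^ 2 :=
          pow_le_pow_left₀ (by positivity) (div_le_div_of_nonneg_right hl' (by positivity)) 2
        have h3 : (1 / ((L : ℝ) * (dl * D))) ^ 2 * D ^ 2 = V₁ ^ 2 := by
          rw [hdl]
          field_simp
        have h4 : (1 / ((L : ℝ) * (dl * D))) ^ 2 * D ^ 2 ≤
            ((l : ℝ) / (L * (dl * D))) ^ 2 * D ^ 2 :=
          mul_le_mul_of_nonneg_right h2 (by positivity)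
        nlinarith
      have h2 := hcf n T' w' M' _ hM' hne hw' hred ht0 ht1 ht2
      refine le_trans (le_of_eq ?_) h2
      congr 2
      funext x
      rw [pr_ph, xtl_st]
      congr 1
      push_cast
      ring
    have q4 : ∀ {Ω : Type} [Fintype Ω] [Nonempty Ω] (Y : Ω → Cube n), FB U r Q V (ε₁ / 20) Y →
        (avg fun ω => one (R₂ / dl * (dl * D) ≤ |rs T' (fun m => (w' m : ℝ)) M' (Y ω) -
          avg (rs T' (fun m => (w' m : ℝ)) M')|)) ≤ ε₁ / 24 + 2 * (ε₁ / 20) := by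
      intro Ω _ _ Y hY
      rw [hRJ]
      refine hconc n T' M' _ D hM' hD0 hrv Y (ε₁ / 20) fun t ht => ?_
      refine hY _ (xtl_bp hM' hne ?_)
      have h2 : t ^ 2 * D ^ 2 ≤ 1 := by
        have h3 : (|t| * D) ^ 2 ≤ 1 := pow_le_one₀ (by positivity) ht
        rwa [mul_pow, sq_abs] at h3
      calc t ^ 2 * rv T' (fun m => (w' m : ℝ)) M' ≤ t ^ 2 * ((B : ℝ) ^ 2 * D ^ 2) :=
            mul_le_mul_of_nonneg_left hrv (by positivity)
        _ = (B : ℝ) ^ 2 * (t ^ 2 * D ^ 2) := by ring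
        _ ≤ (B : ℝ) ^ 2 * 1 := mul_le_mul_of_nonneg_left h2 (by positivity)
        _ ≤ V := by linarith
    have q5 : εr + 3 * (ε₁ / 24 + 2 * (ε₁ / 20)) + 4 * (1 / L + (ε₁ / 96 + ε₁ / 20)) ≤ ε₁ := by
      have h2 : 1 / (L : ℝ) ≤ ε₁ / 96 := by
        rw [div_lt_iff₀ h1] at hL
        rw [div_le_div_iff₀ hLr (by norm_num)]
        linarith
      linarith
    obtain ⟨f, hf1, hf2, hf3⟩ := xtl_large (U := U) (r := r) (q := Q) (V := V) (ε := εr)
      (ε₀ := ε₁ / 20) (ε₁ := ε₁ / 24 + 2 * (ε₁ / 20)) (ε₂ := ε₁ / 96) (ε₃ := ε₁) (J := dl * D)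
      (R := R₂ / dl) (P := P) (a₁ := avg (rs T' (fun m => (w' m : ℝ)) M')) (L := L) hL0
      (φ := φ) (b := b) hV0 (by positivity) (by positivity) hεr1 hM' hne (by positivity) hP
      (by positivity) hr1 hr2 hεr0.le q1 q2 q3 q4 ((θ - κ : ℤ) : ℝ) q5
    refine ⟨f, hf1.mono le_rfl dvd_rfl le_rfl (le_max_right _ _), hf2, fun X hX => ?_⟩
    have h2 : ∀ x, one (θ - κ ≤ st T' w' M' x) =
        one (((θ - κ : ℤ) : ℝ) ≤ rs T' (fun m => (w' m : ℝ)) M' x) := by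
      intro x
      rw [← xtl_st]
      congr 1
      rw [eq_iff_iff, Int.cast_le]
    simp only [hI, h2]
    exact hf3 X hX

end Pool.Agent.MP_ca1109_lc.Xt
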