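import Pool.Agent.MP_ca1109_lc.Xt.Defs
import Pool.Agent.MP_ca1109_lc.Xh.FA

/-!
# Products of a family of terms with weights of finite order and one of bounded energy

`U` is a set of functions closed under products.

* `BP U r q V f`: `f` is a function in `U`, times a product of weights of order `q` of true terms,
  times a product of unimodular weights of total energy at most `V`; every variable occurs in at most
  `r` terms of each family.
* `BC U r q V B f`: `f` is a combination of such functions with coefficients of total size at most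
  `B`.
* `FB U r q V ε X`: the string `X` fools these products with error at most `ε`.
-/

namespace Pool.Agent.MP_ca1109_lc.Xt

open Finset Pool.Agent.H66 Pool.Agent.MP_ca1109_lc.Mpg Pool.Agent.MP_ca1109_lc.Agp
open Pool.Agent.MP_ca1109_lc.Dnf (Cube ch one one_le one_nonneg one_true one_false Term)
open Pool.Agent.MP_ca1109_lc.Xl (Tr pr Rd)
open Pool.Agent.MP_ca1109_lc.Xh (Ph Ph_ind Ph_diff xfi_close xfi_norm_av_sub)

variable {n : ℕ} {U : Submonoid (Cube n → ℂ)}

/-- A function in `U`, times a product of weights of order `q` of true terms, times one of bounded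
energy. -/
def BP (U : Submonoid (Cube n → ℂ)) (r q : ℕ) (V : ℝ) (f : Cube n → ℂ) : Prop :=
  ∃ u ∈ U, ∃ (ι κ : Type) (_ : DecidableEq ι) (_ : DecidableEq κ) (T : ι → Term n) (M : Finset ι)
    (ζ : ι → ℂ) (T' : κ → Term n) (M' : Finset κ) (ζ' : κ → ℂ),
    Rd r T M ∧ (∀ m ∈ M, (T m).S ≠ ∅) ∧ (∀ m ∈ M, ζ m ^ q = 1) ∧
    Rd r T' M' ∧ (∀ m ∈ M', (T' m).S ≠ ∅) ∧ (∀ m ∈ M', ‖ζ' m‖ = 1) ∧
    ∑ m ∈ M', (1 / 2 : ℝ) ^ (T' m).S.card * ‖1 - ζ' m‖ ^ 2 ≤ V ∧
    ∀ x, f x = u x * (pr T ζ M x * pr T' ζ' M' x)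

/-- The string `X` fools the products with error at most `ε`. -/
def FB (U : Submonoid (Cube n → ℂ)) (r q : ℕ) (V ε : ℝ) {Ω : Type*} [Fintype Ω]
    (X : Ω → Cube n) : Prop :=
  ∀ f : Cube n → ℂ, BP U r q V f → ‖av (fun ω => f (X ω)) - av f‖ ≤ ε

/-- Combinations of the products with coefficients of total size at most `B`. -/
def BC (U : Submonoid (Cube n → ℂ)) (r q : ℕ) (V B : ℝ) (f : Cube n → ℂ) : Prop :=
  ∃ (ι : Type) (_ : Fintype ι) (c : ι → ℂ) (F : ι → Cube n → ℂ),
    (∀ i, BP U r q V (F i)) ∧ (∑ i, ‖c i‖ ≤ B) ∧ ∀ x, f x = ∑ i, c i * F i x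

/-! ## Products -/

theorem rd_empty {ι : Type*} (r : ℕ) (T : ι → Term n) : Rd r T (∅ : Finset ι) := by
  intro i
  simp

theorem rd_mono {ι : Type*} {r r' : ℕ} {T : ι → Term n} {M : Finset ι} (h : Rd r T M)
    (hr : r ≤ r') : Rd r' T M := fun i => (h i).trans hr

theorem rd_sub {ι : Type*} {r : ℕ} {T : ι → Term n} {M M' : Finset ι} (h : Rd r T M)
    (hs : M' ⊆ M) : Rd r T M' := fun i => (card_le_card (filter_subset_filter _ hs)).trans (h i)

theorem pr_empty {ι : Type*} (T : ι → Term n) (ζ : ι → ℂ) (x : Cube n) :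
    pr T ζ (∅ : Finset ι) x = 1 := by
  unfold pr
  exact prod_empty

theorem pr_disj {ι κ : Type*} (T : ι → Term n) (M : Finset ι) (ζ : ι → ℂ)
    (T' : κ → Term n) (M' : Finset κ) (ζ' : κ → ℂ) (x : Cube n) :
    pr (Sum.elim T T') (Sum.elim ζ ζ') (M.disjSum M') x = pr T ζ M x * pr T' ζ' M' x := by
  classical
  unfold pr
  rw [prod_disjSum]
  rfl

theorem rd_disj {ι κ : Type*} {r r' : ℕ} {T : ι → Term n} {M : Finset ι} {T' : κ → Term n}
    {M' : Finset κ} (h : Rd r T M) (h' : Rd r' T' M') :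
    Rd (r + r') (Sum.elim T T') (M.disjSum M') := by
  classical
  intro i
  have e : ((M.disjSum M').filter fun m => i ∈ (Sum.elim T T' m).S) =
      (M.filter fun m => i ∈ (T m).S).disjSum (M'.filter fun m => i ∈ (T' m).S) := by
    ext m
    rcases m with m | m <;> simp [mem_filter, mem_disjSum]
  rw [e, card_disjSum]
  exact Nat.add_le_add (h i) (h' i)

theorem BP.mono {r r' q q' : ℕ} {V V' : ℝ} {f : Cube n → ℂ} (h : BP U r q V f) (hr : r ≤ r')
    (hq : q ∣ q') (hV : V ≤ V') : BP U r' q' V' f := by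
  obtain ⟨u, hu, ι, κ, i1, i2, T, M, ζ, T', M', ζ', h1, h2, h3, h4, h5, h6, h7, h8⟩ := h
  refine ⟨u, hu, ι, κ, i1, i2, T, M, ζ, T', M', ζ', rd_mono h1 hr, h2, fun m hm => ?_, rd_mono h4 hr, h5,
    h6, h7.trans hV, h8⟩
  obtain ⟨a, rfl⟩ := hq
  rw [pow_mul, h3 m hm, one_pow]

theorem BP.mul {r r' q : ℕ} {V V' : ℝ} {f g : Cube n → ℂ} (h : BP U r q V f) (h' : BP U r' q V' g) :
    BP U (r + r') q (V + V') (fun x => f x * g x) := by
  classical
  obtain ⟨u, hu, ι, κ, i1, i2, T, M, ζ, T', M', ζ', h1, h2, h3, h4, h5, h6, h7, h8⟩ := h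
  obtain ⟨u₂, hu₂, ι₂, κ₂, j1, j2, T₂, M₂, ζ₂, T₂', M₂', ζ₂', k1, k2, k3, k4, k5, k6, k7, k8⟩ := h'
  refine ⟨u * u₂, U.mul_mem hu hu₂, ι ⊕ ι₂, κ ⊕ κ₂, inferInstance, inferInstance, Sum.elim T T₂, M.disjSum M₂,
    Sum.elim ζ ζ₂, Sum.elim T' T₂', M'.disjSum M₂', Sum.elim ζ' ζ₂', rd_disj h1 k1, ?_, ?_,
    rd_disj h4 k4, ?_, ?_, ?_, fun x => ?_⟩
  · rintro (m | m) hm
    · exact h2 m (inl_mem_disjSum.1 hm)
    · exact k2 m (inr_mem_disjSum.1 hm)
  · rintro (m | m) hm
    · exact h3 m (inl_mem_disjSum.1 hm)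
    · exact k3 m (inr_mem_disjSum.1 hm)
  · rintro (m | m) hm
    · exact h5 m (inl_mem_disjSum.1 hm)
    · exact k5 m (inr_mem_disjSum.1 hm)
  · rintro (m | m) hm
    · exact h6 m (inl_mem_disjSum.1 hm)
    · exact k6 m (inr_mem_disjSum.1 hm)
  · rw [sum_disjSum]
    exact add_le_add h7 k7
  · show f x * g x = u x * u₂ x * _
    rw [pr_disj, pr_disj, h8, k8]
    ring

theorem BP.one (r q : ℕ) {V : ℝ} (hV : 0 ≤ V) : BP U r q V (fun _ : Cube n => 1) := by
  refine ⟨1, U.one_mem, Empty, Empty, inferInstance, inferInstance, Empty.elim, ∅, Empty.elim, Empty.elim, ∅,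
    Empty.elim, rd_empty _ _, fun m => m.elim, fun m => m.elim, rd_empty _ _, fun m => m.elim,
    fun m => m.elim, ?_, fun x => ?_⟩
  · rw [sum_empty]
    exact hV
  · show (1 : ℂ) = 1 * _
    rw [pr_empty Empty.elim Empty.elim x, one_mul, one_mul]

/-- Weights of order `q`. -/
theorem BP.root {ι : Type} [DecidableEq ι] {r q : ℕ} {V : ℝ} (hV : 0 ≤ V) {T : ι → Term n}
    {M : Finset ι} {ζ : ι → ℂ} (hM : Rd r T M) (h0 : ∀ m ∈ M, (T m).S ≠ ∅)
    (hζ : ∀ m ∈ M, ζ m ^ q = 1) : BP U r q V (pr T ζ M) := by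
  refine ⟨1, U.one_mem, ι, Empty, inferInstance, inferInstance, T, M, ζ, Empty.elim, ∅, Empty.elim, hM, h0, hζ,
    rd_empty _ _, fun m => m.elim, fun m => m.elim, ?_, fun x => ?_⟩
  · rw [sum_empty]
    exact hV
  · show pr T ζ M x = 1 * _
    rw [pr_empty, mul_one, one_mul]

/-- Weights of bounded energy. -/
theorem BP.energy {ι : Type} [DecidableEq ι] {r q : ℕ} {V : ℝ} {T : ι → Term n}
    {M : Finset ι} {ζ : ι → ℂ} (hM : Rd r T M) (h0 : ∀ m ∈ M, (T m).S ≠ ∅)
    (hζ : ∀ m ∈ M, ‖ζ m‖ = 1)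
    (hV : ∑ m ∈ M, (1 / 2 : ℝ) ^ (T m).S.card * ‖1 - ζ m‖ ^ 2 ≤ V) : BP U r q V (pr T ζ M) := by
  refine ⟨1, U.one_mem, Empty, ι, inferInstance, inferInstance, Empty.elim, ∅, Empty.elim, T, M, ζ,
    rd_empty _ _, fun m => m.elim, fun m => m.elim, hM, h0, hζ, hV, fun x => ?_⟩
  show pr T ζ M x = 1 * _
  rw [pr_empty, one_mul, one_mul]

theorem FB.mono {r r' q q' : ℕ} {V V' ε ε' : ℝ} (hr : r ≤ r') (hq : q ∣ q') (hV : V ≤ V')
    (hε : ε' ≤ ε) {Ω : Type*} [Fintype Ω] {X : Ω → Cube n} (h : FB U r' q' V' ε' X) :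
    FB U r q V ε X := fun f hf => (h f (hf.mono hr hq hV)).trans hε

theorem FB.id (r q : ℕ) (V : ℝ) {ε : ℝ} (hε : 0 ≤ ε) : FB U r q V ε (fun x : Cube n => x) := by
  intro f _
  rw [show (av fun ω : Cube n => f ω) = av f from rfl, sub_self, norm_zero]
  exact hε

/-! ## Combinations -/

section bc

variable {r r' q : ℕ} {V V' B B' : ℝ} {f g : Cube n → ℂ}

theorem BC.mono {q' : ℕ} (h : BC U r q V B f) (hr : r ≤ r') (hq : q ∣ q') (hV : V ≤ V')
    (hB : B ≤ B') : BC U r' q' V' B' f := by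
  obtain ⟨ι, hι, c, F, h1, h2, h3⟩ := h
  exact ⟨ι, hι, c, F, fun i => (h1 i).mono hr hq hV, h2.trans hB, h3⟩

theorem BC.of_eq (h : BC U r q V B f) (hfg : ∀ x, f x = g x) : BC U r q V B g := by
  obtain ⟨ι, hι, c, F, h1, h2, h3⟩ := h
  exact ⟨ι, hι, c, F, h1, h2, fun x => (hfg x).symm.trans (h3 x)⟩

theorem BC.const (r q : ℕ) {V : ℝ} (hV : 0 ≤ V) (c : ℂ) :
    BC U r q V ‖c‖ (fun _ : Cube n => c) := by
  refine ⟨Unit, inferInstance, fun _ => c, fun _ _ => 1, fun _ => BP.one r q hV, ?_, fun x => ?_⟩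
  · simp
  · simp

theorem BC.bp (h : BP U r q V f) : BC U r q V 1 f := by
  refine ⟨Unit, inferInstance, fun _ => 1, fun _ => f, fun _ => h, ?_, fun x => ?_⟩
  · simp
  · simp

theorem BC.add (h : BC U r q V B f) (h' : BC U r q V B' g) : BC U r q V (B + B') (fun x => f x + g x) := by
  obtain ⟨ι, hι, c, F, h1, h2, h3⟩ := h
  obtain ⟨ι', hι', c', F', h1', h2', h3'⟩ := h'
  refine ⟨ι ⊕ ι', inferInstance, Sum.elim c c', Sum.elim F F', ?_, ?_, fun x => ?_⟩
  · rintro (i | i)
    · exact h1 i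
    · exact h1' i
  · rw [Fintype.sum_sum_type]
    exact add_le_add h2 h2'
  · show f x + g x = _
    rw [Fintype.sum_sum_type, h3, h3']
    rfl

theorem BC.smul (a : ℂ) (h : BC U r q V B f) : BC U r q V (‖a‖ * B) (fun x => a * f x) := by
  obtain ⟨ι, hι, c, F, h1, h2, h3⟩ := h
  refine ⟨ι, hι, fun i => a * c i, F, h1, ?_, fun x => ?_⟩
  · simp only [norm_mul, ← mul_sum]
    exact mul_le_mul_of_nonneg_left h2 (norm_nonneg _)
  · show a * f x = ∑ i, a * c i * F i x
    rw [h3, mul_sum]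
    exact sum_congr rfl fun i _ => by ring

theorem BC.mul (h : BC U r q V B f) (h' : BC U r' q V' B' g) :
    BC U (r + r') q (V + V') (B * B') (fun x => f x * g x) := by
  obtain ⟨ι, hι, c, F, h1, h2, h3⟩ := h
  obtain ⟨ι', hι', c', F', h1', h2', h3'⟩ := h'
  refine ⟨ι × ι', inferInstance, fun i => c i.1 * c' i.2, fun i x => F i.1 x * F' i.2 x,
    fun i => (h1 i.1).mul (h1' i.2), ?_, fun x => ?_⟩
  · rw [Fintype.sum_prod_type]
    simp only [norm_mul, ← mul_sum, ← sum_mul]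
    exact mul_le_mul h2 h2' (sum_nonneg fun _ _ => norm_nonneg _)
      ((sum_nonneg fun _ _ => norm_nonneg _).trans h2)
  · show f x * g x = _
    rw [h3, h3', Fintype.sum_prod_type, sum_mul_sum]
    refine sum_congr rfl fun i _ => sum_congr rfl fun j _ => ?_
    ring

theorem BC.sum {ι : Type*} (hV : 0 ≤ V) (s : Finset ι) (b : ι → ℝ) (F : ι → Cube n → ℂ)
    (h : ∀ i ∈ s, BC U r q V (b i) (F i)) : BC U r q V (∑ i ∈ s, b i) (fun x => ∑ i ∈ s, F i x) := by
  classical
  induction s using Finset.induction_on with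
  | empty =>
    simp only [sum_empty]
    exact (BC.const r q hV 0).mono le_rfl dvd_rfl le_rfl (by simp)
  | insert a s ha ih =>
    simp only [sum_insert ha]
    exact (h a (mem_insert_self a s)).add (ih fun i hi => h i (mem_insert_of_mem hi))

theorem BC.prod {ι : Type*} (s : Finset ι) (F : ι → Cube n → ℂ) (h : ∀ i ∈ s, BC U r q V B (F i)) :
    BC U (s.card * r) q (s.card * V) (B ^ s.card) (fun x => ∏ i ∈ s, F i x) := by
  classical
  induction s using Finset.induction_on with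
  | empty =>
    simp only [prod_empty, card_empty, Nat.cast_zero, zero_mul, pow_zero]
    exact (BC.const 0 q le_rfl 1).mono le_rfl dvd_rfl le_rfl (by simp)
  | insert a s ha ih =>
    simp only [prod_insert ha, card_insert_of_notMem ha]
    refine ((h a (mem_insert_self a s)).mul (ih fun i hi => h i (mem_insert_of_mem hi))).mono
      (le_of_eq (by ring)) dvd_rfl (le_of_eq (by push_cast; ring)) (le_of_eq (by ring))

theorem FB.bc {ε : ℝ} (hε : 0 ≤ ε) {Ω : Type*} [Fintype Ω] {X : Ω → Cube n}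
    (hX : FB U r q V ε X) (hf : BC U r q V B f) : ‖av (fun ω => f (X ω)) - av f‖ ≤ B * ε := by
  obtain ⟨ι, hι, c, F, h1, h2, h3⟩ := hf
  have e : av (fun ω => f (X ω)) = ∑ i, c i * av (fun ω => F i (X ω)) := by
    unfold av
    simp only [h3]
    rw [sum_comm, sum_div]
    refine sum_congr rfl fun i _ => ?_
    rw [← mul_sum, mul_div_assoc]
  have e2 : av f = ∑ i, c i * av (F i) := by
    unfold av
    simp only [h3]
    rw [sum_comm, sum_div]
    refine sum_congr rfl fun i _ => ?_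
    rw [← mul_sum, mul_div_assoc]
  rw [e, e2, ← sum_sub_distrib]
  refine (norm_sum_le _ _).trans ?_
  calc ∑ i, ‖c i * av (fun ω => F i (X ω)) - c i * av (F i)‖
      ≤ ∑ i, ‖c i‖ * ε := by
        refine sum_le_sum fun i _ => ?_
        rw [← mul_sub, norm_mul]
        exact mul_le_mul_of_nonneg_left (hX (F i) (h1 i)) (norm_nonneg _)
    _ = (∑ i, ‖c i‖) * ε := by rw [sum_mul]
    _ ≤ B * ε := mul_le_mul_of_nonneg_right h2 hε

end bc

/-! ## Boolean functions of approximable tests -/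

theorem Ph_bc {K : ℕ} (F : (Fin K → Bool) → Bool) {r q : ℕ} {V C : ℝ} (hV : 0 ≤ V) (hC : 0 ≤ C)
    (G : Fin K → Cube n → ℂ) (hG : ∀ i, BC U r q V C (G i)) :
    BC U (K * r) q (K * V) (2 ^ K * (1 + C) ^ K) (fun x => Ph F (fun i => G i x)) := by
  have h1 : ∀ A : Fin K → Bool, BC U (K * r) q (K * V) ((1 + C) ^ K)
      (fun x => ((ind (F A) : ℝ) : ℂ) * ∏ i, (if A i = true then G i x else 1 - G i x)) := by
    intro A
    have h2 : ∀ i : Fin K, BC U r q V (1 + C) (fun x => (if A i = true then G i x else 1 - G i x)) := by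
      intro i
      by_cases hA : A i = true
      · simp only [hA, if_true]
        exact (hG i).mono le_rfl dvd_rfl le_rfl (by linarith)
      · simp only [hA]
        have := (BC.const (n := n) r q hV 1).add ((hG i).smul (-1))
        refine (this.of_eq fun x => ?_).mono le_rfl dvd_rfl le_rfl ?_
        · simp only [Bool.false_eq_true, if_false]
          ring
        · simp
    have h3 := BC.prod (univ : Finset (Fin K)) _ fun i _ => h2 i
    have h4 := h3.smul ((ind (F A) : ℝ) : ℂ)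
    rw [card_univ, Fintype.card_fin] at h4
    refine h4.mono le_rfl dvd_rfl le_rfl ?_
    rw [Complex.norm_real, Real.norm_of_nonneg (ind_nonneg _)]
    calc ind (F A) * (1 + C) ^ K ≤ 1 * (1 + C) ^ K :=
          mul_le_mul_of_nonneg_right (ind_le_one _) (by positivity)
      _ = _ := one_mul _
  have h2 := BC.sum (by positivity) (univ : Finset (Fin K → Bool)) (fun _ => (1 + C) ^ K) _
    fun A _ => h1 A
  refine (h2.of_eq fun x => rfl).mono le_rfl dvd_rfl le_rfl (le_of_eq ?_)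
  rw [sum_const, card_univ, Fintype.card_fun, Fintype.card_bool, Fintype.card_fin, nsmul_eq_mul]
  push_cast
  rfl

/-- Boolean functions of approximable tests are fooled. -/
theorem xbp_bool {K r q : ℕ} {V ε₀ ε₁ C : ℝ} (hε₀ : 0 ≤ ε₀) (hV : 0 ≤ V) (hC : 0 ≤ C)
    (F : (Fin K → Bool) → Bool)
    (b : Fin K → Cube n → Bool) (G : Fin K → Cube n → ℂ) (h01 : ∀ i x, ‖G i x‖ ≤ 2)
    (hG : ∀ i, BC U r q V C (G i)) {Ω : Type*} [Fintype Ω] {X : Ω → Cube n}
    (hX : FB U (K * r) q (K * V) ε₀ X)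
    (hU : ∀ i, (avg fun x => ‖((ind (b i x) : ℝ) : ℂ) - G i x‖) ≤ ε₁)
    (hXi : ∀ i, (avg fun ω => ‖((ind (b i (X ω)) : ℝ) : ℂ) - G i (X ω)‖) ≤ ε₁) :
    |(avg fun ω => ind (F fun i => b i (X ω))) - avg fun x => ind (F fun i => b i x)| ≤
      2 * (2 ^ K * (3 ^ K * (K * ε₁))) + 2 ^ K * (1 + C) ^ K * ε₀ := by
  have h1 := xfi_close F b G h01 X hXi
  have h2 := xfi_close F b G h01 (fun x : Cube n => x) hU
  have h3 := hX.bc hε₀ (Ph_bc F hV hC G hG)
  rw [← Real.norm_eq_abs, ← Complex.norm_real, Complex.ofReal_sub, Xg.xth_ofReal_avg,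
    Xg.xth_ofReal_avg]
  have e : (av fun ω => ((ind (F fun i => b i (X ω)) : ℝ) : ℂ)) -
      (av fun x : Cube n => ((ind (F fun i => b i x) : ℝ) : ℂ)) =
      ((av fun ω => ((ind (F fun i => b i (X ω)) : ℝ) : ℂ)) - av fun ω => Ph F fun i => G i (X ω)) +
      (((av fun ω => Ph F fun i => G i (X ω)) - av fun x => Ph F fun i => G i x) -
      ((av fun x : Cube n => ((ind (F fun i => b i x) : ℝ) : ℂ)) - av fun x => Ph F fun i => G i x)) := by
    ring
  rw [e]
  refine (norm_add_le _ _).trans ?_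
  refine (add_le_add h1 ((norm_sub_le _ _).trans (add_le_add h3 h2))).trans_eq ?_
  ring

/-! ## Sums in a finite abelian group -/

section abl

variable {ι : Type} [DecidableEq ι] {G : Type} [AddCommGroup G]

open Classical in
/-- The sum of the values of the true terms. -/
noncomputable def vl (T : ι → Term n) (c : ι → G) (M : Finset ι) (x : Cube n) : G :=
  ∑ m ∈ M, if Tr (T m).S (T m).a x then c m else 0

omit [DecidableEq ι] in
theorem map_vl (T : ι → Term n) (c : ι → G) (M : Finset ι) (χ : AddChar G ℂ)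
    (x : Cube n) : χ (vl T c M x) = pr T (fun m => χ (c m)) M x := by
  classical
  unfold vl pr
  induction M using Finset.induction_on with
  | empty => rw [sum_empty, prod_empty, AddChar.map_zero_eq_one]
  | insert a s ha ih =>
    rw [sum_insert ha, prod_insert ha, AddChar.map_add_eq_mul, ih]
    congr 1
    split_ifs
    · rfl
    · exact AddChar.map_zero_eq_one χ

omit [DecidableEq ι] in
/-- A test for a value in a finite group, all characters of which are products. -/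
theorem bc_char [Fintype G] {r q : ℕ} {V : ℝ} (hV : 0 ≤ V) (v : Cube n → G)
    (hv : ∀ χ : AddChar G ℂ, BP U r q V fun x => χ (v x))
    (A : Finset G) : BC U r q V A.card (fun x => ((one (v x ∈ A) : ℝ) : ℂ)) := by
  classical
  have hc : (Fintype.card G : ℂ) ≠ 0 := by exact_mod_cast Fintype.card_ne_zero
  have h1 : ∀ a ∈ A, BC U r q V 1 (fun x => ((one (v x = a) : ℝ) : ℂ)) := by
    intro a _
    refine ⟨AddChar G ℂ, inferInstance, fun χ => χ (-a) / (Fintype.card G : ℂ),
      fun χ x => χ (v x), hv, ?_, fun x => ?_⟩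
    · have : ∀ χ : AddChar G ℂ, ‖χ (-a) / (Fintype.card G : ℂ)‖ = 1 / (Fintype.card G : ℝ) := by
        intro χ
        rw [norm_div, Complex.norm_natCast, AddChar.norm_apply]
      simp only [this]
      rw [sum_const, card_univ, AddChar.card_eq, nsmul_eq_mul, mul_one_div_cancel]
      exact_mod_cast Fintype.card_ne_zero
    · have e : ∀ χ : AddChar G ℂ, χ (-a) / (Fintype.card G : ℂ) * χ (v x) =
          χ (v x - a) / (Fintype.card G : ℂ) := by
        intro χ
        rw [sub_eq_add_neg, AddChar.map_add_eq_mul]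
        ring
      rw [sum_congr rfl fun χ _ => e χ, ← sum_div, AddChar.sum_apply_eq_ite]
      show ((one (v x = a) : ℝ) : ℂ) = _
      by_cases h : v x = a
      · rw [Dnf.one_true h, if_pos (sub_eq_zero.2 h)]
        push_cast
        field_simp
      · rw [Dnf.one_false h, if_neg (fun h' => h (sub_eq_zero.1 h'))]
        simp
  have h2 := BC.sum hV A (fun _ => 1) _ h1
  refine (h2.of_eq fun x => ?_).mono le_rfl dvd_rfl le_rfl (by simp)
  rw [← Complex.ofReal_sum]
  congr 1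
  by_cases h : v x ∈ A
  · rw [Dnf.one_true h, sum_eq_single (v x)]
    · exact Dnf.one_true rfl
    · intro a _ ha
      exact Dnf.one_false (Ne.symm ha)
    · intro h'
      exact absurd h h'
  · rw [Dnf.one_false h]
    refine sum_eq_zero fun a ha => Dnf.one_false fun h' => h ?_
    rw [h']
    exact ha

theorem bc_abl [Fintype G] {r q : ℕ} {V : ℝ} (hV : 0 ≤ V) (hq : ∀ y : G, q • y = 0)
    {T : ι → Term n} (c : ι → G) {M : Finset ι} (hM : Rd r T M) (h0 : ∀ m ∈ M, (T m).S ≠ ∅)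
    (A : Finset G) : BC U r q V A.card (fun x => ((one (vl T c M x ∈ A) : ℝ) : ℂ)) := by
  refine bc_char hV (vl T c M) (fun χ => ?_) A
  have h1 : (fun x => χ (vl T c M x)) = pr T (fun m => χ (c m)) M := by
    funext x
    exact map_vl T c M χ x
  rw [h1]
  refine BP.root hV hM h0 fun m _ => ?_
  rw [← AddChar.map_nsmul_eq_pow, hq, AddChar.map_zero_eq_one]

omit [DecidableEq ι] in
/-- The terms without variables contribute a constant. -/
theorem vl_ne (T : ι → Term n) (c : ι → G) (M : Finset ι) :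
    ∃ κ : G, ∀ x : Cube n, vl T c M x = κ + vl T c (M.filter fun m => (T m).S ≠ ∅) x := by
  classical
  refine ⟨∑ m ∈ M.filter (fun m => ¬ (T m).S ≠ ∅), c m, fun x => ?_⟩
  unfold vl
  rw [← sum_filter_add_sum_filter_not M (fun m => (T m).S ≠ ∅), add_comm]
  congr 1
  refine sum_congr rfl fun m hm => ?_
  have h1 : (T m).S = ∅ := not_not.1 (mem_filter.1 hm).2
  rw [if_pos]
  intro i hi
  rw [h1] at hi
  exact absurd hi (notMem_empty i)

end abl

end Pool.Agent.MP_ca1109_lc.Xt
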