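import Pool.Agent.MP_ca1109_lc.Xl.Defs
import Pool.Agent.MP_ca1109_lc.Xp.QDefs

/-!
# Gates over terms (conjunctions of literals) with bounded read: patterns and private variables

`T : ι → Term n` is a family of terms, `A` the set of all indices, `M ⊆ A` the main ones.

* `Gap g T ζ M`: every product over some terms of `M` through `i` changes by at least `g` at some
  point, if the bit `i` is flipped.
* `Pat K T M Q D`: `Q m i` are the variables of the pattern for the term `m` and its variable `i`,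
  `D m` all relevant variables.
* `Priv T A η i x`: `i` is the last element in `η` of every term which is not falsified off `η`.
* `PE`, `PX`, `Pv`: the pattern occurs at `i`; `cw`: the total weight of the terms with a pattern.
* `Piv`: if the pattern occurs at `i`, then `i` is private, and the product changes if the bit `i`
  is flipped.
-/

namespace Pool.Agent.MP_ca1109_lc.Xt

open Finset Pool.Agent.MP_ca1109_lc.Mpg Pool.Agent.MP_ca1109_lc.Agp
open Pool.Agent.MP_ca1109_lc.Dnf (Cube ch one E Term)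
open Pool.Agent.MP_ca1109_lc.Xp (fl later)
open Pool.Agent.MP_ca1109_lc.Xl (Tr pr Rd Fam)

variable {n : ℕ} {ι : Type}

/-- Every product over some terms of `M` through `i` changes by at least `g` at some point, if the
bit `i` is flipped. -/
def Gap (g : ℝ) (T : ι → Term n) (ζ : ι → ℂ) (M : Finset ι) : Prop :=
  ∀ (i : Fin n) (R : Finset ι), R ⊆ M → R.Nonempty → (∀ m ∈ R, i ∈ (T m).S) →
    ∃ x : Cube n, g ≤ ‖pr T ζ R (fl i x) - pr T ζ R x‖

/-- The pattern for the term `m` and its variable `i` has the variables `Q m i`; `D m` are all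
relevant variables. -/
structure Pat (K : ℕ) (T : ι → Term n) (M : Finset ι) (Q : ι → Fin n → Finset (Fin n))
    (D : ι → Finset (Fin n)) : Prop where
  sub : ∀ m ∈ M, ∀ i ∈ (T m).S, (T m).S ⊆ Q m i
  ext : ∀ m ∈ M, ∀ i ∈ (T m).S, (Q m i \ (T m).S).card ≤ K
  dom : ∀ m ∈ M, ∀ i ∈ (T m).S, Q m i ⊆ D m
  card : ∀ m ∈ M, (D m).card ≤ K * (T m).S.card
  read : ∀ v : Fin n, (M.filter fun m => v ∈ D m).card ≤ K

/-- `i` is the last element in `η` of every term which is not falsified off `η`. -/
def Priv (T : ι → Term n) (A : Finset ι) (η : Finset (Fin n)) (i : Fin n) (x : Cube n) : Prop :=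
  i ∈ η ∧ ∀ m ∈ A, i ∈ (T m).S → Tr ((T m).S \ η) (T m).a x → ∀ u ∈ (T m).S, u ∈ η → u ≤ i

/-- `i` is in `η`, the later variables of `m` and the other variables of the pattern are not. -/
def PE (T : ι → Term n) (Q : ι → Fin n → Finset (Fin n)) (m : ι) (i : Fin n)
    (η : Finset (Fin n)) : Prop :=
  i ∈ η ∧ Disjoint η (later (T m).S i ∪ (Q m i \ (T m).S))

/-- The bits have the values of the pattern. -/
def PX (Q : ι → Fin n → Finset (Fin n)) (a : ι → Fin n → Cube n) (m : ι) (i : Fin n)
    (x : Cube n) : Prop := Tr ((Q m i).erase i) (a m i) x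

/-- The pattern of `m` occurs. -/
def Pv (T : ι → Term n) (Q : ι → Fin n → Finset (Fin n)) (a : ι → Fin n → Cube n) (m : ι)
    (η : Finset (Fin n)) (x : Cube n) : Prop :=
  ∃ i ∈ (T m).S, PE T Q m i η ∧ PX Q a m i x

/-- The total weight of the terms whose pattern occurs. -/
noncomputable def cw (c : ι → ℝ) (T : ι → Term n) (M : Finset ι)
    (Q : ι → Fin n → Finset (Fin n)) (a : ι → Fin n → Cube n) (η : Finset (Fin n))
    (x : Cube n) : ℝ := ∑ m ∈ M, c m * one (Pv T Q a m η x)

/-- The probability of `Pv` in the ideal case. -/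
noncomputable def aw (p : ℝ) (T : ι → Term n) (Q : ι → Fin n → Finset (Fin n)) (m : ι) : ℝ :=
  ∑ i ∈ (T m).S, p * (1 - p) ^ ((later (T m).S i).card + (Q m i \ (T m).S).card) *
    (1 / 2) ^ ((T m).S.card - 1 + (Q m i \ (T m).S).card)

/-- The weighted mass at rate `p`. -/
noncomputable def mw (p : ℝ) (c : ι → ℝ) (T : ι → Term n) (M : Finset ι) : ℝ :=
  ∑ m ∈ M, c m * ((1 / 2 : ℝ) ^ (T m).S.card * (1 - (1 - p) ^ (T m).S.card))

/-- The weighted mass of the terms which meet `η`. -/
noncomputable def hw (c : ι → ℝ) (T : ι → Term n) (M : Finset ι) (η : Finset (Fin n)) : ℝ :=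
  ∑ m ∈ M, c m * ((1 / 2 : ℝ) ^ (T m).S.card * one (¬ Disjoint (T m).S η))

/-- The constant for the near pairs. -/
def NC (K : ℕ) : ℝ := 4 * ((K : ℝ) + 1) ^ 3

/-- If the pattern of `m` occurs at `i`, then `i` is private, and the product changes if the bit
`i` is flipped. -/
structure Piv (r : ℕ) (T : ι → Term n) (ζ : ι → ℂ) (A M : Finset ι) (c : ι → ℝ)
    (Q : ι → Fin n → Finset (Fin n)) (a : ι → Fin n → Cube n) : Prop where
  priv : ∀ m ∈ M, ∀ i ∈ (T m).S, ∀ (η : Finset (Fin n)) (x : Cube n), PE T Q m i η →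
    PX Q a m i x → Priv T A η i x
  jump : ∀ m ∈ M, ∀ i ∈ (T m).S, ∀ x : Cube n, PX Q a m i x →
    4 * (r : ℝ) * c m ≤ ‖pr T ζ A (fl i x) - pr T ζ A x‖ ^ 2

/-- The sum of the weights of the true terms. -/
noncomputable def st (T : ι → Term n) (w : ι → ℤ) (M : Finset ι) (x : Cube n) : ℤ :=
  open Classical in ∑ m ∈ M, if Tr (T m).S (T m).a x then w m else 0

/-- No partial sum over terms at `i` is independent of the bit `i`. -/
def RedZ (T : ι → Term n) (w : ι → ℤ) (M : Finset ι) : Prop :=
  ∀ (i : Fin n) (R : Finset ι), R ⊆ M → R.Nonempty → (∀ m ∈ R, i ∈ (T m).S) →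
    ∃ x : Cube n, st T w R (fl i x) ≠ st T w R x

/-- The smallest distance of a root of unity of order `q` from `1`. -/
noncomputable def gq1 (q : ℕ) : ℝ := ‖1 - Complex.exp (2 * Real.pi * Complex.I / q)‖

end Pool.Agent.MP_ca1109_lc.Xt
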