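import Pool.Agent.MP_ca1109_lc.Xt.Defs

/-!
# The near pairs
-/

namespace Pool.Agent.MP_ca1109_lc.Xt

open Finset
open Pool.Agent.MP_ca1109_lc.Dnf (Term)
open Pool.Agent.MP_ca1109_lc.Xl (Rd Fam)

variable {n : ℕ} {ι : Type} {r K : ℕ} {T : ι → Term n} {M : Finset ι}
  {Q : ι → Fin n → Finset (Fin n)} {D : ι → Finset (Fin n)}

private theorem xns_two {j : ℕ} (hj : 1 ≤ j) : 2 * j ≤ 2 ^ j := by
  obtain ⟨k, rfl⟩ : ∃ k, j = k + 1 := ⟨j - 1, by omega⟩
  clear hj
  induction k with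
  | zero => norm_num
  | succ k ih =>
    rw [pow_succ]
    have : 1 ≤ 2 ^ (k + 1) := Nat.one_le_two_pow
    omega

theorem xns_inter (hr : Rd r T M) (m : Finset (Fin n)) :
    ∑ m' ∈ M, (m ∩ (T m').S).card ≤ r * m.card := by
  classical
  have h1 : ∑ m' ∈ M, (m ∩ (T m').S).card = ∑ i ∈ m, (M.filter fun m' => i ∈ (T m').S).card := by
    simp_rw [Finset.card_eq_sum_ones, Finset.sum_filter, ← Finset.filter_mem_eq_inter,
      Finset.sum_filter]
    exact Finset.sum_comm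
  rw [h1]
  calc ∑ i ∈ m, (M.filter fun m' => i ∈ (T m').S).card ≤ ∑ _i ∈ m, r := Finset.sum_le_sum fun i _ => hr i
    _ = r * m.card := by rw [Finset.sum_const, smul_eq_mul, mul_comm]

theorem xns_card (hQ : Pat K T M Q D) {m : ι} (hm : m ∈ M) :
    (M.filter fun m' => ¬ Disjoint (D m) (D m')).card ≤ K * (T m).S.card * K := by
  classical
  have h1 : (M.filter fun m' => ¬ Disjoint (D m) (D m')) ⊆
      (D m).biUnion fun v => M.filter fun m' => v ∈ D m' := by
    intro m' hm'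
    rw [Finset.mem_filter, Finset.not_disjoint_iff] at hm'
    obtain ⟨h2, v, hv, hv'⟩ := hm'
    exact Finset.mem_biUnion.2 ⟨v, hv, Finset.mem_filter.2 ⟨h2, hv'⟩⟩
  calc (M.filter fun m' => ¬ Disjoint (D m) (D m')).card ≤
        ((D m).biUnion fun v => M.filter fun m' => v ∈ D m').card :=
        Finset.card_le_card h1
    _ ≤ ∑ v ∈ D m, (M.filter fun m' => v ∈ D m').card := Finset.card_biUnion_le
    _ ≤ ∑ _v ∈ D m, K := Finset.sum_le_sum fun v _ => hQ.read v
    _ = (D m).card * K := by rw [Finset.sum_const, smul_eq_mul]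
    _ ≤ K * (T m).S.card * K := Nat.mul_le_mul_right _ (hQ.card m hm)

theorem near_sum (hM : Rd r T M) (hrK : r ≤ K) (hQ : Pat K T M Q D) {m : ι} (hm : m ∈ M)
    (hm0 : (T m).S.Nonempty) :
    ∑ m' ∈ M.filter (fun m' => (T m).S.card ≤ (T m').S.card ∧ ¬ Disjoint (D m) (D m')),
      (1 / 2 : ℝ) ^ ((T m').S \ (T m).S).card ≤ NC K := by
  classical
  obtain ⟨Nr, hNr⟩ : ∃ Nr, Nr = M.filter
      (fun m' => (T m).S.card ≤ (T m').S.card ∧ ¬ Disjoint (D m) (D m')) := ⟨_, rfl⟩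
  rw [← hNr]
  have hm1 : 1 ≤ (T m).S.card := Finset.card_pos.2 hm0
  have hA : ∑ m' ∈ Nr.filter (fun m' => (T m).S.card < 2 * ((T m).S ∩ (T m').S).card), (1 / 2 : ℝ) ^ ((T m').S \ (T m).S).card ≤
      2 * r := by
    obtain ⟨B, hB⟩ : ∃ B, B = Nr.filter fun m' => (T m).S.card < 2 * ((T m).S ∩ (T m').S).card := ⟨_, rfl⟩
    rw [← hB]
    have h1 : B.card * (T m).S.card ≤ 2 * (r * (T m).S.card) := by
      calc B.card * (T m).S.card = ∑ _m' ∈ B, (T m).S.card := by rw [Finset.sum_const, smul_eq_mul]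
        _ ≤ ∑ m' ∈ B, 2 * ((T m).S ∩ (T m').S).card := Finset.sum_le_sum fun m' hm' => by
            rw [hB] at hm'
            exact (Finset.mem_filter.1 hm').2.le
        _ = 2 * ∑ m' ∈ B, ((T m).S ∩ (T m').S).card := by rw [Finset.mul_sum]
        _ ≤ 2 * ∑ m' ∈ M, ((T m).S ∩ (T m').S).card := by
            refine Nat.mul_le_mul_left 2 (Finset.sum_le_sum_of_subset fun m' hm' => ?_)
            rw [hB, hNr] at hm'
            exact (Finset.mem_filter.1 (Finset.mem_filter.1 hm').1).1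
        _ ≤ 2 * (r * (T m).S.card) := Nat.mul_le_mul_left 2 (xns_inter hM (T m).S)
    have h2 : B.card ≤ 2 * r := by
      refine Nat.le_of_mul_le_mul_right (c := (T m).S.card) ?_ hm1
      calc B.card * (T m).S.card ≤ 2 * (r * (T m).S.card) := h1
        _ = 2 * r * (T m).S.card := by ring
    calc ∑ m' ∈ B, (1 / 2 : ℝ) ^ ((T m').S \ (T m).S).card ≤ ∑ _m' ∈ B, (1 : ℝ) :=
          Finset.sum_le_sum fun m' _ => pow_le_one₀ (by norm_num) (by norm_num)
      _ = B.card := by rw [Finset.sum_const, nsmul_eq_mul, mul_one]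
      _ ≤ 2 * r := by exact_mod_cast h2
  have hO : ∑ m' ∈ Nr.filter (fun m' => ¬ (T m).S.card < 2 * ((T m).S ∩ (T m').S).card),
      (1 / 2 : ℝ) ^ ((T m').S \ (T m).S).card ≤ K * K := by
    obtain ⟨O, hO⟩ : ∃ O, O = Nr.filter fun m' => ¬ (T m).S.card < 2 * ((T m).S ∩ (T m').S).card := ⟨_, rfl⟩
    rw [← hO]
    obtain ⟨j, hj, hj2⟩ : ∃ j, (T m).S.card ≤ 2 * j ∧ 2 * j ≤ (T m).S.card + 1 :=
      ⟨((T m).S.card + 1) / 2, by omega, by omega⟩
    have hj1 : 1 ≤ j := by omega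
    have h1 : ∀ m' ∈ O, (1 / 2 : ℝ) ^ ((T m').S \ (T m).S).card ≤ (1 / 2) ^ j := by
      intro m' hm'
      rw [hO, Finset.mem_filter, hNr, Finset.mem_filter] at hm'
      refine pow_le_pow_of_le_one (by norm_num) (by norm_num) ?_
      have h2 := Finset.card_sdiff_add_card_inter (T m').S (T m).S
      rw [Finset.inter_comm (T m').S (T m).S] at h2
      omega
    have h2 : O.card ≤ K * (T m).S.card * K := by
      refine (Finset.card_le_card fun m' hm' => ?_).trans (xns_card hQ hm)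
      rw [hO, hNr] at hm'
      have h3 := Finset.mem_filter.1 (Finset.mem_filter.1 hm').1
      exact Finset.mem_filter.2 ⟨h3.1, h3.2.2⟩
    have h3 : ((T m).S.card : ℝ) * (1 / 2) ^ j ≤ 1 := by
      have h4 : ((T m).S.card : ℝ) ≤ 2 ^ j := by
        have := xns_two hj1
        exact_mod_cast hj.trans this
      rw [one_div, inv_pow, ← div_eq_mul_inv, div_le_one (by positivity)]
      exact h4
    calc ∑ m' ∈ O, (1 / 2 : ℝ) ^ ((T m').S \ (T m).S).card ≤ ∑ _m' ∈ O, (1 / 2 : ℝ) ^ j :=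
          Finset.sum_le_sum h1
      _ = O.card * (1 / 2) ^ j := by rw [Finset.sum_const, nsmul_eq_mul]
      _ ≤ ((K * (T m).S.card * K : ℕ) : ℝ) * (1 / 2) ^ j :=
          mul_le_mul_of_nonneg_right (by exact_mod_cast h2) (by positivity)
      _ = K * K * ((T m).S.card * (1 / 2) ^ j) := by push_cast; ring
      _ ≤ K * K * 1 := mul_le_mul_of_nonneg_left h3 (by positivity)
      _ = K * K := mul_one _
  have hsum := Finset.sum_filter_add_sum_filter_not Nr (fun m' => (T m).S.card < 2 * ((T m).S ∩ (T m').S).card)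
    (fun m' => (1 / 2 : ℝ) ^ ((T m').S \ (T m).S).card)
  rw [← hsum]
  unfold NC
  have hr0 : (0 : ℝ) ≤ r := Nat.cast_nonneg r
  have hr1 : (r : ℝ) ≤ K := by exact_mod_cast hrK
  have hK0 : (0 : ℝ) ≤ K := Nat.cast_nonneg K
  nlinarith [mul_nonneg hK0 hK0, mul_nonneg (mul_nonneg hK0 hK0) hK0]

end Pool.Agent.MP_ca1109_lc.Xt
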