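import Pool.Agent.MP_ca1109_lc.Xt.Defs
import Pool.Agent.MP_ca1109_lc.Xt.NS

/-!
# The patterns
-/

namespace Pool.Agent.MP_ca1109_lc.Xt

open Finset Pool.Agent.MP_ca1109_lc.Mpg Pool.Agent.MP_ca1109_lc.Agp
open Pool.Agent.MP_ca1109_lc.Dnf (Cube ch one E Term)
open Pool.Agent.MP_ca1109_lc.Xp (fl later)
open Pool.Agent.MP_ca1109_lc.Xl (Tr pr Rd Fam)

variable {n : ℕ} {ι : Type}

/-! ## Successors and domains -/

/-- The successors of the elements of `X` in the terms. -/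
def ki_nx (σ : Finset (Fin n) → Equiv.Perm (Fin n)) (T : ι → Term n) (A : Finset ι)
    (X : Finset (Fin n)) : Finset (Fin n) :=
  X ∪ A.biUnion fun m => (X ∩ (T m).S).image (σ (T m).S)

/-- The variables of `m` and of the near terms. -/
def ki_D0 (r : ℕ) (T : ι → Term n) (A : Finset ι) (m : ι) : Finset (Fin n) :=
  (T m).S ∪ (A.filter fun m' => ¬ Disjoint (T m).S (T m').S ∧
    ((T m').S \ (T m).S).card ≤ r ^ 2).biUnion fun m' => (T m').S

section
variable {σ : Finset (Fin n) → Equiv.Perm (Fin n)} {T : ι → Term n} {A M : Finset ι} {r : ℕ}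

theorem ki_sub_nx (X : Finset (Fin n)) : X ⊆ ki_nx σ T A X := subset_union_left

theorem ki_nx_mono {X Y : Finset (Fin n)} (h : X ⊆ Y) : ki_nx σ T A X ⊆ ki_nx σ T A Y := by
  unfold ki_nx
  exact union_subset_union h (biUnion_mono fun m _ => image_subset_image
    (inter_subset_inter_right h))

theorem ki_it_mono {X Y : Finset (Fin n)} (h : X ⊆ Y) (k : ℕ) :
    (ki_nx σ T A)^[k] X ⊆ (ki_nx σ T A)^[k] Y := by
  induction k generalizing X Y with
  | zero => exact h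
  | succ k ih =>
    rw [Function.iterate_succ_apply, Function.iterate_succ_apply]
    exact ih (ki_nx_mono h)

theorem ki_it_le {k l : ℕ} (h : k ≤ l) (X : Finset (Fin n)) :
    (ki_nx σ T A)^[k] X ⊆ (ki_nx σ T A)^[l] X := by
  induction l, h using Nat.le_induction with
  | base => exact Subset.rfl
  | succ l _ ih =>
    rw [Function.iterate_succ_apply']
    exact ih.trans (ki_sub_nx _)

theorem ki_nx_card (hA : Rd r T A) (X : Finset (Fin n)) :
    (ki_nx σ T A X).card ≤ (1 + r) * X.card := by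
  unfold ki_nx
  have h1 : (A.biUnion fun m => (X ∩ (T m).S).image (σ (T m).S)).card ≤
      ∑ m ∈ A, (X ∩ (T m).S).card :=
    card_biUnion_le.trans (sum_le_sum fun m _ => card_image_le)
  have h2 := xns_inter hA X
  have h3 := card_union_le X (A.biUnion fun m => (X ∩ (T m).S).image (σ (T m).S))
  nlinarith

theorem ki_it_card (hA : Rd r T A) (X : Finset (Fin n)) (k : ℕ) :
    ((ki_nx σ T A)^[k] X).card ≤ (1 + r) ^ k * X.card := by
  induction k with
  | zero => simp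
  | succ k ih =>
    rw [Function.iterate_succ_apply']
    calc (ki_nx σ T A ((ki_nx σ T A)^[k] X)).card ≤ (1 + r) * ((ki_nx σ T A)^[k] X).card :=
          ki_nx_card hA _
      _ ≤ (1 + r) * ((1 + r) ^ k * X.card) := Nat.mul_le_mul_left _ ih
      _ = (1 + r) ^ (k + 1) * X.card := by ring

theorem ki_D0_card (hA : Rd r T A) (m : ι) :
    (ki_D0 r T A m).card ≤ (1 + r ^ 3) * (T m).S.card := by
  classical
  obtain ⟨Nr, hNr⟩ : ∃ Nr, Nr = A.filter fun m' => ¬ Disjoint (T m).S (T m').S ∧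
    ((T m').S \ (T m).S).card ≤ r ^ 2 := ⟨_, rfl⟩
  have h0 : ki_D0 r T A m = (T m).S ∪ Nr.biUnion fun m' => (T m').S \ (T m).S := by
    unfold ki_D0
    rw [← hNr]
    ext u
    simp only [mem_union, mem_biUnion, mem_sdiff]
    constructor
    · rintro (h | ⟨m', h1, h2⟩)
      · exact Or.inl h
      · by_cases h3 : u ∈ (T m).S
        · exact Or.inl h3
        · exact Or.inr ⟨m', h1, h2, h3⟩
    · rintro (h | ⟨m', h1, h2, -⟩)
      · exact Or.inl h
      · exact Or.inr ⟨m', h1, h2⟩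
  have h1 : (Nr.biUnion fun m' => (T m').S \ (T m).S).card ≤ Nr.card * r ^ 2 := by
    refine card_biUnion_le.trans ?_
    calc ∑ m' ∈ Nr, ((T m').S \ (T m).S).card ≤ ∑ _m' ∈ Nr, r ^ 2 := by
          refine sum_le_sum fun m' hm' => ?_
          rw [hNr] at hm'
          exact (mem_filter.1 hm').2.2
      _ = Nr.card * r ^ 2 := by rw [sum_const, smul_eq_mul]
  have h2 : Nr.card ≤ r * (T m).S.card := by
    calc Nr.card = ∑ _m' ∈ Nr, 1 := by rw [card_eq_sum_ones]
      _ ≤ ∑ m' ∈ Nr, ((T m).S ∩ (T m').S).card := by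
          refine sum_le_sum fun m' hm' => ?_
          rw [hNr] at hm'
          have := (mem_filter.1 hm').2.1
          rw [not_disjoint_iff] at this
          obtain ⟨u, hu, hu'⟩ := this
          exact card_pos.2 ⟨u, mem_inter.2 ⟨hu, hu'⟩⟩
      _ ≤ ∑ m' ∈ A, ((T m).S ∩ (T m').S).card := by
          refine sum_le_sum_of_subset ?_
          rw [hNr]
          exact filter_subset _ _
      _ ≤ r * (T m).S.card := xns_inter hA _
  rw [h0]
  refine (card_union_le _ _).trans ?_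
  calc (T m).S.card + (Nr.biUnion fun m' => (T m').S \ (T m).S).card
      ≤ (T m).S.card + r * (T m).S.card * r ^ 2 :=
        Nat.add_le_add_left (h1.trans (Nat.mul_le_mul_right _ h2)) _
    _ = (1 + r ^ 3) * (T m).S.card := by ring

/-- Few terms `m` have `m'` as a near term. -/
theorem ki_near_few (hM : Rd r T M) (m' : ι) :
    (M.filter fun m => ¬ Disjoint (T m).S (T m').S ∧
      ((T m').S \ (T m).S).card ≤ r ^ 2).card ≤ r * (r ^ 2 + 1) := by
  classical
  obtain ⟨B, hB⟩ : ∃ B, B = M.filter fun m => ¬ Disjoint (T m).S (T m').S ∧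
    ((T m').S \ (T m).S).card ≤ r ^ 2 := ⟨_, rfl⟩
  rw [← hB]
  rcases B.eq_empty_or_nonempty with h0 | ⟨m1, hm1⟩
  · rw [h0, card_empty]
    exact Nat.zero_le _
  · have hs : 0 < (T m').S.card := by
      rw [hB] at hm1
      have := (mem_filter.1 hm1).2.1
      rw [not_disjoint_iff] at this
      obtain ⟨u, -, hu'⟩ := this
      exact card_pos.2 ⟨u, hu'⟩
    refine Nat.le_of_mul_le_mul_right (c := (T m').S.card) ?_ hs
    calc B.card * (T m').S.card = ∑ _m ∈ B, (T m').S.card := by rw [sum_const, smul_eq_mul]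
      _ ≤ ∑ m ∈ B, (r ^ 2 + 1) * ((T m').S ∩ (T m).S).card := by
          refine sum_le_sum fun m hm => ?_
          rw [hB] at hm
          obtain ⟨-, h1, h2⟩ := mem_filter.1 hm
          rw [not_disjoint_iff] at h1
          obtain ⟨u, hu, hu'⟩ := h1
          have h3 : 1 ≤ ((T m').S ∩ (T m).S).card := card_pos.2 ⟨u, mem_inter.2 ⟨hu', hu⟩⟩
          have h4 := card_sdiff_add_card_inter (T m').S (T m).S
          nlinarith
      _ = (r ^ 2 + 1) * ∑ m ∈ B, ((T m').S ∩ (T m).S).card := by rw [mul_sum]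
      _ ≤ (r ^ 2 + 1) * ∑ m ∈ M, ((T m').S ∩ (T m).S).card := by
          refine Nat.mul_le_mul_left _ (sum_le_sum_of_subset ?_)
          rw [hB]
          exact filter_subset _ _
      _ ≤ (r ^ 2 + 1) * (r * (T m').S.card) := Nat.mul_le_mul_left _ (xns_inter hM _)
      _ = r * (r ^ 2 + 1) * (T m').S.card := by ring

theorem ki_D0_read (hA : Rd r T A) (hMA : M ⊆ A) (v : Fin n) :
    (M.filter fun m => v ∈ ki_D0 r T A m).card ≤ r + r * (r * (r ^ 2 + 1)) := by
  classical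
  have hM : Rd r T M := fun i => (card_le_card (filter_subset_filter _ hMA)).trans (hA i)
  have h1 : (M.filter fun m => v ∈ ki_D0 r T A m) ⊆ (M.filter fun m => v ∈ (T m).S) ∪
      (A.filter fun m' => v ∈ (T m').S).biUnion fun m' => M.filter fun m =>
        ¬ Disjoint (T m).S (T m').S ∧ ((T m').S \ (T m).S).card ≤ r ^ 2 := by
    intro m hm
    obtain ⟨h1, h2⟩ := mem_filter.1 hm
    unfold ki_D0 at h2
    rcases mem_union.1 h2 with h3 | h3
    · exact mem_union_left _ (mem_filter.2 ⟨h1, h3⟩)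
    · obtain ⟨m', h4, h5⟩ := mem_biUnion.1 h3
      obtain ⟨h6, h7⟩ := mem_filter.1 h4
      exact mem_union_right _ (mem_biUnion.2 ⟨m', mem_filter.2 ⟨h6, h5⟩, mem_filter.2 ⟨h1, h7⟩⟩)
  refine (card_le_card h1).trans ((card_union_le _ _).trans (Nat.add_le_add (hM v) ?_))
  calc _ ≤ ∑ m' ∈ A.filter fun m' => v ∈ (T m').S, (M.filter fun m =>
        ¬ Disjoint (T m).S (T m').S ∧ ((T m').S \ (T m).S).card ≤ r ^ 2).card := card_biUnion_le
    _ ≤ ∑ _m' ∈ A.filter fun m' => v ∈ (T m').S, r * (r ^ 2 + 1) :=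
        sum_le_sum fun m' _ => ki_near_few hM m'
    _ = (A.filter fun m' => v ∈ (T m').S).card * (r * (r ^ 2 + 1)) := by
        rw [sum_const, smul_eq_mul]
    _ ≤ r * (r * (r ^ 2 + 1)) := Nat.mul_le_mul_right _ (hA v)

theorem ki_nx_read (hσ : ∀ s, (σ s).IsCycleOn s) (hA : Rd r T A) {F : ι → Finset (Fin n)} {K : ℕ}
    (hF : ∀ v, (M.filter fun m => v ∈ F m).card ≤ K) (v : Fin n) :
    (M.filter fun m => v ∈ ki_nx σ T A (F m)).card ≤ (1 + r) * K := by
  classical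
  have h1 : (M.filter fun m => v ∈ ki_nx σ T A (F m)) ⊆ (M.filter fun m => v ∈ F m) ∪
      (A.filter fun m' => v ∈ (T m').S).biUnion fun m' => M.filter fun m =>
        (σ (T m').S).symm v ∈ F m := by
    intro m hm
    obtain ⟨h1, h2⟩ := mem_filter.1 hm
    unfold ki_nx at h2
    rcases mem_union.1 h2 with h3 | h3
    · exact mem_union_left _ (mem_filter.2 ⟨h1, h3⟩)
    · obtain ⟨m', h4, h5⟩ := mem_biUnion.1 h3
      obtain ⟨u, hu, rfl⟩ := mem_image.1 h5
      obtain ⟨hu1, hu2⟩ := mem_inter.1 hu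
      refine mem_union_right _ (mem_biUnion.2 ⟨m', mem_filter.2 ⟨h4, ?_⟩, mem_filter.2 ⟨h1, ?_⟩⟩)
      · exact mem_coe.1 ((hσ (T m').S).1.mapsTo (mem_coe.2 hu2))
      · rw [Equiv.symm_apply_apply]
        exact hu1
  refine (card_le_card h1).trans ((card_union_le _ _).trans ?_)
  have h2 : ((A.filter fun m' => v ∈ (T m').S).biUnion fun m' => M.filter fun m =>
      (σ (T m').S).symm v ∈ F m).card ≤ r * K := by
    calc _ ≤ ∑ m' ∈ A.filter fun m' => v ∈ (T m').S, (M.filter fun m =>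
          (σ (T m').S).symm v ∈ F m).card := card_biUnion_le
      _ ≤ ∑ _m' ∈ A.filter fun m' => v ∈ (T m').S, K := sum_le_sum fun m' _ => hF _
      _ = (A.filter fun m' => v ∈ (T m').S).card * K := by rw [sum_const, smul_eq_mul]
      _ ≤ r * K := Nat.mul_le_mul_right _ (hA v)
  have h3 := hF v
  nlinarith

theorem ki_it_read (hσ : ∀ s, (σ s).IsCycleOn s) (hA : Rd r T A) {F : ι → Finset (Fin n)} {K : ℕ}
    (hF : ∀ v, (M.filter fun m => v ∈ F m).card ≤ K) (k : ℕ) (v : Fin n) :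
    (M.filter fun m => v ∈ (ki_nx σ T A)^[k] (F m)).card ≤ (1 + r) ^ k * K := by
  induction k generalizing v with
  | zero => simpa using hF v
  | succ k ih =>
    have h := ki_nx_read (F := fun m => (ki_nx σ T A)^[k] (F m)) hσ hA ih v
    calc (M.filter fun m => v ∈ (ki_nx σ T A)^[k + 1] (F m)).card
        = (M.filter fun m => v ∈ ki_nx σ T A ((ki_nx σ T A)^[k] (F m))).card := by
          simp only [Function.iterate_succ_apply']
      _ ≤ (1 + r) * ((1 + r) ^ k * K) := h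
      _ = (1 + r) ^ (k + 1) * K := by ring

/-! ## Killers -/

/-- An element of `S` in `Q` whose successor is not in `Q`. -/
theorem ki_cross (hσ : ∀ s, (σ s).IsCycleOn s) {S Q : Finset (Fin n)} {v : Fin n} (hv : v ∈ S)
    (hv' : v ∈ Q) (h : 1 ≤ (S \ Q).card) : ∃ u ∈ S, u ∈ Q ∧ σ S u ∈ S ∧ σ S u ∉ Q := by
  by_contra hcon
  push Not at hcon
  have hmap : ∀ u ∈ S, σ S u ∈ S := fun u hu =>
    mem_coe.1 ((hσ S).1.mapsTo (mem_coe.2 hu))
  have hpow : ∀ k : ℕ, (σ S ^ k) v ∈ S ∧ (σ S ^ k) v ∈ Q := by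
    intro k
    induction k with
    | zero => exact ⟨hv, hv'⟩
    | succ k ih =>
      rw [pow_succ', Equiv.Perm.mul_apply]
      exact ⟨hmap _ ih.1, hcon _ ih.1 ih.2 (hmap _ ih.1)⟩
  obtain ⟨u, hu⟩ := card_pos.1 h
  obtain ⟨hu1, hu2⟩ := mem_sdiff.1 hu
  obtain ⟨k, -, hk⟩ := (hσ S).exists_pow_eq hv hu1
  exact hu2 (hk ▸ (hpow k).2)

theorem ki_killers [DecidableEq ι] (hσ : ∀ s, (σ s).IsCycleOn s) {v : Fin n} (F : Finset ι) :
    F ⊆ A → (∀ m ∈ F, v ∈ (T m).S) → ∀ Q0 : Finset (Fin n), v ∈ Q0 →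
    (∀ m ∈ F, F.card ≤ ((T m).S \ Q0).card) → ∀ a0 : Cube n, ∃ (Q : Finset (Fin n)) (a : Cube n),
      Q0 ⊆ Q ∧ (Q \ Q0).card ≤ F.card ∧ Q ⊆ (ki_nx σ T A)^[F.card] Q0 ∧ (∀ u ∈ Q0, a u = a0 u) ∧
      ∀ m ∈ F, ∃ w ∈ Q \ Q0, w ∈ (T m).S ∧ a w ≠ (T m).a w := by
  induction F using Finset.induction_on with
  | empty =>
    intro _ _ Q0 _ _ a0
    exact ⟨Q0, a0, Subset.rfl, by simp, by simp, fun u _ => rfl, fun m hm => absurd hm (notMem_empty m)⟩
  | insert m1 F hm1 ih =>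
    intro hFA hvF Q0 hvQ hbig a0
    rw [card_insert_of_notMem hm1] at hbig ⊢
    have h1 := hbig m1 (mem_insert_self _ _)
    obtain ⟨u, hu, huQ, hw, hwQ⟩ := ki_cross hσ (hvF m1 (mem_insert_self _ _)) hvQ (by omega)
    obtain ⟨w, hwe⟩ : ∃ w, w = σ (T m1).S u := ⟨_, rfl⟩
    rw [← hwe] at hw hwQ
    obtain ⟨Q, a, hQ1, hQ2, hQ3, hQ4, hQ5⟩ := ih (fun m hm => hFA (mem_insert_of_mem hm))
      (fun m hm => hvF m (mem_insert_of_mem hm)) (insert w Q0) (mem_insert_of_mem hvQ)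
      (fun m hm => by
        have h2 := hbig m (mem_insert_of_mem hm)
        have h3 : ((T m).S \ Q0).card ≤ ((T m).S \ insert w Q0).card + 1 := by
          have h4 : (T m).S \ Q0 ⊆ insert w ((T m).S \ insert w Q0) := by
            intro y hy
            obtain ⟨hy1, hy2⟩ := mem_sdiff.1 hy
            by_cases hyw : y = w
            · exact mem_insert.2 (Or.inl hyw)
            · exact mem_insert.2 (Or.inr (mem_sdiff.2 ⟨hy1, fun h => (mem_insert.1 h).elim hyw hy2⟩))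
          exact (card_le_card h4).trans (card_insert_le _ _)
        omega) (Function.update a0 w (!(T m1).a w))
    have hwin : w ∈ Q := hQ1 (mem_insert_self _ _)
    refine ⟨Q, a, (subset_insert _ _).trans hQ1, ?_, ?_, ?_, ?_⟩
    · have h4 : Q \ Q0 ⊆ insert w (Q \ insert w Q0) := by
        intro y hy
        obtain ⟨hy1, hy2⟩ := mem_sdiff.1 hy
        by_cases hyw : y = w
        · exact mem_insert.2 (Or.inl hyw)
        · exact mem_insert.2 (Or.inr (mem_sdiff.2 ⟨hy1, fun h => (mem_insert.1 h).elim hyw hy2⟩))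
      have h5 := (card_le_card h4).trans (card_insert_le _ _)
      omega
    · rw [Function.iterate_succ_apply]
      refine hQ3.trans (ki_it_mono ?_ _)
      intro y hy
      rcases mem_insert.1 hy with rfl | hy
      · unfold ki_nx
        refine mem_union_right _ (mem_biUnion.2 ⟨m1, hFA (mem_insert_self _ _), mem_image.2
          ⟨u, mem_inter.2 ⟨huQ, hu⟩, hwe.symm⟩⟩)
      · exact ki_sub_nx _ hy
    · intro y hy
      rw [hQ4 y (mem_insert_of_mem hy)]
      exact Function.update_of_ne (show y ≠ w from fun h => hwQ (h ▸ hy)) _ _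
    · intro m hm
      rcases mem_insert.1 hm with rfl | hm
      · refine ⟨w, mem_sdiff.2 ⟨hwin, hwQ⟩, hw, ?_⟩
        rw [hQ4 w (mem_insert_self _ _), Function.update_self]
        cases (T m).a w <;> simp
      · obtain ⟨w', hw1, hw2, hw3⟩ := hQ5 m hm
        obtain ⟨hw4, hw5⟩ := mem_sdiff.1 hw1
        exact ⟨w', mem_sdiff.2 ⟨hw4, fun h => hw5 (mem_insert_of_mem h)⟩, hw2, hw3⟩

/-! ## Clusters -/

theorem ki_cluster [DecidableEq ι] {m0 : ι} {v : Fin n} (hm0 : m0 ∈ A) (hv : v ∈ (T m0).S)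
    (r : ℕ) : ∃ C ⊆ A.filter (fun m => v ∈ (T m).S), m0 ∈ C ∧
      ((C.biUnion fun m => (T m).S) \ (T m0).S).card ≤ (C.card - 1) * r ∧
      ∀ m ∈ A.filter (fun m => v ∈ (T m).S) \ C,
        r < ((T m).S \ C.biUnion fun m => (T m).S).card := by
  classical
  obtain ⟨P, hP⟩ : ∃ P, P = (A.filter fun m => v ∈ (T m).S).powerset.filter fun C => m0 ∈ C ∧
      ((C.biUnion fun m => (T m).S) \ (T m0).S).card ≤ (C.card - 1) * r := ⟨_, rfl⟩
  have hne : P.Nonempty := by
    refine ⟨{m0}, ?_⟩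
    rw [hP, mem_filter, mem_powerset, singleton_subset_iff, mem_filter]
    refine ⟨⟨hm0, hv⟩, mem_singleton_self _, ?_⟩
    rw [singleton_biUnion, sdiff_self, bot_eq_empty, card_empty]
    exact Nat.zero_le _
  obtain ⟨C, hC, hmax⟩ := exists_max_image P card hne
  rw [hP, mem_filter, mem_powerset] at hC
  obtain ⟨hC1, hC2, hC3⟩ := hC
  refine ⟨C, hC1, hC2, hC3, fun m hm => ?_⟩
  obtain ⟨hm1, hm2⟩ := mem_sdiff.1 hm
  by_contra hcon
  push Not at hcon
  have hin : insert m C ∈ P := by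
    rw [hP, mem_filter, mem_powerset]
    refine ⟨insert_subset hm1 hC1, mem_insert_of_mem hC2, ?_⟩
    have h1 : ((insert m C).biUnion fun m => (T m).S) \ (T m0).S ⊆
        ((C.biUnion fun m => (T m).S) \ (T m0).S) ∪ ((T m).S \ C.biUnion fun m => (T m).S) := by
      intro u hu
      rw [biUnion_insert] at hu
      obtain ⟨hu1, hu2⟩ := mem_sdiff.1 hu
      by_cases h : u ∈ C.biUnion fun m => (T m).S
      · exact mem_union_left _ (mem_sdiff.2 ⟨h, hu2⟩)
      · rcases mem_union.1 hu1 with h3 | h3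
        · exact mem_union_right _ (mem_sdiff.2 ⟨h3, h⟩)
        · exact absurd h3 h
    have h2 := (card_le_card h1).trans (card_union_le _ _)
    have h3 : 1 ≤ C.card := card_pos.2 ⟨m0, hC2⟩
    rw [card_insert_of_notMem hm2, Nat.add_sub_cancel]
    obtain ⟨c, hc⟩ : ∃ c, C.card = c + 1 := ⟨C.card - 1, by omega⟩
    rw [hc] at hC3 ⊢
    rw [Nat.add_sub_cancel] at hC3
    nlinarith
  have := hmax _ hin
  rw [card_insert_of_notMem hm2] at this
  omega

/-! ## The change of the product -/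

theorem ki_prod_sub {κ : Type*} (s : Finset κ) (a b : κ → ℂ) (ha : ∀ m ∈ s, ‖a m‖ = 1)
    (hb : ∀ m ∈ s, ‖b m‖ = 1) : ‖∏ m ∈ s, a m - ∏ m ∈ s, b m‖ ≤ ∑ m ∈ s, ‖a m - b m‖ := by
  classical
  induction s using Finset.induction_on with
  | empty => simp
  | insert m s hm ih =>
    rw [prod_insert hm, prod_insert hm, sum_insert hm]
    have h1 : a m * ∏ m ∈ s, a m - b m * ∏ m ∈ s, b m =
        (a m - b m) * ∏ m ∈ s, a m + b m * (∏ m ∈ s, a m - ∏ m ∈ s, b m) := by ring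
    rw [h1]
    refine (norm_add_le _ _).trans (add_le_add ?_ ?_)
    · rw [norm_mul, norm_prod, prod_eq_one fun m' hm' => ha m' (mem_insert_of_mem hm'), mul_one]
    · rw [norm_mul, hb m (mem_insert_self _ _), one_mul]
      exact ih (fun m' hm' => ha m' (mem_insert_of_mem hm'))
        fun m' hm' => hb m' (mem_insert_of_mem hm')

theorem ki_norm_pr {ζ : ι → ℂ} {B : Finset ι} (h : ∀ m ∈ B, ‖ζ m‖ = 1) (x : Cube n) :
    ‖pr T ζ B x‖ = 1 := by
  unfold pr
  rw [norm_prod]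
  refine prod_eq_one fun m hm => ?_
  split_ifs
  · exact h m hm
  · exact norm_one

theorem ki_tr_congr {S : Finset (Fin n)} {a x y : Cube n} (h : ∀ u ∈ S, x u = y u) :
    Tr S a x ↔ Tr S a y :=
  ⟨fun hx u hu => (h u hu).symm.trans (hx u hu), fun hy u hu => (h u hu).trans (hy u hu)⟩

theorem ki_pr_congr {ζ : ι → ℂ} {B : Finset ι} {x y : Cube n}
    (h : ∀ m ∈ B, (Tr (T m).S (T m).a x ↔ Tr (T m).S (T m).a y)) : pr T ζ B x = pr T ζ B y := by
  classical
  unfold pr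
  refine prod_congr rfl fun m hm => ?_
  by_cases hx : Tr (T m).S (T m).a x
  · rw [if_pos hx, if_pos ((h m hm).1 hx)]
  · rw [if_neg hx, if_neg fun hy => hx ((h m hm).2 hy)]

theorem ki_fl_ne {v u : Fin n} (h : u ≠ v) (x : Cube n) : fl v x u = x u :=
  Function.update_of_ne h _ _

theorem ki_fl_self (v : Fin n) (x : Cube n) : fl v x v = !(x v) := Function.update_self _ _ _

theorem ki_fl_fl (v : Fin n) (x : Cube n) : fl v (fl v x) = x := by
  funext u
  by_cases h : u = v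
  · rw [h, ki_fl_self, ki_fl_self, Bool.not_not]
  · rw [ki_fl_ne h, ki_fl_ne h]

/-- A term through `v` is not true at both points. -/
theorem ki_not_both {v : Fin n} {m : ι} (hv : v ∈ (T m).S) {x : Cube n}
    (h1 : Tr (T m).S (T m).a x) : ¬ Tr (T m).S (T m).a (fl v x) := by
  intro h2
  have h3 := h1 v hv
  have h4 := h2 v hv
  rw [ki_fl_self, h3] at h4
  cases hb : (T m).a v <;> rw [hb] at h4 <;> simp at h4

theorem ki_small {ζ : ι → ℂ} {B : Finset ι} (hζ : ∀ m ∈ B, ‖ζ m‖ = 1) {v : Fin n}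
    (hv : ∀ m ∈ B, v ∈ (T m).S) (x : Cube n) :
    ‖pr T ζ B (fl v x) - pr T ζ B x‖ ≤ ∑ m ∈ B, ‖1 - ζ m‖ := by
  classical
  unfold pr
  refine (ki_prod_sub B _ _ (fun m hm => ?_) (fun m hm => ?_)).trans (sum_le_sum fun m hm => ?_)
  · split_ifs
    · exact hζ m hm
    · exact norm_one
  · split_ifs
    · exact hζ m hm
    · exact norm_one
  · by_cases hx : Tr (T m).S (T m).a x
    · rw [if_pos hx, if_neg (ki_not_both (hv m hm) hx)]
    · rw [if_neg hx]
      split_ifs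
      · rw [norm_sub_rev]
      · rw [sub_self, norm_zero]
        exact norm_nonneg _

theorem ki_pr_union [DecidableEq ι] {ζ : ι → ℂ} {B B' : Finset ι} (h : Disjoint B B') (x : Cube n) :
    pr T ζ (B ∪ B') x = pr T ζ B x * pr T ζ B' x := by
  unfold pr
  rw [prod_union h]

/-- The jump. -/
theorem ki_jump [DecidableEq ι] {ζ : ι → ℂ} {g : ℝ} (hζ : ∀ m ∈ A, ‖ζ m‖ = 1) {v : Fin n} {C : Finset ι}
    (hC : C ⊆ A.filter (fun m => v ∈ (T m).S)) {x0 x : Cube n}
    (hg : g ≤ ‖pr T ζ (C ∩ M) (fl v x0) - pr T ζ (C ∩ M) x0‖)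
    (hs : ∑ m ∈ (A \ M).filter (fun m => v ∈ (T m).S), ‖1 - ζ m‖ ≤ g / 2)
    (hx : ∀ u ∈ C.biUnion fun m => (T m).S, u ≠ v → x u = x0 u)
    (hF : ∀ m ∈ A.filter (fun m => v ∈ (T m).S) \ C, ∃ w ∈ (T m).S, w ≠ v ∧ x w ≠ (T m).a w) :
    g / 2 ≤ ‖pr T ζ A (fl v x) - pr T ζ A x‖ := by
  classical
  obtain ⟨F, hFe⟩ : ∃ F, F = A.filter (fun m => v ∈ (T m).S) \ C := ⟨_, rfl⟩
  obtain ⟨N, hN⟩ : ∃ N, N = A.filter (fun m => v ∉ (T m).S) := ⟨_, rfl⟩
  rw [← hFe] at hF
  have hA : A = N ∪ (F ∪ (C ∩ M ∪ C \ M)) := by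
    have h1 : C ∩ M ∪ C \ M = C := by
      ext m
      simp only [mem_union, mem_inter, mem_sdiff]
      tauto
    rw [h1, hFe, sdiff_union_of_subset hC, hN, union_comm, filter_union_filter_not_eq]
  have hd1 : Disjoint (C ∩ M) (C \ M) := by
    rw [disjoint_left]
    intro m h1 h2
    exact (mem_sdiff.1 h2).2 (mem_inter.1 h1).2
  have hd2 : Disjoint F (C ∩ M ∪ C \ M) := by
    rw [disjoint_left]
    intro m h1 h2
    rw [hFe] at h1
    rcases mem_union.1 h2 with h3 | h3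
    · exact (mem_sdiff.1 h1).2 (mem_inter.1 h3).1
    · exact (mem_sdiff.1 h1).2 (mem_sdiff.1 h3).1
  have hsubV : ∀ m ∈ F ∪ (C ∩ M ∪ C \ M), m ∈ A ∧ v ∈ (T m).S := by
    intro m hm
    rcases mem_union.1 hm with h | h
    · rw [hFe] at h
      exact mem_filter.1 (mem_sdiff.1 h).1
    · rcases mem_union.1 h with h | h
      · exact mem_filter.1 (hC (mem_inter.1 h).1)
      · exact mem_filter.1 (hC (mem_sdiff.1 h).1)
  have hd3 : Disjoint N (F ∪ (C ∩ M ∪ C \ M)) := by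
    rw [disjoint_left]
    intro m h1 h2
    rw [hN] at h1
    exact (mem_filter.1 h1).2 (hsubV m h2).2
  have hexp : ∀ y, pr T ζ A y =
      pr T ζ N y * (pr T ζ F y * (pr T ζ (C ∩ M) y * pr T ζ (C \ M) y)) := by
    intro y
    conv_lhs => rw [hA]
    rw [ki_pr_union hd3, ki_pr_union hd2, ki_pr_union hd1]
  have hNe : pr T ζ N (fl v x) = pr T ζ N x := by
    refine ki_pr_congr fun m hm => ki_tr_congr fun u hu => ki_fl_ne ?_ x
    rintro rfl
    rw [hN] at hm
    exact (mem_filter.1 hm).2 hu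
  have hF1 : ∀ y : Cube n, (∀ u, u ≠ v → y u = x u) → pr T ζ F y = 1 := by
    intro y hy
    unfold pr
    refine prod_eq_one fun m hm => if_neg fun h => ?_
    obtain ⟨w, hw1, hw2, hw3⟩ := hF m hm
    exact hw3 ((hy w hw2).symm.trans (h w hw1))
  rw [hexp, hexp, hNe, hF1 _ (fun u hu => ki_fl_ne hu x), hF1 x (fun _ _ => rfl), one_mul, one_mul,
    ← mul_sub, norm_mul, ki_norm_pr (fun m hm => hζ m (by rw [hN] at hm; exact (mem_filter.1 hm).1)),
    one_mul]
  have hCA : ∀ m ∈ C, m ∈ A ∧ v ∈ (T m).S := fun m hm => mem_filter.1 (hC hm)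
  -- the main part
  have hP : ‖pr T ζ (C ∩ M) (fl v x) - pr T ζ (C ∩ M) x‖ =
      ‖pr T ζ (C ∩ M) (fl v x0) - pr T ζ (C ∩ M) x0‖ := by
    have hU : ∀ m ∈ C ∩ M, ∀ u ∈ (T m).S, u ∈ C.biUnion fun m => (T m).S := fun m hm u hu =>
      mem_biUnion.2 ⟨m, (mem_inter.1 hm).1, hu⟩
    by_cases hv : x v = x0 v
    · have e1 : pr T ζ (C ∩ M) x = pr T ζ (C ∩ M) x0 := by
        refine ki_pr_congr fun m hm => ki_tr_congr fun u hu => ?_
        by_cases h : u = v
        · rw [h, hv]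
        · exact hx u (hU m hm u hu) h
      have e2 : pr T ζ (C ∩ M) (fl v x) = pr T ζ (C ∩ M) (fl v x0) := by
        refine ki_pr_congr fun m hm => ki_tr_congr fun u hu => ?_
        by_cases h : u = v
        · rw [h, ki_fl_self, ki_fl_self, hv]
        · rw [ki_fl_ne h, ki_fl_ne h]
          exact hx u (hU m hm u hu) h
      rw [e1, e2]
    · have hv' : x v = !(x0 v) := by
        generalize x v = b at hv
        generalize x0 v = b' at hv
        cases b <;> cases b' <;> first | rfl | exact absurd rfl hv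
      have e1 : pr T ζ (C ∩ M) x = pr T ζ (C ∩ M) (fl v x0) := by
        refine ki_pr_congr fun m hm => ki_tr_congr fun u hu => ?_
        by_cases h : u = v
        · rw [h, ki_fl_self, hv']
        · rw [ki_fl_ne h]
          exact hx u (hU m hm u hu) h
      have e2 : pr T ζ (C ∩ M) (fl v x) = pr T ζ (C ∩ M) x0 := by
        refine ki_pr_congr fun m hm => ki_tr_congr fun u hu => ?_
        by_cases h : u = v
        · rw [h, ki_fl_self, hv', Bool.not_not]
        · rw [ki_fl_ne h]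
          exact hx u (hU m hm u hu) h
      rw [e1, e2, norm_sub_rev]
  have hn : ‖pr T ζ (C \ M) (fl v x) - pr T ζ (C \ M) x‖ ≤ g / 2 := by
    refine (ki_small (fun m hm => hζ m (hCA m (mem_sdiff.1 hm).1).1)
      (fun m hm => (hCA m (mem_sdiff.1 hm).1).2) x).trans (le_trans ?_ hs)
    refine sum_le_sum_of_subset_of_nonneg (fun m hm => ?_) fun m _ _ => norm_nonneg _
    obtain ⟨h1, h2⟩ := mem_sdiff.1 hm
    exact mem_filter.2 ⟨mem_sdiff.2 ⟨(hCA m h1).1, h2⟩, (hCA m h1).2⟩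
  have hn1 : ‖pr T ζ (C \ M) (fl v x)‖ = 1 :=
    ki_norm_pr (fun m hm => hζ m (hCA m (mem_sdiff.1 hm).1).1) _
  have hP1 : ‖pr T ζ (C ∩ M) x‖ = 1 :=
    ki_norm_pr (fun m hm => hζ m (hCA m (mem_inter.1 hm).1).1) _
  have hid : pr T ζ (C ∩ M) (fl v x) * pr T ζ (C \ M) (fl v x) -
      pr T ζ (C ∩ M) x * pr T ζ (C \ M) x =
      (pr T ζ (C ∩ M) (fl v x) - pr T ζ (C ∩ M) x) * pr T ζ (C \ M) (fl v x) -
      pr T ζ (C ∩ M) x * (pr T ζ (C \ M) x - pr T ζ (C \ M) (fl v x)) := by ring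
  rw [hid]
  have h5 := norm_sub_norm_le ((pr T ζ (C ∩ M) (fl v x) - pr T ζ (C ∩ M) x) *
    pr T ζ (C \ M) (fl v x)) (pr T ζ (C ∩ M) x * (pr T ζ (C \ M) x - pr T ζ (C \ M) (fl v x)))
  rw [norm_mul, norm_mul, hn1, hP1, mul_one, one_mul, norm_sub_rev (pr T ζ (C \ M) x), hP] at h5
  linarith

end

/-! ## The patterns -/

theorem patterns (r : ℕ) : ∃ K : ℕ, r ≤ K ∧ ∀ {n : ℕ} {ι : Type} [DecidableEq ι] (T : ι → Term n)
    (ζ : ι → ℂ) (A M : Finset ι) (g : ℝ), Rd r T A → M ⊆ A → (∀ m ∈ A, ‖ζ m‖ = 1) → 0 ≤ g →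
    Gap g T ζ M → (∀ i, ∑ m ∈ (A \ M).filter (fun m => i ∈ (T m).S), ‖1 - ζ m‖ ≤ g / 2) →
    ∃ (Q : ι → Fin n → Finset (Fin n)) (D : ι → Finset (Fin n)) (a : ι → Fin n → Cube n),
      Pat K T M Q D ∧ Piv r T ζ A M (fun _ => g ^ 2 / (16 * r)) Q a := by
  refine ⟨(1 + r) ^ r * (1 + r ^ 3 + r + r * (r * (r ^ 2 + 1))) + r ^ 2 + r, by omega, ?_⟩
  intro n ι _ T ζ A M g hA hMA hζ hg0 hG hs
  classical
  choose σ hσ _ using fun s : Finset (Fin n) => Finset.exists_cycleOn s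
  have key : ∀ (m0 : ι) (v : Fin n), m0 ∈ M → v ∈ (T m0).S → ∃ (Q : Finset (Fin n)) (a : Cube n),
      (T m0).S ⊆ Q ∧ (Q \ (T m0).S).card ≤ r ^ 2 ∧
      Q ⊆ (ki_nx σ T A)^[r] (ki_D0 r T A m0) ∧
      (∀ (η : Finset (Fin n)) (x : Cube n),
        (v ∈ η ∧ Disjoint η (later (T m0).S v ∪ (Q \ (T m0).S))) → Tr (Q.erase v) a x →
        Priv T A η v x) ∧
      ∀ x : Cube n, Tr (Q.erase v) a x → g / 2 ≤ ‖pr T ζ A (fl v x) - pr T ζ A x‖ := by
    intro m0 v hm0 hv
    have hm0A := hMA hm0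
    obtain ⟨C, hC1, hC2, hC3, hC4⟩ := ki_cluster (A := A) hm0A hv r
    obtain ⟨x0, hx0⟩ := hG v (C ∩ M) inter_subset_right ⟨m0, mem_inter.2 ⟨hC2, hm0⟩⟩
      (fun m hm => (mem_filter.1 (hC1 (mem_inter.1 hm).1)).2)
    obtain ⟨U, hU⟩ : ∃ U, U = C.biUnion fun m => (T m).S := ⟨_, rfl⟩
    rw [← hU] at hC3 hC4
    obtain ⟨F, hF⟩ : ∃ F, F = A.filter (fun m => v ∈ (T m).S) \ C := ⟨_, rfl⟩
    rw [← hF] at hC4
    have hFC : F.card + C.card ≤ r := by
      rw [hF, card_sdiff_add_card_eq_card hC1]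
      exact hA v
    have hvU : v ∈ U := by
      rw [hU]
      exact mem_biUnion.2 ⟨m0, hC2, hv⟩
    have hSU : (T m0).S ⊆ U := by
      rw [hU]
      exact subset_biUnion_of_mem (fun m => (T m).S) hC2
    have hC0 : 1 ≤ C.card := card_pos.2 ⟨m0, hC2⟩
    obtain ⟨Q, a, hQ1, hQ2, hQ3, hQ4, hQ5⟩ := ki_killers (A := A) hσ (v := v) F
      (fun m hm => by rw [hF] at hm; exact (mem_filter.1 (mem_sdiff.1 hm).1).1)
      (fun m hm => by rw [hF] at hm; exact (mem_filter.1 (mem_sdiff.1 hm).1).2) U hvU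
      (fun m hm => by have := hC4 m hm; omega) x0
    refine ⟨Q, a, hSU.trans hQ1, ?_, ?_, ?_, ?_⟩
    · have h1 : Q \ (T m0).S ⊆ (Q \ U) ∪ (U \ (T m0).S) := by
        intro u hu
        obtain ⟨hu1, hu2⟩ := mem_sdiff.1 hu
        by_cases h : u ∈ U
        · exact mem_union_right _ (mem_sdiff.2 ⟨h, hu2⟩)
        · exact mem_union_left _ (mem_sdiff.2 ⟨hu1, h⟩)
      have h2 := (card_le_card h1).trans (card_union_le _ _)
      obtain ⟨c, hc⟩ : ∃ c, C.card = c + 1 := ⟨C.card - 1, by omega⟩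
      rw [hc] at hC3 hFC
      rw [Nat.add_sub_cancel] at hC3
      have hr1 : 1 ≤ r := by omega
      nlinarith
    · refine hQ3.trans ((ki_it_le (by omega : F.card ≤ r) _).trans (ki_it_mono ?_ _))
      rw [hU]
      intro u hu
      obtain ⟨m, hm, hum⟩ := mem_biUnion.1 hu
      unfold ki_D0
      refine mem_union_right _ (mem_biUnion.2 ⟨m, mem_filter.2 ⟨(mem_filter.1 (hC1 hm)).1, ?_, ?_⟩,
        hum⟩)
      · exact not_disjoint_iff.2 ⟨v, hv, (mem_filter.1 (hC1 hm)).2⟩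
      · have h1 : (T m).S \ (T m0).S ⊆ U \ (T m0).S := by
          refine sdiff_subset_sdiff ?_ Subset.rfl
          rw [hU]
          exact subset_biUnion_of_mem (fun m => (T m).S) hm
        have h2 := card_le_card h1
        obtain ⟨c, hc⟩ : ∃ c, C.card = c + 1 := ⟨C.card - 1, by omega⟩
        rw [hc] at hC3 hFC
        rw [Nat.add_sub_cancel] at hC3
        nlinarith
    · rintro η x ⟨hvη, hdis⟩ hx
      refine ⟨hvη, fun m hm hvm htr u hu huη => ?_⟩
      rw [disjoint_left] at hdis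
      by_cases hmC : m ∈ C
      · have huQ : u ∈ Q := hQ1 (by rw [hU]; exact mem_biUnion.2 ⟨m, hmC, hu⟩)
        have h1 := hdis huη
        rw [mem_union, not_or] at h1
        have h2 : u ∈ (T m0).S := by
          by_contra h
          exact h1.2 (mem_sdiff.2 ⟨huQ, h⟩)
        by_contra h3
        push Not at h3
        exact h1.1 (mem_filter.2 ⟨h2, h3⟩)
      · exfalso
        have hmF : m ∈ F := by
          rw [hF]
          exact mem_sdiff.2 ⟨mem_filter.2 ⟨hm, hvm⟩, hmC⟩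
        obtain ⟨w, hw1, hw2, hw3⟩ := hQ5 m hmF
        obtain ⟨hw4, hw5⟩ := mem_sdiff.1 hw1
        have hwη : w ∉ η := fun h => by
          have h1 := hdis h
          rw [mem_union, not_or] at h1
          exact h1.2 (mem_sdiff.2 ⟨hw4, fun h2 => hw5 (hSU h2)⟩)
        have hwv : w ≠ v := fun h => hw5 (h ▸ hvU)
        exact hw3 ((hx w (mem_erase.2 ⟨hwv, hw4⟩)).symm.trans
          (htr w (mem_sdiff.2 ⟨hw2, hwη⟩)))
    · intro x hx
      refine ki_jump (M := M) hζ hC1 hx0 (hs v) (fun u hu huv => ?_) (fun m hm => ?_)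
      · rw [← hU] at hu
        rw [hx u (mem_erase.2 ⟨huv, hQ1 hu⟩), hQ4 u hu]
      · rw [← hF] at hm
        obtain ⟨w, hw1, hw2, hw3⟩ := hQ5 m hm
        obtain ⟨hw4, hw5⟩ := mem_sdiff.1 hw1
        have hwv : w ≠ v := fun h => hw5 (h ▸ hvU)
        exact ⟨w, hw2, hwv, fun h => hw3 ((hx w (mem_erase.2 ⟨hwv, hw4⟩)).symm.trans h)⟩
  choose! Q a h1 h2 h3 h4 h5 using key
  refine ⟨Q, fun m => (ki_nx σ T A)^[r] (ki_D0 r T A m), a, ⟨?_, ?_, ?_, ?_, ?_⟩, ⟨?_, ?_⟩⟩
  · exact fun m hm i hi => h1 m i hm hi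
  · intro m hm i hi
    have := h2 m i hm hi
    omega
  · exact fun m hm i hi => h3 m i hm hi
  · intro m hm
    refine (ki_it_card hA _ _).trans ?_
    calc (1 + r) ^ r * (ki_D0 r T A m).card ≤ (1 + r) ^ r * ((1 + r ^ 3) * (T m).S.card) :=
          Nat.mul_le_mul_left _ (ki_D0_card hA m)
      _ = ((1 + r) ^ r * (1 + r ^ 3)) * (T m).S.card := by ring
      _ ≤ _ := Nat.mul_le_mul_right _ (by
          have : (1 + r) ^ r * (1 + r ^ 3) ≤
              (1 + r) ^ r * (1 + r ^ 3 + r + r * (r * (r ^ 2 + 1))) :=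
            Nat.mul_le_mul_left _ (by omega)
          omega)
  · intro v
    refine (ki_it_read (F := ki_D0 r T A) hσ hA (ki_D0_read hA hMA) r v).trans ?_
    have : (1 + r) ^ r * (r + r * (r * (r ^ 2 + 1))) ≤
        (1 + r) ^ r * (1 + r ^ 3 + r + r * (r * (r ^ 2 + 1))) := Nat.mul_le_mul_left _ (by omega)
    omega
  · exact fun m hm i hi η x hE hX => h4 m i hm hi η x hE hX
  · intro m hm i hi x hX
    have h6 := h5 m i hm hi x hX
    have hr : 1 ≤ r := by
      have h7 := hA i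
      have h8 : 1 ≤ (A.filter fun m => i ∈ (T m).S).card := card_pos.2
        ⟨m, mem_filter.2 ⟨hMA hm, hi⟩⟩
      omega
    have hr0 : (r : ℝ) ≠ 0 := by
      have : (1 : ℝ) ≤ r := by exact_mod_cast hr
      positivity
    have h9 : 4 * (r : ℝ) * (g ^ 2 / (16 * r)) = (g / 2) ^ 2 := by
      field_simp
      ring
    rw [h9]
    exact pow_le_pow_left₀ (by linarith) h6 2

end Pool.Agent.MP_ca1109_lc.Xt
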