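import Pool.Agent.MP_ca1109_lc.Xt.Defs
import Pool.Agent.MP_ca1109_lc.Xg.OS

/-!
# The average over the bits in `η` and the private variables
-/

namespace Pool.Agent.MP_ca1109_lc.Xt

open Finset Pool.Agent.MP_ca1109_lc.Mpg Pool.Agent.MP_ca1109_lc.Agp
open Pool.Agent.MP_ca1109_lc.Dnf (Cube ch one E mix Term)
open Pool.Agent.MP_ca1109_lc.Xp (fl later)
open Pool.Agent.MP_ca1109_lc.Xl (Tr pr Rd Fam)
open Pool.Agent.MP_ca1109_lc.Xg (xos_upd xos_upd_ne xos_upd_self xos_half xos_expose xos_mix_upd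
  xos_av xos_E_comm)

variable {n : ℕ} {ι : Type}

theorem tos_norm_pr {T : ι → Term n} {ζ : ι → ℂ} {M : Finset ι} (hζ : ∀ m ∈ M, ‖ζ m‖ = 1)
    (x : Cube n) : ‖pr T ζ M x‖ = 1 := by
  classical
  unfold pr
  rw [norm_prod]
  refine Finset.prod_eq_one fun m hm => ?_
  split_ifs
  · exact hζ m hm
  · exact norm_one

/-- The factor at the bit `v`. -/
noncomputable def tos_Z (T : ι → Term n) (ζ : ι → ℂ) (A : Finset ι) (v : Fin n) (x : Cube n) : ℂ :=
  pr T ζ (A.filter fun m => v ∈ (T m).S) (xos_upd x v true) /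
    pr T ζ (A.filter fun m => v ∈ (T m).S) (xos_upd x v false)

theorem tos_norm_Z {T : ι → Term n} {ζ : ι → ℂ} {A : Finset ι} (hζ : ∀ m ∈ A, ‖ζ m‖ = 1)
    (v : Fin n) (x : Cube n) : ‖tos_Z T ζ A v x‖ = 1 := by
  have h : ∀ m ∈ A.filter (fun m => v ∈ (T m).S), ‖ζ m‖ = 1 := fun m hm =>
    hζ m (Finset.mem_filter.1 hm).1
  unfold tos_Z
  rw [norm_div, tos_norm_pr h, tos_norm_pr h, div_one]

theorem tos_tr_congr {S : Finset (Fin n)} {a x y : Cube n} (h : ∀ i ∈ S, x i = y i) :
    Tr S a x ↔ Tr S a y :=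
  ⟨fun hx i hi => (h i hi).symm.trans (hx i hi), fun hy i hi => (h i hi).trans (hy i hi)⟩

theorem tos_upd {T : ι → Term n} {ζ : ι → ℂ} {A : Finset ι} (hζ : ∀ m ∈ A, ‖ζ m‖ = 1)
    (v : Fin n) (x : Cube n) :
    pr T ζ A (xos_upd x v true) = tos_Z T ζ A v x * pr T ζ A (xos_upd x v false) := by
  classical
  have hs : ∀ y : Cube n, pr T ζ A y = pr T ζ (A.filter fun m => v ∈ (T m).S) y *
      pr T ζ (A.filter fun m => ¬ v ∈ (T m).S) y := by
    intro y
    unfold pr
    exact (Finset.prod_filter_mul_prod_filter_not A _ _).symm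
  have h1 : pr T ζ (A.filter fun m => ¬ v ∈ (T m).S) (xos_upd x v true) =
      pr T ζ (A.filter fun m => ¬ v ∈ (T m).S) (xos_upd x v false) := by
    unfold pr
    refine Finset.prod_congr rfl fun m hm => if_congr (tos_tr_congr fun i hi => ?_) rfl rfl
    have hiv : i ≠ v := fun e => (Finset.mem_filter.1 hm).2 (e ▸ hi)
    rw [xos_upd_ne hiv, xos_upd_ne hiv]
  have h2 : pr T ζ (A.filter fun m => v ∈ (T m).S) (xos_upd x v false) ≠ 0 := by
    intro h
    have h3 := tos_norm_pr (T := T) (M := A.filter fun m => v ∈ (T m).S)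
      (fun m hm => hζ m (Finset.mem_filter.1 hm).1) (xos_upd x v false)
    rw [h, norm_zero] at h3
    exact zero_ne_one h3
  rw [hs (xos_upd x v true), hs (xos_upd x v false), h1]
  unfold tos_Z
  rw [← mul_assoc, div_mul_cancel₀ _ h2]

/-- The change at the bit `v`. -/
theorem tos_jump {T : ι → Term n} {ζ : ι → ℂ} {A : Finset ι} (hζ : ∀ m ∈ A, ‖ζ m‖ = 1)
    (v : Fin n) (x : Cube n) :
    ‖pr T ζ A (fl v x) - pr T ζ A x‖ = ‖1 - tos_Z T ζ A v x‖ := by
  have h1 := tos_upd (T := T) hζ v x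
  have h2 := tos_norm_pr (T := T) hζ (xos_upd x v false)
  cases hx : x v with
  | true =>
    have h3 : xos_upd x v true = x := by rw [← hx]; exact Function.update_eq_self v x
    have h4 : fl v x = xos_upd x v false := by
      unfold fl
      rw [hx]
      rfl
    rw [h3] at h1
    rw [h4, h1]
    have h5 : pr T ζ A (xos_upd x v false) - tos_Z T ζ A v x * pr T ζ A (xos_upd x v false) =
        (1 - tos_Z T ζ A v x) * pr T ζ A (xos_upd x v false) := by ring
    rw [h5, norm_mul, h2, mul_one]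
  | false =>
    have h3 : xos_upd x v false = x := by rw [← hx]; exact Function.update_eq_self v x
    have h4 : fl v x = xos_upd x v true := by
      unfold fl
      rw [hx]
      rfl
    rw [h4, h1, h3]
    rw [h3] at h2
    have h5 : tos_Z T ζ A v x * pr T ζ A x - pr T ζ A x =
        -((1 - tos_Z T ζ A v x) * pr T ζ A x) := by ring
    rw [h5, norm_neg, norm_mul, h2, mul_one]

theorem tos_priv_congr {T : ι → Term n} {A : Finset ι} {η : Finset (Fin n)} {v : Fin n}
    {x y : Cube n} (h : ∀ i, (i ∈ η → i < v) → x i = y i) (hp : Priv T A η v x) :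
    Priv T A η v y := by
  refine ⟨hp.1, fun m hm hv ht => hp.2 m hm hv ?_⟩
  refine (tos_tr_congr fun i hi => h i fun hη => ?_).2 ht
  exact absurd hη (Finset.mem_sdiff.1 hi).2

theorem tos_Z_congr {T : ι → Term n} {ζ : ι → ℂ} {A : Finset ι} {η : Finset (Fin n)} {v : Fin n}
    {x y : Cube n} (h : ∀ i, (i ∈ η → i < v) → x i = y i) (hp : Priv T A η v x) :
    tos_Z T ζ A v y = tos_Z T ζ A v x := by
  classical
  have key : ∀ b : Bool, pr T ζ (A.filter fun m => v ∈ (T m).S) (xos_upd y v b) =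
      pr T ζ (A.filter fun m => v ∈ (T m).S) (xos_upd x v b) := by
    intro b
    unfold pr
    refine Finset.prod_congr rfl fun m hm => if_congr ?_ rfl rfl
    obtain ⟨hmA, hvm⟩ := Finset.mem_filter.1 hm
    by_cases hal : Tr ((T m).S \ η) (T m).a x
    · refine tos_tr_congr fun i hi => ?_
      by_cases hiv : i = v
      · rw [hiv, xos_upd_self, xos_upd_self]
      · rw [xos_upd_ne hiv, xos_upd_ne hiv]
        exact (h i fun hη => lt_of_le_of_ne (hp.2 m hmA hvm hal i hi hη) hiv).symm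
    · have h1 : ∃ i ∈ (T m).S \ η, x i ≠ (T m).a i := by
        by_contra hcon
        push Not at hcon
        exact hal hcon
      obtain ⟨i, hi, hne⟩ := h1
      obtain ⟨hi1, hi2⟩ := Finset.mem_sdiff.1 hi
      have hiv : i ≠ v := fun e => hi2 (e ▸ hp.1)
      have hxy : x i = y i := h i fun hη => absurd hη hi2
      constructor
      · intro ht
        have := ht i hi1
        rw [xos_upd_ne hiv, ← hxy] at this
        exact absurd this hne
      · intro ht
        have := ht i hi1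
        rw [xos_upd_ne hiv] at this
        exact absurd this hne
  unfold tos_Z
  rw [key true, key false]

open Classical in
/-- The factor in the bound. -/
noncomputable def tos_rho (T : ι → Term n) (ζ : ι → ℂ) (A : Finset ι) (η : Finset (Fin n))
    (v : Fin n) (x : Cube n) : ℝ :=
  if Priv T A η v x then Real.exp (-(‖1 - tos_Z T ζ A v x‖ ^ 2) / 8) else 1

theorem tos_main {T : ι → Term n} {ζ : ι → ℂ} {A : Finset ι} (hζ : ∀ m ∈ A, ‖ζ m‖ = 1)
    (η : Finset (Fin n)) (z : Cube n) :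
    ‖(∑ x, pr T ζ A (mix η x z)) / 2 ^ n‖ ≤ E fun x => ∏ v, tos_rho T ζ A η v (mix η x z) := by
  classical
  have hlt : ∀ {v : Fin n} {x x' : Cube n},
      (∀ u : Fin n, n - (v : ℕ) < n - (u : ℕ) → x u = x' u) →
      ∀ i, (i ∈ η → i < v) → mix η x z i = mix η x' z i := by
    intro v x x' hx i hi
    unfold Dnf.mix
    by_cases hη : i ∈ η
    · rw [if_pos hη, if_pos hη]
      refine hx i ?_
      have h9 : (i : ℕ) < v := hi hη
      have := v.2
      omega
    · rw [if_neg hη, if_neg hη]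
  refine xos_expose (fun x => pr T ζ A (mix η x z)) (fun v x => tos_rho T ζ A η v (mix η x z))
    (fun x => (tos_norm_pr hζ _).le) (fun v => n - v) ?_ ?_
  · intro v x x' hx
    unfold tos_rho
    by_cases hp : Priv T A η v (mix η x z)
    · rw [if_pos hp, if_pos (tos_priv_congr (hlt hx) hp), tos_Z_congr (hlt hx) hp]
    · rw [if_neg hp, if_neg fun h => hp (tos_priv_congr (fun i hi => (hlt hx i hi).symm) h)]
  · intro v x
    by_cases hp : Priv T A η v (mix η x z)
    · right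
      refine ⟨tos_Z T ζ A v (mix η x z), tos_norm_Z hζ v _, ?_, fun x' hx' => ?_⟩
      · unfold tos_rho
        rw [if_pos hp]
        exact xos_half (tos_norm_Z hζ v _)
      · simp only [xos_mix_upd hp.1]
        rw [tos_upd hζ, tos_Z_congr (fun i hi => (hlt hx' i hi).symm) hp]
    · left
      unfold tos_rho
      rw [if_neg hp]

section
variable {r : ℕ} {T : ι → Term n} {ζ : ι → ℂ} {A M : Finset ι} {c : ι → ℝ}
  {Q : ι → Fin n → Finset (Fin n)} {a : ι → Fin n → Cube n}

theorem tos_rho_le (hA : Rd r T A) (hMA : M ⊆ A) (hζ : ∀ m ∈ A, ‖ζ m‖ = 1)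
    (hp : Piv r T ζ A M c Q a) (hc : ∀ m ∈ M, 0 ≤ c m) (η : Finset (Fin n)) (x : Cube n) :
    ∏ v, tos_rho T ζ A η v x ≤ Real.exp (-(cw c T M Q a η x) / 2) := by
  classical
  -- the exponent at `v`
  have h1 : ∏ v, tos_rho T ζ A η v x =
      Real.exp (-∑ v, if Priv T A η v x then ‖1 - tos_Z T ζ A v x‖ ^ 2 / 8 else 0) := by
    rw [← Finset.sum_neg_distrib, Real.exp_sum]
    refine Finset.prod_congr rfl fun v _ => ?_
    unfold tos_rho
    split_ifs
    · congr 1
      ring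
    · rw [neg_zero, Real.exp_zero]
  rw [h1]
  refine Real.exp_le_exp.2 ?_
  have h2 : ∀ v : Fin n, (∑ m ∈ M.filter (fun m => v ∈ (T m).S),
      c m * one (PE T Q m v η ∧ PX Q a m v x)) / 2 ≤
      if Priv T A η v x then ‖1 - tos_Z T ζ A v x‖ ^ 2 / 8 else 0 := by
    intro v
    obtain ⟨B, hB⟩ : ∃ B, B = (M.filter fun m => v ∈ (T m).S).filter fun m =>
      PE T Q m v η ∧ PX Q a m v x := ⟨_, rfl⟩
    have e1 : ∑ m ∈ M.filter (fun m => v ∈ (T m).S), c m * one (PE T Q m v η ∧ PX Q a m v x) =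
        ∑ m ∈ B, c m := by
      conv_rhs => rw [hB, Finset.sum_filter]
      refine Finset.sum_congr rfl fun m _ => ?_
      by_cases h : PE T Q m v η ∧ PX Q a m v x
      · rw [Dnf.one_true h, mul_one, if_pos h]
      · rw [Dnf.one_false h, mul_zero, if_neg h]
    rw [e1]
    have hBm : ∀ m ∈ B, m ∈ M ∧ v ∈ (T m).S ∧ PE T Q m v η ∧ PX Q a m v x := by
      intro m hm
      rw [hB] at hm
      obtain ⟨h3, h4⟩ := Finset.mem_filter.1 hm
      obtain ⟨h5, h6⟩ := Finset.mem_filter.1 h3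
      exact ⟨h5, h6, h4⟩
    rcases B.eq_empty_or_nonempty with hBe | ⟨m₀, hm₀⟩
    · rw [hBe, Finset.sum_empty, zero_div]
      split_ifs
      · positivity
      · exact le_rfl
    · obtain ⟨hm1, hv1, hE, hX⟩ := hBm m₀ hm₀
      have hpriv := hp.priv m₀ hm1 v hv1 η x hE hX
      rw [if_pos hpriv]
      have hBc : B.card ≤ r := by
        refine (Finset.card_le_card fun m hm => ?_).trans (hA v)
        obtain ⟨h3, h4, -⟩ := hBm m hm
        exact Finset.mem_filter.2 ⟨hMA h3, h4⟩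
      have hr : (0 : ℝ) < r := by
        have : 0 < B.card := Finset.card_pos.2 ⟨m₀, hm₀⟩
        exact_mod_cast this.trans_le hBc
      have e2 : ∀ m ∈ B, c m ≤ ‖1 - tos_Z T ζ A v x‖ ^ 2 / (4 * r) := by
        intro m hm
        obtain ⟨h3, h4, -, h6⟩ := hBm m hm
        have h7 := hp.jump m h3 v h4 x h6
        rw [tos_jump hζ] at h7
        rw [le_div_iff₀ (by positivity)]
        linarith
      have e3 := Finset.sum_le_card_nsmul B c _ e2
      rw [nsmul_eq_mul] at e3
      have e4 : (B.card : ℝ) * (‖1 - tos_Z T ζ A v x‖ ^ 2 / (4 * r)) ≤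
          r * (‖1 - tos_Z T ζ A v x‖ ^ 2 / (4 * r)) :=
        mul_le_mul_of_nonneg_right (by exact_mod_cast hBc) (by positivity)
      have e5 : (r : ℝ) * (‖1 - tos_Z T ζ A v x‖ ^ 2 / (4 * r)) =
          ‖1 - tos_Z T ζ A v x‖ ^ 2 / 4 := by
        field_simp
      linarith
  have h3 : cw c T M Q a η x ≤ ∑ v, ∑ m ∈ M.filter (fun m => v ∈ (T m).S),
      c m * one (PE T Q m v η ∧ PX Q a m v x) := by
    have e1 : ∑ v, ∑ m ∈ M.filter (fun m => v ∈ (T m).S),
        c m * one (PE T Q m v η ∧ PX Q a m v x) =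
        ∑ m ∈ M, c m * ∑ v ∈ (T m).S, one (PE T Q m v η ∧ PX Q a m v x) := by
      simp_rw [Finset.sum_filter, Finset.mul_sum]
      rw [Finset.sum_comm]
      refine Finset.sum_congr rfl fun m _ => ?_
      rw [← Finset.sum_filter, Finset.filter_mem_eq_inter, Finset.univ_inter]
    rw [e1]
    unfold cw
    refine Finset.sum_le_sum fun m hm => mul_le_mul_of_nonneg_left ?_ (hc m hm)
    by_cases h : Pv T Q a m η x
    · obtain ⟨i, hi, hE, hX⟩ := id h
      rw [Dnf.one_true h, ← Dnf.one_true (show PE T Q m i η ∧ PX Q a m i x from ⟨hE, hX⟩)]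
      exact Finset.single_le_sum (f := fun v => one (PE T Q m v η ∧ PX Q a m v x))
        (fun v _ => Dnf.one_nonneg _) hi
    · rw [Dnf.one_false h]
      exact Finset.sum_nonneg fun v _ => Dnf.one_nonneg _
  have h4 := Finset.sum_le_sum fun (v : Fin n) (_ : v ∈ univ) => h2 v
  rw [← Finset.sum_div] at h4
  linarith

theorem oneshot (hA : Rd r T A) (hMA : M ⊆ A) (hζ : ∀ m ∈ A, ‖ζ m‖ = 1)
    (hp : Piv r T ζ A M c Q a) (hc : ∀ m ∈ M, 0 ≤ c m) (η : Finset (Fin n)) (z : Cube n) :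
    ‖av fun x : Cube n => pr T ζ A (mix η x z)‖ ≤
      E fun x => Real.exp (-(cw c T M Q a η (mix η x z)) / 2) := by
  rw [xos_av]
  exact (tos_main hζ η z).trans (Dnf.E_mono fun x => tos_rho_le hA hMA hζ hp hc η _)

theorem restr_le (hA : Rd r T A) (hMA : M ⊆ A) (hζ : ∀ m ∈ A, ‖ζ m‖ = 1)
    (hp : Piv r T ζ A M c Q a) (hc : ∀ m ∈ M, 0 ≤ c m) (η : Finset (Fin n)) :
    (E fun z => ‖av fun x : Cube n => pr T ζ A (mix η x z)‖ ^ 2) ≤
      E fun x => Real.exp (-(cw c T M Q a η x) / 2) := by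
  have h1 : ∀ z, ‖av fun x : Cube n => pr T ζ A (mix η x z)‖ ≤ 1 := by
    intro z
    rw [xos_av, norm_div, norm_pow, Complex.norm_ofNat, div_le_one (by positivity)]
    refine (norm_sum_le _ _).trans ?_
    rw [Finset.sum_congr rfl fun x _ => tos_norm_pr hζ _, Finset.sum_const, Finset.card_univ]
    simp
  have h2 : ∀ z, ‖av fun x : Cube n => pr T ζ A (mix η x z)‖ ^ 2 ≤
      E fun x => Real.exp (-(cw c T M Q a η (mix η x z)) / 2) := by
    intro z
    refine le_trans ?_ (oneshot hA hMA hζ hp hc η z)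
    rw [pow_two]
    exact mul_le_of_le_one_left (norm_nonneg _) (h1 z)
  refine (Dnf.E_mono h2).trans (le_of_eq ?_)
  exact (xos_E_comm fun z x => Real.exp (-(cw c T M Q a η (mix η x z)) / 2)).trans
    (Dnf.E_mix η fun x => Real.exp (-(cw c T M Q a η x) / 2))

end

end Pool.Agent.MP_ca1109_lc.Xt
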