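import Pool.Agent.MP_ca1109_lc.Xl.Defs

namespace Pool.Agent.MP_ca1109_lc.Xt

open Pool.Agent.MP_ca1109_lc.Dnf (Term)

/-- The energy of the phases. -/
noncomputable def en {n : ℕ} {κ : Type} (T : κ → Term n) (ξ : κ → ℂ) (M : Finset κ) : ℝ :=
  ∑ m ∈ M, ‖1 - ξ m‖ ^ 2 * (1 / 2 : ℝ) ^ (T m).S.card

end Pool.Agent.MP_ca1109_lc.Xt
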