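import Pool.Agent.MP_ca1109_lc.Xt.Defs

/-!
# The expectations of the pattern conditions on the string
-/

namespace Pool.Agent.MP_ca1109_lc.Xt

open Finset Pool.Agent.H66 Pool.Agent.MP_ca1109_lc.Mpg Pool.Agent.MP_ca1109_lc.Agp
open Pool.Agent.MP_ca1109_lc.Dnf (Cube ch one E mix Term E_term E_mono one_nonneg one_mono)
open Pool.Agent.MP_ca1109_lc.Xp (Sp Bias xo fl Miss Hs later mq uv gq)
open Pool.Agent.MP_ca1109_lc.Xl (Tr pr Rd Fam)

variable {n : ℕ} {ι : Type}

theorem xex_one_and (a b : Prop) : one a * one b = one (a ∧ b) := by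
  classical
  unfold one
  by_cases ha : a <;> by_cases hb : b <;> simp [ha, hb]

theorem xex_E_Tr (S : Finset (Fin n)) (a : Cube n) :
    (E fun x => one (Tr S a x)) = (1 / 2) ^ S.card := by
  have h := E_term (⟨S, a⟩ : Term n)
  rw [← h]
  rfl

theorem xex_union (S S' : Finset (Fin n)) (a a' x : Cube n) (h : Tr S a x ∧ Tr S' a' x) :
    Tr (S ∪ S') (fun i => if i ∈ S then a i else a' i) x := by
  intro i hi
  by_cases hS : i ∈ S
  · simp only [hS, if_true]
    exact h.1 i hS
  · simp only [hS, if_false]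
    rcases Finset.mem_union.1 hi with hi | hi
    · exact absurd hi hS
    · exact h.2 i hi

theorem xex_far (S S' : Finset (Fin n)) (a a' : Cube n) (hd : Disjoint S S') :
    (E fun x => one (Tr S a x) * one (Tr S' a' x)) =
      (1 / 2) ^ S.card * (1 / 2) ^ S'.card := by
  classical
  have h := xex_E_Tr (S ∪ S') (fun i => if i ∈ S then a i else a' i)
  rw [Finset.card_union_of_disjoint hd, pow_add] at h
  rw [← h]
  congr 1
  funext x
  rw [xex_one_and]
  congr 1
  rw [eq_iff_iff]
  refine ⟨fun h => xex_union S S' a a' x h, fun h => ⟨fun i hi => ?_, fun i hi => ?_⟩⟩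
  · have h1 := h i (Finset.mem_union_left _ hi)
    simpa [hi] using h1
  · have h1 := h i (Finset.mem_union_right _ hi)
    have h2 : i ∉ S := fun h' => (Finset.disjoint_left.1 hd) h' hi
    simpa [h2] using h1

theorem xex_near (S S' : Finset (Fin n)) (a a' : Cube n) :
    (E fun x => one (Tr S a x) * one (Tr S' a' x)) ≤ (1 / 2) ^ (S ∪ S').card := by
  rw [← xex_E_Tr (S ∪ S') (fun i => if i ∈ S then a i else a' i)]
  refine E_mono fun x => ?_
  rw [xex_one_and]
  exact one_mono fun h => xex_union S S' a a' x h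

section
variable {K : ℕ} {T : ι → Term n} {M : Finset ι} {Q : ι → Fin n → Finset (Fin n)}
  {D : ι → Finset (Fin n)} {a : ι → Fin n → Cube n}

theorem xex_card (hQ : Pat K T M Q D) {m : ι} (hm : m ∈ M) {i : Fin n} (hi : i ∈ (T m).S) :
    ((Q m i).erase i).card = (T m).S.card - 1 + (Q m i \ (T m).S).card := by
  have hs := hQ.sub m hm i hi
  rw [Finset.card_erase_of_mem (hs hi)]
  have h1 := Finset.card_sdiff_add_card_eq_card hs
  have h2 := Finset.card_pos.2 ⟨i, hi⟩
  omega

theorem px_E (hQ : Pat K T M Q D) {m : ι} (hm : m ∈ M) {i : Fin n} (hi : i ∈ (T m).S) :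
    (E fun x => one (PX Q a m i x)) = (1 / 2) ^ ((T m).S.card - 1 + (Q m i \ (T m).S).card) := by
  rw [← xex_card hQ hm hi]
  exact xex_E_Tr _ _

theorem px_far (hQ : Pat K T M Q D) {m m' : ι} (hm : m ∈ M) (hm' : m' ∈ M)
    {i i' : Fin n} (hi : i ∈ (T m).S) (hi' : i' ∈ (T m').S) (hd : Disjoint (D m) (D m')) :
    (E fun x => one (PX Q a m i x) * one (PX Q a m' i' x)) =
      (1 / 2) ^ ((T m).S.card - 1 + (Q m i \ (T m).S).card) *
        (1 / 2) ^ ((T m').S.card - 1 + (Q m' i' \ (T m').S).card) := by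
  rw [← xex_card hQ hm hi, ← xex_card hQ hm' hi']
  exact xex_far _ _ _ _ (hd.mono ((Finset.erase_subset _ _).trans (hQ.dom m hm i hi))
    ((Finset.erase_subset _ _).trans (hQ.dom m' hm' i' hi')))

theorem px_near (hQ : Pat K T M Q D) {m m' : ι} (hm : m ∈ M) (hm' : m' ∈ M) {i i' : Fin n}
    (hi : i ∈ (T m).S) (hi' : i' ∈ (T m').S) :
    (E fun x => one (PX Q a m i x) * one (PX Q a m' i' x)) ≤
      4 * (1 / 2) ^ ((T m).S ∪ (T m').S).card := by
  classical
  refine (xex_near _ _ _ _).trans ?_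
  have hs := hQ.sub m hm i hi
  have hs' := hQ.sub m' hm' i' hi'
  have hc : ((T m).S ∪ (T m').S).card ≤ ((Q m i).erase i ∪ (Q m' i').erase i').card + 2 := by
    have hsub : (T m).S ∪ (T m').S ⊆ ((Q m i).erase i ∪ (Q m' i').erase i') ∪ {i, i'} := by
      intro j hj
      have hj' : j ∈ Q m i ∨ j ∈ Q m' i' := (Finset.mem_union.1 hj).imp (fun h => hs h)
        (fun h => hs' h)
      simp only [Finset.mem_union, Finset.mem_erase, Finset.mem_insert, Finset.mem_singleton]
      tauto
    calc ((T m).S ∪ (T m').S).card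
        ≤ (((Q m i).erase i ∪ (Q m' i').erase i') ∪ {i, i'}).card := Finset.card_le_card hsub
      _ ≤ ((Q m i).erase i ∪ (Q m' i').erase i').card + ({i, i'} : Finset (Fin n)).card :=
        Finset.card_union_le _ _
      _ ≤ ((Q m i).erase i ∪ (Q m' i').erase i').card + 2 :=
        Nat.add_le_add_left Finset.card_le_two _
  have h2 : (1 / 2 : ℝ) ^ (((Q m i).erase i ∪ (Q m' i').erase i').card + 2) ≤
      (1 / 2) ^ ((T m).S ∪ (T m').S).card :=
    pow_le_pow_of_le_one (by norm_num) (by norm_num) hc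
  have h3 : (1 / 2 : ℝ) ^ ((Q m i).erase i ∪ (Q m' i').erase i').card =
      4 * (1 / 2) ^ (((Q m i).erase i ∪ (Q m' i').erase i').card + 2) := by
    rw [pow_add]; ring
  rw [h3]
  linarith

end

end Pool.Agent.MP_ca1109_lc.Xt
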