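import Pool.Agent.MP_ca1109_lc.Xt.EN
import Pool.Agent.MP_ca1109_lc.Xt.TC

/-!
# Phases of bounded energy do not change in the one-shot step
-/

namespace Pool.Agent.MP_ca1109_lc.Xt

open Finset Pool.Agent.H66 Pool.Agent.MP_ca1109_lc.Mpg Pool.Agent.MP_ca1109_lc.Agp
open Pool.Agent.MP_ca1109_lc.Dnf (Cube ch one Term)
open Pool.Agent.MP_ca1109_lc.Xp (Sp Bias xo fl Src)
open Pool.Agent.MP_ca1109_lc.Xl (Tr pr Rd Fam A1)

variable {n : ℕ}

/-- The angle of a unimodular number. -/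
theorem vb_arg {ξ : ℂ} (h : ‖ξ‖ = 1) : ∃ a : ℝ, ξ = Complex.exp (Complex.I * (a : ℂ)) ∧
    |a| ≤ 4 ∧ a ^ 2 ≤ 3 * ‖1 - ξ‖ ^ 2 := by
  have hpi := Real.pi_gt_three
  have hpi4 := Real.pi_lt_d2
  have h0 : ξ = Complex.exp (Complex.I * (ξ.arg : ℂ)) := by
    have := Complex.norm_mul_exp_arg_mul_I ξ
    rw [h, Complex.ofReal_one, one_mul, mul_comm] at this
    exact this.symm
  have ha : |ξ.arg| ≤ Real.pi := Complex.abs_arg_le_pi ξ
  refine ⟨ξ.arg, h0, by linarith, ?_⟩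
  set a := ξ.arg with haa
  have h1 : ‖1 - ξ‖ = 2 * |Real.sin (a / 2)| := by
    rw [norm_sub_rev]
    conv_lhs => rw [h0]
    rw [Complex.norm_exp_I_mul_ofReal_sub_one, norm_mul, Real.norm_eq_abs, Real.norm_eq_abs,
      abs_of_pos (by norm_num : (0 : ℝ) < 2)]
  have h3 : |Real.sin (a / 2)| = Real.sin (|a| / 2) := by
    rcases abs_cases a with ⟨h, h'⟩ | ⟨h, h'⟩
    · rw [h, abs_of_nonneg]
      exact Real.sin_nonneg_of_nonneg_of_le_pi (by linarith) (by rw [h] at ha; linarith)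
    · rw [h, neg_div, Real.sin_neg, abs_of_nonpos]
      exact Real.sin_nonpos_of_nonpos_of_neg_pi_le (by linarith) (by rw [h] at ha; linarith)
  have h4 := Real.mul_le_sin (x := |a| / 2) (by positivity) (by linarith)
  have h5 : 2 / Real.pi * (|a| / 2) = |a| / Real.pi := by ring
  rw [h5, ← h3] at h4
  have h6 : |a| / Real.pi * 2 ≤ ‖1 - ξ‖ := by
    rw [h1]
    linarith
  have h7 : |a| ≤ 1.7 * ‖1 - ξ‖ := by
    have h8 : |a| * 2 ≤ ‖1 - ξ‖ * Real.pi := by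
      rw [div_mul_eq_mul_div, div_le_iff₀ (by positivity)] at h6
      exact h6
    have h9 : ‖1 - ξ‖ * Real.pi ≤ ‖1 - ξ‖ * 3.15 := mul_le_mul_of_nonneg_left hpi4.le (norm_nonneg _)
    have h10 : 0 ≤ ‖1 - ξ‖ := norm_nonneg _
    linarith
  calc a ^ 2 = |a| ^ 2 := (sq_abs a).symm
    _ ≤ (1.7 * ‖1 - ξ‖) ^ 2 := pow_le_pow_left₀ (abs_nonneg _) h7 2
    _ = 2.89 * ‖1 - ξ‖ ^ 2 := by ring
    _ ≤ 3 * ‖1 - ξ‖ ^ 2 := mul_le_mul_of_nonneg_right (by norm_num) (sq_nonneg _)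

/-- The sum over the terms which meet `η`. -/
theorem vb_meet {κ : Type} (T : κ → Term n) (u : κ → ℝ) (M : Finset κ) (η : Finset (Fin n))
    (x y : Cube n) (hxy : ∀ i, i ∉ η → x i = y i) :
    rs T u M x - rs T u M y =
      rs T u (M.filter fun m => ¬ Disjoint (T m).S η) x -
        rs T u (M.filter fun m => ¬ Disjoint (T m).S η) y := by
  unfold rs
  rw [← Finset.sum_filter_add_sum_filter_not M (fun m => ¬ Disjoint (T m).S η)
      (fun m => u m * Xl.tm (T m).S (T m).a x),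
    ← Finset.sum_filter_add_sum_filter_not M (fun m => ¬ Disjoint (T m).S η)
      (fun m => u m * Xl.tm (T m).S (T m).a y)]
  have h : ∑ m ∈ M.filter (fun m => ¬ ¬ Disjoint (T m).S η), u m * Xl.tm (T m).S (T m).a x =
      ∑ m ∈ M.filter (fun m => ¬ ¬ Disjoint (T m).S η), u m * Xl.tm (T m).S (T m).a y := by
    refine Finset.sum_congr rfl fun m hm => ?_
    have hd : Disjoint (T m).S η := not_not.1 (Finset.mem_filter.1 hm).2
    rw [on_tm (T m) x y fun i hi => hxy i (Finset.disjoint_left.1 hd hi)]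
  rw [h]
  ring

theorem vb_card {κ : Type} {r : ℕ} {T : κ → Term n} {M : Finset κ} (hM : Rd r T M)
    (h0 : ∀ m ∈ M, (T m).S ≠ ∅) : M.card ≤ r * n := by
  calc M.card = ∑ m ∈ M, 1 := by simp
    _ ≤ ∑ m ∈ M, (T m).S.card := Finset.sum_le_sum fun m hm =>
        Finset.card_pos.2 (Finset.nonempty_iff_ne_empty.2 (h0 m hm))
    _ = ∑ m ∈ M, ∑ i : Fin n, if i ∈ (T m).S then 1 else 0 := by
        refine Finset.sum_congr rfl fun m _ => ?_
        simp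
    _ = ∑ i : Fin n, (M.filter fun m => i ∈ (T m).S).card := by
        rw [Finset.sum_comm]
        refine Finset.sum_congr rfl fun i _ => ?_
        rw [Finset.card_filter]
    _ ≤ ∑ _i : Fin n, r := Finset.sum_le_sum fun i _ => hM i
    _ = r * n := by simp [mul_comm]

/-- The second moment at a string of small bias. -/
theorem vb_sq {κ : Type} {r : ℕ} {T : κ → Term n} {M : Finset κ} (hM : Rd r T M)
    (h0 : ∀ m ∈ M, (T m).S ≠ ∅) {u : κ → ℝ} (hu : ∀ m ∈ M, |u m| ≤ 4)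
    {Ω : Type} [Fintype Ω] [Nonempty Ω] {Y : Ω → Cube n} {δ : ℝ} (hδ : 0 ≤ δ) (hY : Bias δ Y) :
    (avg fun ω => (rs T u M (Y ω) - avg (rs T u M)) ^ 2) ≤
      r * rv T u M + δ * (8 * (r : ℝ) * n) ^ 2 := by
  have hE : avg (rs T u M) = ∑ m ∈ M, u m * (1 / 2) ^ (T m).S.card := by
    rw [Xp.spb_avg_E]
    have : rs T u M = fun x : Cube n => ∑ m ∈ M, u m * Xl.tm (T m).S (T m).a x := rfl
    rw [this, Dnf.E_sum]
    refine Finset.sum_congr rfl fun m _ => ?_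
    rw [Dnf.E_smul]
    congr 1
    exact Dnf.E_term (T m)
  have h1 : ∀ m ∈ M, Sp (8 : ℝ) (fun x : Cube n =>
      (((u m * (Xl.tm (T m).S (T m).a x - (1 / 2) ^ (T m).S.card) : ℝ)) : ℂ)) := by
    intro m hm
    have h2 := ((Xl.sp_tm (T m).S (T m).a).sub
      (Xp.Sp.const (n := n) (((1 / 2 : ℝ) ^ (T m).S.card : ℝ) : ℂ))).smul ((u m : ℝ) : ℂ)
    refine (h2.mono ?_).congr' fun x => by push_cast; ring
    rw [Complex.norm_real, Complex.norm_real, Real.norm_eq_abs, Real.norm_eq_abs]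
    have h3 := hu m hm
    have h4 : |(1 / 2 : ℝ) ^ (T m).S.card| ≤ 1 := by
      rw [abs_of_nonneg (by positivity)]
      exact pow_le_one₀ (by norm_num) (by norm_num)
    nlinarith [abs_nonneg (u m), abs_nonneg ((1 / 2 : ℝ) ^ (T m).S.card)]
  have h5 := (Xp.Sp.sum M (fun _ => (8 : ℝ)) _ h1).pow 2
  have h6 : Sp ((8 * (r : ℝ) * n) ^ 2)
      (fun x : Cube n => ((((rs T u M x - avg (rs T u M)) ^ 2 : ℝ)) : ℂ)) := by
    refine (h5.mono ?_).congr' fun x => ?_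
    · rw [Finset.sum_const, nsmul_eq_mul]
      have h7 : (M.card : ℝ) ≤ r * n := by exact_mod_cast vb_card hM h0
      refine pow_le_pow_left₀ (by positivity) ?_ 2
      linarith
    · have h8 : rs T u M x - avg (rs T u M) =
          ∑ m ∈ M, u m * (Xl.tm (T m).S (T m).a x - (1 / 2) ^ (T m).S.card) := by
        rw [hE]
        unfold rs
        rw [← Finset.sum_sub_distrib]
        exact Finset.sum_congr rfl fun m _ => by ring
      rw [h8]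
      push_cast
      rfl
  have h7 := (abs_le.1 (Xp.fool_real hδ hY h6)).2
  have h8 := rs_var hM u
  linarith

/-- Phases of energy at most `V`, the general inequality. -/
theorem vb_main {r n W : ℕ} {κ : Type} {T : κ → Term n} {M : Finset κ} {ξ : κ → ℂ} {V : ℝ}
    (hM : Fam r W T M) (hξ : ∀ m ∈ M, ‖ξ m‖ = 1) (hen : en T ξ M ≤ V) {p δ : ℝ} (hp : 0 ≤ p)
    (hδ : 0 ≤ δ) {Ω₁ Ω₂ : Type} [Fintype Ω₁] [Nonempty Ω₁] [Fintype Ω₂] [Nonempty Ω₂] {B : ℕ}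
    (Z : Ω₂ → Ω₁ → Cube n) (η : Ω₂ → Finset (Fin n)) (h : Ω₂ → Fin n → Fin B)
    (hZ : ∀ ω₂, Bias δ (Z ω₂)) (hη : Src p δ η h) {ε : ℝ} (hε : 0 < ε) :
    (avg fun ω₂ => avg fun ω₁ => avg fun u : Fin B → Bool =>
      ‖pr T ξ M (Xp.mv (Z ω₂ ω₁) (η ω₂) (h ω₂) u) - pr T ξ M (Z ω₂ ω₁)‖) ≤
      ε / 2 + 2 / ε * (r * (3 * |V| * (W * (p + δ))) + δ * (8 * (r : ℝ) * n) ^ 2) := by
  classical
  choose! a ha1 ha2 ha3 using fun m (hm : m ∈ M) => vb_arg (hξ m hm)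
  -- the product is the exponential of the statistic
  have hpr : ∀ x : Cube n, pr T ξ M x = Complex.exp (Complex.I * ((rs T a M x : ℝ) : ℂ)) := by
    intro x
    have h1 := pr_ph T a M 1 x
    rw [one_mul] at h1
    rw [← h1]
    unfold pr
    refine Finset.prod_congr rfl fun m hm => ?_
    have : ph 1 a m = ξ m := by
      unfold ph
      rw [Complex.ofReal_one, one_mul]
      exact (ha1 m hm).symm
    rw [this]
  have hdiff : ∀ x y : Cube n, ‖pr T ξ M x - pr T ξ M y‖ ≤ |rs T a M x - rs T a M y| := by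
    intro x y
    rw [hpr, hpr]
    have h1 : Complex.exp (Complex.I * ((rs T a M x : ℝ) : ℂ)) -
        Complex.exp (Complex.I * ((rs T a M y : ℝ) : ℂ)) =
        Complex.exp (((rs T a M y : ℝ) : ℂ) * Complex.I) *
          (Complex.exp (Complex.I * (((rs T a M x - rs T a M y : ℝ)) : ℂ)) - 1) := by
      rw [mul_sub, mul_one, ← Complex.exp_add, mul_comm ((rs T a M y : ℝ) : ℂ) Complex.I]
      congr 2
      push_cast
      ring
    rw [h1, norm_mul, Complex.norm_exp_ofReal_mul_I, one_mul]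
    exact Real.norm_exp_I_mul_ofReal_sub_one_le
  -- the terms which meet `η`
  set Mη : Ω₂ → Finset κ := fun ω₂ => M.filter fun m => ¬ Disjoint (T m).S (η ω₂) with hMη
  have hrd : ∀ ω₂, Rd r T (Mη ω₂) := by
    intro ω₂ i
    refine le_trans (Finset.card_le_card ?_) (hM.rd i)
    intro m hm
    obtain ⟨h1, h2⟩ := Finset.mem_filter.1 hm
    exact Finset.mem_filter.2 ⟨(Finset.mem_filter.1 h1).1, h2⟩
  have hne : ∀ ω₂, ∀ m ∈ Mη ω₂, (T m).S ≠ ∅ := fun ω₂ m hm => hM.ne m (Finset.mem_filter.1 hm).1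
  have hab : ∀ ω₂, ∀ m ∈ Mη ω₂, |a m| ≤ 4 := fun ω₂ m hm => ha2 m (Finset.mem_filter.1 hm).1
  set Q : Ω₂ → ℝ := fun ω₂ => r * rv T a (Mη ω₂) + δ * (8 * (r : ℝ) * n) ^ 2 with hQ
  set μ : Ω₂ → ℝ := fun ω₂ => avg (rs T a (Mη ω₂)) with hμ
  have hq1 : ∀ ω₂, (avg fun ω₁ => (rs T a (Mη ω₂) (Z ω₂ ω₁) - μ ω₂) ^ 2) ≤ Q ω₂ := fun ω₂ =>
    vb_sq (hrd ω₂) (hne ω₂) (hab ω₂) hδ (hZ ω₂)
  have hq2 : ∀ ω₂ (u : Fin B → Bool),
      (avg fun ω₁ => (rs T a (Mη ω₂) (Xp.mv (Z ω₂ ω₁) (η ω₂) (h ω₂) u) - μ ω₂) ^ 2) ≤ Q ω₂ := by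
    intro ω₂ u
    have hb : Bias δ (fun ω₁ => Xp.mv (Z ω₂ ω₁) (η ω₂) (h ω₂) u) :=
      (hZ ω₂).xo fun i => decide (i ∈ η ω₂) && u (h ω₂ i)
    exact vb_sq (hrd ω₂) (hne ω₂) (hab ω₂) hδ hb
  -- pointwise
  have hpt : ∀ ω₂ ω₁ (u : Fin B → Bool),
      ‖pr T ξ M (Xp.mv (Z ω₂ ω₁) (η ω₂) (h ω₂) u) - pr T ξ M (Z ω₂ ω₁)‖ ≤
        ε / 2 + (1 / ε) * ((rs T a (Mη ω₂) (Xp.mv (Z ω₂ ω₁) (η ω₂) (h ω₂) u) - μ ω₂) ^ 2 +
          (rs T a (Mη ω₂) (Z ω₂ ω₁) - μ ω₂) ^ 2) := by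
    intro ω₂ ω₁ u
    refine (hdiff _ _).trans ?_
    rw [vb_meet T a M (η ω₂) _ (Z ω₂ ω₁) fun i hi => by simp [Xp.mv, hi]]
    set X := rs T a (Mη ω₂) (Xp.mv (Z ω₂ ω₁) (η ω₂) (h ω₂) u)
    set X' := rs T a (Mη ω₂) (Z ω₂ ω₁)
    have h1 : |X - X'| ≤ ε / 2 + (X - X') ^ 2 / (2 * ε) := by
      have h2 : 0 ≤ (|X - X'| - ε) ^ 2 := sq_nonneg _
      have h3 : (X - X') ^ 2 = |X - X'| ^ 2 := (sq_abs _).symm
      rw [h3, ← sub_le_iff_le_add', le_div_iff₀ (by positivity)]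
      nlinarith
    refine h1.trans (add_le_add_right ?_ _)
    rw [div_le_iff₀ (by positivity)]
    have h4 : 1 / ε * ((X - μ ω₂) ^ 2 + (X' - μ ω₂) ^ 2) * (2 * ε) =
        2 * ((X - μ ω₂) ^ 2 + (X' - μ ω₂) ^ 2) := by
      field_simp
    rw [h4]
    nlinarith [sq_nonneg ((X - μ ω₂) + (X' - μ ω₂))]
  -- average over `ω₁` and `u`
  have hin : ∀ ω₂, (avg fun ω₁ => avg fun u : Fin B → Bool =>
      ‖pr T ξ M (Xp.mv (Z ω₂ ω₁) (η ω₂) (h ω₂) u) - pr T ξ M (Z ω₂ ω₁)‖) ≤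
        ε / 2 + (2 / ε) * Q ω₂ := by
    intro ω₂
    have hswap : ∀ F : Ω₁ → (Fin B → Bool) → ℝ,
        (avg fun ω₁ => avg fun u => F ω₁ u) = avg fun u => avg fun ω₁ => F ω₁ u := by
      intro F
      unfold avg
      rw [← Finset.sum_div, ← Finset.sum_div, Finset.sum_comm, div_right_comm]
    rw [hswap]
    have h1 : ∀ u : Fin B → Bool, (avg fun ω₁ =>
        ‖pr T ξ M (Xp.mv (Z ω₂ ω₁) (η ω₂) (h ω₂) u) - pr T ξ M (Z ω₂ ω₁)‖) ≤
          ε / 2 + (2 / ε) * Q ω₂ := by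
      intro u
      refine (avg_mono fun ω₁ => hpt ω₂ ω₁ u).trans ?_
      rw [avg_add, avg_const, avg_mul_left, avg_add]
      have h2 : 1 / ε * ((avg fun ω₁ =>
            (rs T a (Mη ω₂) (Xp.mv (Z ω₂ ω₁) (η ω₂) (h ω₂) u) - μ ω₂) ^ 2) +
          avg fun ω₁ => (rs T a (Mη ω₂) (Z ω₂ ω₁) - μ ω₂) ^ 2) ≤ 1 / ε * (Q ω₂ + Q ω₂) :=
        mul_le_mul_of_nonneg_left (add_le_add (hq2 ω₂ u) (hq1 ω₂)) (by positivity)
      have h3 : 1 / ε * (Q ω₂ + Q ω₂) = 2 / ε * Q ω₂ := by ring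
      linarith
    exact avg_le h1
  refine (avg_mono hin).trans ?_
  rw [avg_add, avg_const, avg_mul_left]
  -- the average energy of the terms which meet `η`
  have hQavg : avg Q ≤ r * (3 * |V| * (W * (p + δ))) + δ * (8 * (r : ℝ) * n) ^ 2 := by
    have h1 : avg Q = r * (avg fun ω₂ => rv T a (Mη ω₂)) + δ * (8 * (r : ℝ) * n) ^ 2 := by
      have : Q = fun ω₂ => r * rv T a (Mη ω₂) + δ * (8 * (r : ℝ) * n) ^ 2 := rfl
      rw [this, avg_add, avg_const, avg_mul_left]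
    have h2 : (avg fun ω₂ => rv T a (Mη ω₂)) ≤ 3 * |V| * (W * (p + δ)) := by
      have h3 : (fun ω₂ => rv T a (Mη ω₂)) = fun ω₂ =>
          ∑ m ∈ M, (a m ^ 2 * (1 / 2) ^ (T m).S.card) * one (¬ Disjoint (T m).S (η ω₂)) := by
        funext ω₂
        unfold rv
        rw [hMη, Finset.sum_filter]
        refine Finset.sum_congr rfl fun m _ => ?_
        by_cases hd : ¬ Disjoint (T m).S (η ω₂)
        · rw [if_pos hd, Dnf.one_true hd, mul_one]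
        · rw [if_neg hd, Dnf.one_false hd, mul_zero]
      rw [h3, avg_sum]
      have h4 : ∀ m ∈ M, (avg fun ω₂ => (a m ^ 2 * (1 / 2 : ℝ) ^ (T m).S.card) *
          one (¬ Disjoint (T m).S (η ω₂))) ≤
          (3 * (‖1 - ξ m‖ ^ 2 * (1 / 2) ^ (T m).S.card)) * (W * (p + δ)) := by
        intro m hm
        rw [avg_mul_left]
        have h5 : (avg fun ω₂ => one (¬ Disjoint (T m).S (η ω₂))) ≤ W * (p + δ) := by
          have h6 : ∀ ω₂, one (¬ Disjoint (T m).S (η ω₂)) ≤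
              ∑ i ∈ (T m).S, one (({i} : Finset (Fin n)) ⊆ η ω₂) := by
            intro ω₂
            by_cases hd : ¬ Disjoint (T m).S (η ω₂)
            · rw [Dnf.one_true hd]
              obtain ⟨i, hi, hi2⟩ := Finset.not_disjoint_iff.1 hd
              have h7 : one (({i} : Finset (Fin n)) ⊆ η ω₂) = 1 :=
                Dnf.one_true (Finset.singleton_subset_iff.2 hi2)
              calc (1 : ℝ) = one (({i} : Finset (Fin n)) ⊆ η ω₂) := h7.symm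
                _ ≤ _ := Finset.single_le_sum
                  (f := fun i => one (({i} : Finset (Fin n)) ⊆ η ω₂))
                  (fun i _ => Dnf.one_nonneg _) hi
            · rw [Dnf.one_false hd]
              exact Finset.sum_nonneg fun i _ => Dnf.one_nonneg _
          refine (avg_mono h6).trans ?_
          rw [avg_sum]
          calc ∑ i ∈ (T m).S, avg (fun ω₂ => one (({i} : Finset (Fin n)) ⊆ η ω₂))
              ≤ ∑ _i ∈ (T m).S, (p + δ) := by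
                refine Finset.sum_le_sum fun i _ => ?_
                have h8 := (abs_le.1 (hη.sub {i})).2
                rw [Finset.card_singleton, pow_one] at h8
                linarith
            _ = (T m).S.card * (p + δ) := by rw [Finset.sum_const, nsmul_eq_mul]
            _ ≤ W * (p + δ) := mul_le_mul_of_nonneg_right
                (by exact_mod_cast hM.wd m hm) (by positivity)
        have h7 : a m ^ 2 * (1 / 2 : ℝ) ^ (T m).S.card ≤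
            3 * (‖1 - ξ m‖ ^ 2 * (1 / 2) ^ (T m).S.card) := by
          have := mul_le_mul_of_nonneg_right (ha3 m hm)
            (by positivity : (0 : ℝ) ≤ (1 / 2 : ℝ) ^ (T m).S.card)
          linarith
        have h8 : 0 ≤ avg fun ω₂ => one (¬ Disjoint (T m).S (η ω₂)) :=
          avg_nonneg fun ω₂ => Dnf.one_nonneg _
        exact mul_le_mul h7 h5 h8 (by positivity)
      refine (Finset.sum_le_sum h4).trans ?_
      rw [← Finset.sum_mul, ← Finset.mul_sum]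
      refine mul_le_mul_of_nonneg_right ?_ (by positivity)
      have : ∑ m ∈ M, ‖1 - ξ m‖ ^ 2 * (1 / 2 : ℝ) ^ (T m).S.card ≤ |V| :=
        (show en T ξ M ≤ V from hen).trans (le_abs_self V)
      linarith
    rw [h1]
    have := mul_le_mul_of_nonneg_left h2 (Nat.cast_nonneg (α := ℝ) r)
    linarith
  have := mul_le_mul_of_nonneg_left hQavg (by positivity : (0 : ℝ) ≤ 2 / ε)
  linarith

/-- Row VB: phases of bounded energy do not change in the one-shot step. -/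
theorem vb (r : ℕ) (V : ℝ) {ε : ℝ} (hε : 0 < ε) : ∃ C : ℕ, ∀ (n W : ℕ) {κ : Type}
    [DecidableEq κ] (T : κ → Term n) (M : Finset κ) (ξ : κ → ℂ), Fam r W T M → 1 ≤ W →
    (∀ m ∈ M, ‖ξ m‖ = 1) → en T ξ M ≤ V →
    ∀ p δ : ℝ, 0 < p → p ≤ 1 → C * p * W ≤ 1 → 0 ≤ δ → C * δ * ((n : ℝ) + 1) ^ 2 * 4 ^ W ≤ 1 →
    ∀ {Ω₁ Ω₂ : Type} [Fintype Ω₁] [Nonempty Ω₁] [Fintype Ω₂] [Nonempty Ω₂] {B : ℕ}
      (Z : Ω₂ → Ω₁ → Cube n) (η : Ω₂ → Finset (Fin n)) (h : Ω₂ → Fin n → Fin B),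
      (∀ ω₂, Bias δ (Z ω₂)) → Src p δ η h →
      (avg fun ω₂ => avg fun ω₁ => avg fun u : Fin B → Bool =>
        ‖pr T ξ M (Xp.mv (Z ω₂ ω₁) (η ω₂) (h ω₂) u) - pr T ξ M (Z ω₂ ω₁)‖) ≤ ε := by
  classical
  set C0 : ℝ := (24 * r * |V| + 256 * (r : ℝ) ^ 2) / ε ^ 2 with hC0
  refine ⟨⌈C0⌉₊ + 1, ?_⟩
  set C : ℕ := ⌈C0⌉₊ + 1 with hC
  have hC0n : 0 ≤ C0 := by positivity
  have hCC : C0 ≤ C := by
    rw [hC]
    push_cast
    linarith [Nat.le_ceil C0]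
  have hC1 : (0 : ℝ) < C := by
    rw [hC]
    push_cast
    positivity
  intro n W κ _ T M ξ hM hW hξ hen p δ hp hp1 hCp hδ hCδ Ω₁ Ω₂ _ _ _ _ B Z η h hZ hη
  refine (vb_main hM hξ hen hp.le hδ Z η h hZ hη hε).trans ?_
  have hQavg : r * (3 * |V| * (W * (p + δ))) + δ * (8 * (r : ℝ) * n) ^ 2 ≤ ε ^ 2 / 4 := by
    have hn1 : (1 : ℝ) ≤ (n : ℝ) + 1 := by
      have : (0 : ℝ) ≤ n := Nat.cast_nonneg n
      linarith
    have hW1 : (1 : ℝ) ≤ W := by exact_mod_cast hW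
    have h4W : (W : ℝ) ≤ 4 ^ W := by
      have h5 : W < 2 ^ W := Nat.lt_two_pow_self
      have h6 : (W : ℝ) ≤ 2 ^ W := by exact_mod_cast h5.le
      have h7 : (2 : ℝ) ^ W ≤ 4 ^ W := pow_le_pow_left₀ (by norm_num) (by norm_num) W
      linarith
    have hpW : p * W ≤ 1 / C := by
      rw [le_div_iff₀ hC1]
      linarith
    have hdW : δ * W ≤ 1 / C := by
      rw [le_div_iff₀ hC1]
      have h5 : δ * W ≤ δ * (((n : ℝ) + 1) ^ 2 * 4 ^ W) := by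
        refine mul_le_mul_of_nonneg_left ?_ hδ
        have h6 : (1 : ℝ) ≤ ((n : ℝ) + 1) ^ 2 := one_le_pow₀ hn1
        have h7 : (0 : ℝ) ≤ 4 ^ W := by positivity
        nlinarith
      calc δ * W * C ≤ δ * (((n : ℝ) + 1) ^ 2 * 4 ^ W) * C := mul_le_mul_of_nonneg_right h5 hC1.le
        _ = C * δ * ((n : ℝ) + 1) ^ 2 * 4 ^ W := by ring
        _ ≤ 1 := hCδ
    have hdn : δ * (n : ℝ) ^ 2 ≤ 1 / C := by
      rw [le_div_iff₀ hC1]
      have h6 : (n : ℝ) ^ 2 ≤ ((n : ℝ) + 1) ^ 2 := pow_le_pow_left₀ (Nat.cast_nonneg n) (by linarith) 2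
      have h7 : (1 : ℝ) ≤ 4 ^ W := one_le_pow₀ (by norm_num)
      have h8 : (n : ℝ) ^ 2 ≤ ((n : ℝ) + 1) ^ 2 * 4 ^ W := by nlinarith [sq_nonneg ((n : ℝ) + 1)]
      calc δ * (n : ℝ) ^ 2 * C ≤ δ * (((n : ℝ) + 1) ^ 2 * 4 ^ W) * C :=
            mul_le_mul_of_nonneg_right (mul_le_mul_of_nonneg_left h8 hδ) hC1.le
        _ = C * δ * ((n : ℝ) + 1) ^ 2 * 4 ^ W := by ring
        _ ≤ 1 := hCδ
    have h9 : r * (3 * |V| * (W * (p + δ))) + δ * (8 * (r : ℝ) * n) ^ 2 ≤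
        (6 * r * |V| + 64 * (r : ℝ) ^ 2) / C := by
      have h11 : (W : ℝ) * (p + δ) ≤ 2 / C := by
        have : (2 : ℝ) / C = 1 / C + 1 / C := by ring
        rw [this]
        linarith
      have h12 : (r : ℝ) * (3 * |V| * (W * (p + δ))) ≤ r * (3 * |V| * (2 / C)) :=
        mul_le_mul_of_nonneg_left (mul_le_mul_of_nonneg_left h11 (by positivity)) (Nat.cast_nonneg r)
      have h13 : δ * (8 * (r : ℝ) * n) ^ 2 ≤ 64 * (r : ℝ) ^ 2 * (1 / C) := by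
        calc δ * (8 * (r : ℝ) * n) ^ 2 = 64 * (r : ℝ) ^ 2 * (δ * (n : ℝ) ^ 2) := by ring
          _ ≤ 64 * (r : ℝ) ^ 2 * (1 / C) := mul_le_mul_of_nonneg_left hdn (by positivity)
      have h14 : (6 * r * |V| + 64 * (r : ℝ) ^ 2) / C =
          r * (3 * |V| * (2 / C)) + 64 * (r : ℝ) ^ 2 * (1 / C) := by
        ring
      linarith
    refine h9.trans ?_
    rw [div_le_iff₀ hC1]
    have h15 : (24 * r * |V| + 256 * (r : ℝ) ^ 2) ≤ C * ε ^ 2 := by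
      have := hCC
      rw [hC0, div_le_iff₀ (by positivity)] at this
      exact this
    nlinarith
  have hfin : 2 / ε * (r * (3 * |V| * (W * (p + δ))) + δ * (8 * (r : ℝ) * n) ^ 2) ≤
      2 / ε * (ε ^ 2 / 4) := mul_le_mul_of_nonneg_left hQavg (by positivity)
  have hfin2 : 2 / ε * (ε ^ 2 / 4) = ε / 2 := by
    field_simp
    ring
  linarith

/-- The same with a square root (the form of `Xa`). -/
theorem vb_sqrt (r : ℕ) : ∃ C : ℕ, ∀ (n W : ℕ) {κ : Type} [DecidableEq κ] (T : κ → Term n)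
    (M : Finset κ) (ζ : κ → ℂ) (V : ℝ), Fam r W T M → (∀ m ∈ M, ‖ζ m‖ = 1) →
    ∑ m ∈ M, (1 / 2 : ℝ) ^ (T m).S.card * ‖1 - ζ m‖ ^ 2 ≤ V →
    ∀ p δ : ℝ, 0 ≤ p → 0 ≤ δ → ∀ {Ω₁ Ω₂ : Type} [Fintype Ω₁] [Nonempty Ω₁] [Fintype Ω₂]
      [Nonempty Ω₂] {B : ℕ} (Z : Ω₂ → Ω₁ → Cube n) (η : Ω₂ → Finset (Fin n))
      (h : Ω₂ → Fin n → Fin B), (∀ ω₂, Bias δ (Z ω₂)) → Src p δ η h →
      (avg fun ω₂ => avg fun ω₁ => avg fun u : Fin B → Bool =>
        ‖pr T ζ M (Xp.mv (Z ω₂ ω₁) (η ω₂) (h ω₂) u) - pr T ζ M (Z ω₂ ω₁)‖) ≤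
        Real.sqrt (C * V * W * (p + δ) + C * δ * ((n : ℝ) + 1) ^ 2) := by
  refine ⟨12 * r + 256 * r ^ 2, ?_⟩
  intro n W κ _ T M ζ V hM hζ hV p δ hp hδ Ω₁ Ω₂ _ _ _ _ B Z η h hZ hη
  have hen : en T ζ M ≤ V := by
    refine le_trans (le_of_eq ?_) hV
    exact Finset.sum_congr rfl fun m _ => mul_comm _ _
  have hV0 : 0 ≤ V := le_trans (Finset.sum_nonneg fun m _ => by positivity) hV
  set A : ℝ := avg fun ω₂ => avg fun ω₁ => avg fun u : Fin B → Bool =>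
        ‖pr T ζ M (Xp.mv (Z ω₂ ω₁) (η ω₂) (h ω₂) u) - pr T ζ M (Z ω₂ ω₁)‖ with hA
  set Q : ℝ := r * (3 * |V| * (W * (p + δ))) + δ * (8 * (r : ℝ) * n) ^ 2 with hQ
  have hQ0 : 0 ≤ Q := by positivity
  have hall : ∀ e : ℝ, 0 < e → A ≤ e / 2 + 2 / e * Q := fun e he =>
    vb_main hM hζ hen hp hδ Z η h hZ hη he
  have hA2 : A ≤ 2 * Real.sqrt Q := by
    rcases eq_or_lt_of_le hQ0 with h0 | h0
    · rw [← h0, Real.sqrt_zero, mul_zero]
      refine le_of_forall_pos_le_add fun e he => ?_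
      have := hall (2 * e) (by positivity)
      rw [← h0] at this
      linarith
    · have hs : 0 < Real.sqrt Q := Real.sqrt_pos.2 h0
      have h1 := hall (2 * Real.sqrt Q) (by positivity)
      have h2 : 2 / (2 * Real.sqrt Q) * Q = Real.sqrt Q := by
        have h3 : Real.sqrt Q * Real.sqrt Q = Q := Real.mul_self_sqrt hQ0
        rw [div_mul_eq_mul_div, div_eq_iff (by positivity)]
        linarith
      linarith
  refine hA2.trans ?_
  have h3 : 2 * Real.sqrt Q = Real.sqrt (4 * Q) := by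
    rw [show (4 : ℝ) * Q = 2 ^ 2 * Q by norm_num, Real.sqrt_mul (by norm_num), Real.sqrt_sq (by norm_num)]
  rw [h3]
  refine Real.sqrt_le_sqrt ?_
  rw [hQ, abs_of_nonneg hV0]
  push_cast
  have hn : (n : ℝ) ^ 2 ≤ ((n : ℝ) + 1) ^ 2 :=
    pow_le_pow_left₀ (Nat.cast_nonneg n) (by linarith) 2
  have h4 : δ * (n : ℝ) ^ 2 ≤ δ * ((n : ℝ) + 1) ^ 2 := mul_le_mul_of_nonneg_left hn hδ
  have h5 : 0 ≤ V * W * (p + δ) := by positivity
  have h6 : 0 ≤ δ * ((n : ℝ) + 1) ^ 2 := by positivity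
  have hr0 : (0 : ℝ) ≤ r := Nat.cast_nonneg r
  have h7 : 0 ≤ 256 * (r : ℝ) ^ 2 * (V * W * (p + δ)) := by positivity
  have h8 : 0 ≤ 12 * (r : ℝ) * (δ * ((n : ℝ) + 1) ^ 2) := by positivity
  have h9 : 256 * (r : ℝ) ^ 2 * (δ * (n : ℝ) ^ 2) ≤ 256 * (r : ℝ) ^ 2 * (δ * ((n : ℝ) + 1) ^ 2) :=
    mul_le_mul_of_nonneg_left h4 (by positivity)
  calc 4 * (r * (3 * V * (W * (p + δ))) + δ * (8 * (r : ℝ) * n) ^ 2)
      = 12 * r * (V * W * (p + δ)) + 256 * (r : ℝ) ^ 2 * (δ * (n : ℝ) ^ 2) := by ring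
    _ ≤ (12 * r + 256 * (r : ℝ) ^ 2) * (V * W * (p + δ)) +
        (12 * r + 256 * (r : ℝ) ^ 2) * (δ * ((n : ℝ) + 1) ^ 2) := by
        rw [add_mul, add_mul]
        linarith
    _ = (12 * r + 256 * (r : ℝ) ^ 2) * V * W * (p + δ) +
        (12 * r + 256 * (r : ℝ) ^ 2) * δ * ((n : ℝ) + 1) ^ 2 := by ring

end Pool.Agent.MP_ca1109_lc.Xt
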