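import Pool.Agent.MP_ca1109_lc.Xt.NS
import Pool.Agent.MP_ca1109_lc.Xt.PR

/-! Row VR: the first two moments of `cw`. -/

namespace Pool.Agent.MP_ca1109_lc.Xt

open Finset Pool.Agent.H66 Pool.Agent.MP_ca1109_lc.Mpg Pool.Agent.MP_ca1109_lc.Agp
open Pool.Agent.MP_ca1109_lc.Dnf (Cube ch one E mix Term)
open Pool.Agent.MP_ca1109_lc.Xp (Sp Bias xo fl Miss Hs later mq uv gq)
open Pool.Agent.MP_ca1109_lc.Xl (Tr pr Rd Fam)

variable {n : ℕ} {ι : Type} [DecidableEq ι]

section VR
variable {r K W : ℕ} {T : ι → Term n} {M : Finset ι} {Q : ι → Fin n → Finset (Fin n)}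
  {D : ι → Finset (Fin n)} {a : ι → Fin n → Cube n}
  {Ω : Type} [Fintype Ω] [Nonempty Ω] {η : Ω → Finset (Fin n)} {p δ : ℝ} {c : ι → ℝ}

omit [Nonempty Ω] in
/-- The average is linear. -/
theorem xvr_sum {κ : Type*} (s : Finset κ) (f : κ → Ω → Cube n → ℝ) :
    (avg fun ω => E fun x => ∑ i ∈ s, f i ω x) = ∑ i ∈ s, avg fun ω => E fun x => f i ω x := by
  rw [← avg_sum]
  congr 1
  funext ω
  exact Dnf.E_sum s fun i => f i ω

omit [Nonempty Ω] in
theorem xvr_mul (b : ℝ) (f : Ω → Cube n → ℝ) :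
    (avg fun ω => E fun x => b * f ω x) = b * avg fun ω => E fun x => f ω x := by
  unfold avg E
  simp only [← Finset.mul_sum, mul_div_assoc]

theorem cw_mean (hM : Fam r W T M) (hQ : Pat K T M Q D) (hc : ∀ m ∈ M, 0 ≤ c m)
    (hc1 : ∀ m ∈ M, c m ≤ 1) (hη : Miss (2 * (W + K)) p δ η) (hδ : 0 ≤ δ) :
    ∑ m ∈ M, c m * aw p T Q m - 2 * δ * (W * M.card) ≤
      avg fun ω => E fun x => cw c T M Q a (η ω) x := by
  have h1 : (avg fun ω => E fun x => cw c T M Q a (η ω) x) =
      ∑ m ∈ M, c m * avg fun ω => E fun x => one (Pv T Q a m (η ω) x) := by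
    unfold cw
    rw [xvr_sum]
    exact Finset.sum_congr rfl fun m _ => xvr_mul _ _
  rw [h1]
  have h2 : ∀ m ∈ M, c m * aw p T Q m - 2 * δ * W ≤
      c m * avg fun ω => E fun x => one (Pv T Q a m (η ω) x) := by
    intro m hm
    have hcd := hM.wd m hm
    have h3 := (abs_le.1 (pv_one (a := a) hQ hη hm (by omega))).1
    have h4 : 2 * δ * ((T m).S.card : ℝ) ≤ 2 * δ * W :=
      mul_le_mul_of_nonneg_left (by exact_mod_cast hcd) (by positivity)
    have h5 : aw p T Q m - 2 * δ * W ≤ avg fun ω => E fun x => one (Pv T Q a m (η ω) x) := by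
      linarith
    have h6 := mul_le_mul_of_nonneg_left h5 (hc m hm)
    have h7 : c m * (2 * δ * W) ≤ 1 * (2 * δ * W) :=
      mul_le_mul_of_nonneg_right (hc1 m hm) (by positivity)
    linarith
  refine le_trans ?_ (Finset.sum_le_sum h2)
  rw [Finset.sum_sub_distrib, Finset.sum_const, nsmul_eq_mul]
  apply le_of_eq
  ring

omit [DecidableEq ι] in
theorem xvr_aw_nonneg (hp : 0 ≤ p) (hp1 : p ≤ 1 / 2) (m : ι) : 0 ≤ aw p T Q m := by
  have : 0 ≤ 1 - p := by linarith
  exact Finset.sum_nonneg fun i _ => by positivity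

theorem cw_sq (hM : Fam r W T M) (hrK : r ≤ K) (hQ : Pat K T M Q D) (hc : ∀ m ∈ M, 0 ≤ c m)
    (hc1 : ∀ m ∈ M, c m ≤ 1) (hη : Miss (2 * (W + K)) p δ η) (hδ : 0 ≤ δ) (hp : 0 ≤ p)
    (hp1 : p ≤ 1 / 2) :
    (avg fun ω => E fun x => (cw c T M Q a (η ω) x) ^ 2) ≤
      (∑ m ∈ M, c m * aw p T Q m) ^ 2 + 8 * NC K * (mw p c T M + δ * M.card) +
        4 * δ * (W * M.card) ^ 2 := by
  classical
  set P : ι → ι → ℝ := fun m m' =>
    avg fun ω => E fun x => one (Pv T Q a m (η ω) x) * one (Pv T Q a m' (η ω) x) with hP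
  have hPs : ∀ m m', P m m' = P m' m := by
    intro m m'
    simp only [hP]
    congr 1
    funext ω
    congr 1
    funext x
    ring
  have h1 : (avg fun ω => E fun x => (cw c T M Q a (η ω) x) ^ 2) =
      ∑ m ∈ M, ∑ m' ∈ M, (c m * c m') * P m m' := by
    have h2 : ∀ ω x, (cw c T M Q a (η ω) x) ^ 2 =
        ∑ m ∈ M, ∑ m' ∈ M,
          (c m * c m') * (one (Pv T Q a m (η ω) x) * one (Pv T Q a m' (η ω) x)) := by
      intro ω x
      unfold cw
      rw [sq, Finset.sum_mul_sum]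
      refine Finset.sum_congr rfl fun m _ => Finset.sum_congr rfl fun m' _ => ?_
      ring
    simp only [h2]
    rw [xvr_sum]
    refine Finset.sum_congr rfl fun m _ => ?_
    rw [xvr_sum]
    exact Finset.sum_congr rfl fun m' _ => xvr_mul _ _
  rw [h1]
  -- the bound for one pair
  set Nr : ι → ι → ℝ := fun m m' =>
    if (T m).S.card ≤ (T m').S.card ∧ ¬ Disjoint (D m) (D m') then
      c m * (4 * (1 / 2 : ℝ) ^ ((T m).S ∪ (T m').S).card *
        (1 - (1 - p) ^ (T m).S.card + δ)) else 0 with hNr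
  have hq : ∀ k : ℕ, 0 ≤ 1 - (1 - p) ^ k := by
    intro k
    have : (1 - p) ^ k ≤ 1 := pow_le_one₀ (by linarith) (by linarith)
    linarith
  have hNr0 : ∀ m ∈ M, ∀ m', 0 ≤ Nr m m' := by
    intro m hm m'
    simp only [hNr]
    split_ifs
    · have := hq (T m).S.card
      have := hc m hm
      positivity
    · exact le_refl _
  have hcc : ∀ m ∈ M, ∀ m' ∈ M, ∀ y : ℝ, 0 ≤ y → (c m * c m') * y ≤ c m * y := by
    intro m hm m' hm' y hy
    have h2 : c m * c m' ≤ c m * 1 := mul_le_mul_of_nonneg_left (hc1 m' hm') (hc m hm)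
    rw [mul_one] at h2
    exact mul_le_mul_of_nonneg_right h2 hy
  have hpair : ∀ m ∈ M, ∀ m' ∈ M, (c m * c m') * P m m' ≤
      ((c m * aw p T Q m) * (c m' * aw p T Q m') + 4 * δ * W ^ 2) + (Nr m m' + Nr m' m) := by
    intro m hm m' hm'
    have hcd := hM.wd m hm
    have hcd' := hM.wd m' hm'
    have ha := xvr_aw_nonneg (T := T) (Q := Q) hp hp1 m
    have ha' := xvr_aw_nonneg (T := T) (Q := Q) hp hp1 m'
    have c0 := hc m hm
    have c0' := hc m' hm'
    by_cases hd : Disjoint (D m) (D m')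
    · have h3 := pv_far (a := a) hQ hη hm hm' (by omega) hd
      have h4 : 4 * δ * (((T m).S.card : ℝ) * (T m').S.card) ≤ 4 * δ * (W : ℝ) ^ 2 := by
        refine mul_le_mul_of_nonneg_left ?_ (by positivity)
        rw [sq]
        exact mul_le_mul (by exact_mod_cast hcd) (by exact_mod_cast hcd') (Nat.cast_nonneg _)
          (Nat.cast_nonneg _)
      have := hNr0 m hm m'
      have := hNr0 m' hm' m
      have h5 : P m m' ≤ aw p T Q m * aw p T Q m' + 4 * δ * (W : ℝ) ^ 2 := h3.trans (by linarith)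
      have h6 := mul_le_mul_of_nonneg_left h5 (mul_nonneg c0 c0')
      have h7 : (c m * c m') * (4 * δ * (W : ℝ) ^ 2) ≤ 1 * (4 * δ * (W : ℝ) ^ 2) :=
        mul_le_mul_of_nonneg_right (mul_le_one₀ (hc1 m hm) c0' (hc1 m' hm')) (by positivity)
      calc (c m * c m') * P m m'
          ≤ (c m * c m') * (aw p T Q m * aw p T Q m' + 4 * δ * (W : ℝ) ^ 2) := h6
        _ = (c m * aw p T Q m) * (c m' * aw p T Q m') + (c m * c m') * (4 * δ * (W : ℝ) ^ 2) := by
            ring
        _ ≤ _ := by linarith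
    · have hz : 0 ≤ (c m * aw p T Q m) * (c m' * aw p T Q m') + 4 * δ * (W : ℝ) ^ 2 := by
        positivity
      have hP0 : ∀ u v, 0 ≤ P u v := by
        intro u v
        simp only [hP]
        refine div_nonneg (Finset.sum_nonneg fun ω _ => ?_) (Nat.cast_nonneg _)
        exact Dnf.E_nonneg fun x => mul_nonneg (Dnf.one_nonneg _) (Dnf.one_nonneg _)
      rcases le_total (T m).S.card (T m').S.card with hle | hle
      · have h3 : (c m * c m') * P m m' ≤ Nr m m' := by
          simp only [hNr]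
          rw [if_pos ⟨hle, hd⟩]
          refine (hcc m hm m' hm' _ (hP0 _ _)).trans ?_
          exact mul_le_mul_of_nonneg_left (pv_near hQ hη hm hm' (by omega)) c0
        have := hNr0 m' hm' m
        linarith
      · have h3 : (c m * c m') * P m m' ≤ Nr m' m := by
          simp only [hNr]
          rw [if_pos ⟨hle, fun h => hd h.symm⟩, hPs m m', mul_comm (c m)]
          refine (hcc m' hm' m hm _ (hP0 _ _)).trans ?_
          exact mul_le_mul_of_nonneg_left (pv_near hQ hη hm' hm (by omega)) c0'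
        have := hNr0 m hm m'
        linarith
  have hnear : ∑ m ∈ M, ∑ m' ∈ M, Nr m m' ≤ 4 * NC K * (mw p c T M + δ * M.card) := by
    have h3 : ∀ m ∈ M, ∑ m' ∈ M, Nr m m' ≤
        4 * NC K * (c m * ((1 / 2 : ℝ) ^ (T m).S.card * (1 - (1 - p) ^ (T m).S.card)) + δ) := by
      intro m hm
      have hne : (T m).S.Nonempty := Finset.nonempty_iff_ne_empty.2 (hM.ne m hm)
      have h4 := near_sum hM.rd hrK hQ hm hne
      have c0 := hc m hm
      have h5 : ∑ m' ∈ M, Nr m m' =
          (c m * (4 * ((1 / 2 : ℝ) ^ (T m).S.card * (1 - (1 - p) ^ (T m).S.card + δ)))) *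
          ∑ m' ∈ M.filter (fun m' => (T m).S.card ≤ (T m').S.card ∧
            ¬ Disjoint (D m) (D m')), (1 / 2 : ℝ) ^ ((T m').S \ (T m).S).card := by
        rw [Finset.mul_sum, Finset.sum_filter]
        refine Finset.sum_congr rfl fun m' _ => ?_
        simp only [hNr]
        split_ifs
        · have h6 : ((T m).S ∪ (T m').S).card = (T m).S.card + ((T m').S \ (T m).S).card := by
            rw [← Finset.union_sdiff_self_eq_union, Finset.card_union_of_disjoint
              Finset.disjoint_sdiff]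
          rw [h6, pow_add]
          ring
        · rfl
      have h7 : (1 / 2 : ℝ) ^ (T m).S.card ≤ 1 := pow_le_one₀ (by norm_num) (by norm_num)
      have h8 := hq (T m).S.card
      have hNC : 0 ≤ NC K := by unfold NC; positivity
      rw [h5]
      calc _ ≤ (c m * (4 * ((1 / 2 : ℝ) ^ (T m).S.card * (1 - (1 - p) ^ (T m).S.card + δ)))) *
              NC K := mul_le_mul_of_nonneg_left h4 (by positivity)
        _ = 4 * NC K * (c m * ((1 / 2 : ℝ) ^ (T m).S.card * (1 - (1 - p) ^ (T m).S.card)) +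
            c m * ((1 / 2 : ℝ) ^ (T m).S.card * δ)) := by ring
        _ ≤ _ := by
            refine mul_le_mul_of_nonneg_left ?_ (by positivity)
            have h9 : (1 / 2 : ℝ) ^ (T m).S.card * δ ≤ 1 * δ := mul_le_mul_of_nonneg_right h7 hδ
            have h10 : c m * ((1 / 2 : ℝ) ^ (T m).S.card * δ) ≤
                1 * ((1 / 2 : ℝ) ^ (T m).S.card * δ) :=
              mul_le_mul_of_nonneg_right (hc1 m hm) (by positivity)
            linarith
    refine (Finset.sum_le_sum h3).trans ?_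
    rw [← Finset.mul_sum, Finset.sum_add_distrib, Finset.sum_const, nsmul_eq_mul]
    have hNC : 0 ≤ NC K := by unfold NC; positivity
    refine mul_le_mul_of_nonneg_left ?_ (by positivity)
    unfold mw
    linarith [mul_comm (M.card : ℝ) δ]
  have hswap : ∑ m ∈ M, ∑ m' ∈ M, Nr m' m = ∑ m ∈ M, ∑ m' ∈ M, Nr m m' :=
    Finset.sum_comm
  calc ∑ m ∈ M, ∑ m' ∈ M, (c m * c m') * P m m' ≤ ∑ m ∈ M, ∑ m' ∈ M,
        (((c m * aw p T Q m) * (c m' * aw p T Q m') + 4 * δ * (W : ℝ) ^ 2) +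
          (Nr m m' + Nr m' m)) :=
        Finset.sum_le_sum fun m hm => Finset.sum_le_sum fun m' hm' => hpair m hm m' hm'
    _ = (∑ m ∈ M, c m * aw p T Q m) ^ 2 + (M.card * (M.card * (4 * δ * (W : ℝ) ^ 2))) +
        2 * ∑ m ∈ M, ∑ m' ∈ M, Nr m m' := by
        have hsq : (∑ m ∈ M, c m * aw p T Q m) ^ 2 =
            ∑ m ∈ M, ∑ m' ∈ M, (c m * aw p T Q m) * (c m' * aw p T Q m') := by
          rw [sq, Finset.sum_mul_sum]
        simp only [Finset.sum_add_distrib, Finset.sum_const, nsmul_eq_mul]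
        rw [hswap, hsq]
        ring
    _ ≤ _ := by
        have h12 : (M.card : ℝ) * (M.card * (4 * δ * (W : ℝ) ^ 2)) = 4 * δ * (W * M.card) ^ 2 := by
          ring
        linarith

end VR

end Pool.Agent.MP_ca1109_lc.Xt
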